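import Pool.Agent.H15.QP.Gm

/-! All window lengths at once. -/

set_option autoImplicit false

namespace Pool.Agent.H15.QP
open Finset MeasureTheory

lemma net_pow (δ : ℝ) (hδ : 0 ≤ δ) (hδ1 : δ ≤ 1) (K : ℕ) : Real.exp (K * δ / 2) ≤ (1 + δ) ^ K := by
  have h1 : Real.exp (δ / 2) ≤ 1 + δ := by
    have h2 := Real.exp_bound' (show 0 ≤ δ / 2 by linarith) (show δ / 2 ≤ 1 by linarith) (n := 2) (by norm_num)
    norm_num [Finset.sum_range_succ, Nat.factorial] at h2
    nlinarith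
  calc Real.exp (K * δ / 2) = Real.exp (δ / 2) ^ K := by rw [← Real.exp_nat_mul]; congr 1; ring
    _ ≤ (1 + δ) ^ K := pow_le_pow_left₀ (Real.exp_pos _).le h1 K

lemma net_half (δ h : ℝ) (hδ : 0 < δ) (hδs : δ ≤ 1 / 100) (hp : 0 < h) (hh : h ≤ 1 / 4) : (1 + δ) * h ≤ 1 / 2 := by
  nlinarith

lemma net_pars (B : ℕ) (Y δ : ℝ) (hY : 100 ≤ Y) (hδ : δ = 1 / Y ^ (B + 1)) :
    δ + 2 * (3 / Y ^ (2 * B + 4)) ≤ 1 / Y ^ B ∧ 3 / Y ^ (2 * B + 4) ≤ 1 := by
  have hYp : 0 < Y := by linarith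
  have hY1 : 1 ≤ Y := by linarith
  have h1 : 3 / Y ^ (2 * B + 4) ≤ δ := by
    rw [hδ, div_le_div_iff₀ (by positivity) (by positivity)]
    have h2 : Y ^ (2 * B + 4) = Y ^ (B + 1) * (Y ^ (B + 2) * Y) := by rw [← pow_succ, ← pow_add]; congr 1; ring
    have h3 : 1 ≤ Y ^ (B + 2) := one_le_pow₀ hY1
    have h4 : 0 < Y ^ (B + 1) := by positivity
    have h5 : 3 ≤ Y ^ (B + 2) * Y := by nlinarith
    rw [h2]
    have := mul_le_mul_of_nonneg_left h5 h4.le
    linarith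
  have h5 : 3 * δ ≤ 1 / Y ^ B := by
    rw [hδ, pow_succ, mul_one_div, div_le_div_iff₀ (by positivity) (by positivity)]
    have : 0 < Y ^ B := by positivity
    nlinarith
  have h6 : 1 / Y ^ B ≤ 1 := by rw [div_le_one (by positivity)]; exact one_le_pow₀ hY1
  have h7 : 0 < δ := by rw [hδ]; positivity
  constructor <;> linarith

lemma net_alg (W h a b δ ε D G Ga Gb : ℝ) (hW : 0 < W) (ha : 0 < a) (hah : a ≤ h) (hhb : h < b) (hb : b = (1 + δ) * a) (hδ : 0 < δ)
    (hδ1 : δ ≤ 1 / 100) (hε : 0 < ε) (hε1 : ε ≤ 1) (hD : δ + 2 * ε ≤ D) (h1 : |Ga - W * a| ≤ ε * (W * a)) (h2 : |Gb - W * b| ≤ ε * (W * b))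
    (m1 : Ga ≤ G) (m2 : G ≤ Gb) : |G - W * h| ≤ D * (W * h) := by
  rw [abs_le] at h1 h2
  have hh : 0 < h := by linarith
  have hWh : 0 < W * h := by positivity
  have hWa : W * a ≤ W * h := by gcongr
  have hWb : W * b ≤ (1 + δ) * (W * h) := by
    rw [hb]
    calc W * ((1 + δ) * a) = (1 + δ) * (W * a) := by ring
      _ ≤ (1 + δ) * (W * h) := mul_le_mul_of_nonneg_left hWa (by linarith)
  have hlow : (1 - δ) * (W * h) ≤ W * a := by
    have h3 : W * h ≤ (1 + δ) * (W * a) := by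
      have := mul_le_mul_of_nonneg_left hhb.le hW.le
      rw [hb] at this
      linarith
    have h4 : (1 - δ) * (W * h) ≤ (1 - δ) * ((1 + δ) * (W * a)) := mul_le_mul_of_nonneg_left h3 (by linarith)
    have h5 : 0 < δ * δ * (W * a) := by positivity
    linarith [show (1 - δ) * ((1 + δ) * (W * a)) = W * a - δ * δ * (W * a) by ring]
  have hD2 : (δ + 2 * ε) * (W * h) ≤ D * (W * h) := mul_le_mul_of_nonneg_right hD hWh.le
  have h6 : ε * (W * a) ≤ ε * (W * h) := mul_le_mul_of_nonneg_left hWa hε.le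
  have h7 : ε * (W * b) ≤ ε * ((1 + δ) * (W * h)) := mul_le_mul_of_nonneg_left hWb hε.le
  have h8 : ε * (δ * (W * h)) ≤ ε * (1 * (W * h)) := by gcongr; linarith
  have h9 : 0 < ε * (W * h) := by positivity
  rw [abs_le]
  constructor
  · linarith [show (1 - δ) * (W * h) = W * h - δ * (W * h) by ring, show (δ + 2 * ε) * (W * h) = δ * (W * h) + 2 * (ε * (W * h)) by ring]
  · linarith [show (1 + δ) * (W * h) = W * h + δ * (W * h) by ring, show (δ + 2 * ε) * (W * h) = δ * (W * h) + 2 * (ε * (W * h)) by ring,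
      show ε * ((1 + δ) * (W * h)) = ε * (W * h) + ε * (δ * (W * h)) by ring]

/-- outside a small set of `u` all windows at once -/
theorem uniform (B : ℕ) : ∃ (Ce : ℕ) (Y₀ : ℝ), ∀ (Y P : ℝ) (A : Finset ℕ) (w : ℕ → ℝ), Y₀ ≤ Y → Y ^ Ce ≤ P → P ≤ Real.exp Y →
    (∀ a ∈ A, a.Prime ∧ P / 2 < a ∧ (a : ℝ) ≤ P) → (∀ a ∈ A, 1 / 2 ≤ w a ∧ w a ≤ 1) → P / Y ^ B ≤ A.card →
    ∃ E : Set ℝ, volume E ≤ ENNReal.ofReal (1 / Y ^ B) ∧
      ∀ u : ℝ, u ∉ E → |u + Real.log P - Y| ≤ 6 / 5 → ∀ h : ℝ, Real.exp (-Y) / Y ^ B ≤ h → h ≤ 1 / 4 →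
        |GQ A w h u - (∑ a ∈ A, w a) * h| ≤ (∑ a ∈ A, w a) * h / Y ^ B := by
  obtain ⟨Ce, Y₀, hc⟩ := cheb (2 * B + 4)
  obtain ⟨Y₁, hY₁⟩ := poly_le_exp (3 * B + 4) 16 1 (by norm_num) (by norm_num)
  obtain ⟨Y₂, hY₂⟩ := poly_le_exp B 1 (1 / 2) (by norm_num) (by norm_num)
  refine ⟨Ce, max (max Y₀ 100) (max Y₁ Y₂), ?_⟩
  intro Y P A w hY hCe hPe hA hw hcard
  have hY0 : Y₀ ≤ Y := (le_max_left _ _).trans ((le_max_left _ _).trans hY)
  have hY100 : 100 ≤ Y := (le_max_right _ _).trans ((le_max_left _ _).trans hY)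
  have hYa : Y₁ ≤ Y := (le_max_left _ _).trans ((le_max_right _ _).trans hY)
  have hYb : Y₂ ≤ Y := (le_max_right _ _).trans ((le_max_right _ _).trans hY)
  have e1' := hY₁ Y hYa
  have e2' := hY₂ Y hYb
  have hYp : 0 < Y := by linarith
  have hY1 : 1 ≤ Y := by linarith
  have hP : 0 < P := lt_of_lt_of_le (by positivity) hCe
  obtain ⟨h₀, hh₀⟩ : ∃ h₀ : ℝ, h₀ = Real.exp (-Y) / Y ^ B := ⟨_, rfl⟩
  obtain ⟨δ, hδ⟩ : ∃ δ : ℝ, δ = 1 / Y ^ (B + 1) := ⟨_, rfl⟩
  have hh₀p : 0 < h₀ := by rw [hh₀]; positivity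
  have hδp : 0 < δ := by rw [hδ]; positivity
  have hYB1 : 1 ≤ Y ^ B := one_le_pow₀ hY1
  have hδs : δ ≤ 1 / 100 := by
    rw [hδ, pow_succ]
    apply one_div_le_one_div_of_le (by norm_num)
    nlinarith only [hYB1, hY100]
  obtain ⟨K, hK⟩ : ∃ K : ℕ, K = ⌈Y ^ (B + 3)⌉₊ := ⟨_, rfl⟩
  have hK1 : Y ^ (B + 3) ≤ K := by rw [hK]; exact Nat.le_ceil _
  have hK2 : (K : ℝ) ≤ Y ^ (B + 3) + 1 := by rw [hK]; exact (Nat.ceil_lt_add_one (by positivity)).le
  obtain ⟨hh, hhd⟩ : ∃ hh : ℕ → ℝ, ∀ i, hh i = h₀ * (1 + δ) ^ i := ⟨_, fun _ => rfl⟩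
  have hKbig : 1 / 4 < hh K := by
    rw [hhd]
    have h1 := net_pow δ hδp.le (by linarith) K
    have h2 : Y ^ 2 ≤ K * δ := by
      rw [hδ, mul_one_div, le_div_iff₀ (by positivity), ← pow_add]
      rw [show 2 + (B + 1) = B + 3 by ring]; exact hK1
    have h3' : Y + 1 / 2 * Y ≤ Y ^ 2 / 2 := by nlinarith only [hY100]
    have h3 : Real.exp (Y + 1 / 2 * Y) ≤ Real.exp (K * δ / 2) := Real.exp_le_exp.2 (by linarith)
    have h4 : h₀ * Real.exp (Y + 1 / 2 * Y) = Real.exp (1 / 2 * Y) / Y ^ B := by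
      rw [hh₀, Real.exp_add, Real.exp_neg]; field_simp
    have h5 : 1 ≤ Real.exp (1 / 2 * Y) / Y ^ B := by rw [le_div_iff₀ (by positivity)]; linarith
    calc (1 : ℝ) / 4 < 1 := by norm_num
      _ ≤ h₀ * Real.exp (Y + 1 / 2 * Y) := by rw [h4]; exact h5
      _ ≤ h₀ * (1 + δ) ^ K := mul_le_mul_of_nonneg_left (h3.trans h1) hh₀p.le
  obtain ⟨M, hM⟩ : ∃ M : ℕ, M = ⌈Real.exp Y⌉₊ := ⟨_, rfl⟩
  have hM1 : Real.exp Y ≤ M := by rw [hM]; exact Nat.le_ceil _
  have hM0 : 1 ≤ M := by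
    have : (1 : ℝ) ≤ M := (Real.one_le_exp hYp.le).trans hM1
    exact_mod_cast this
  obtain ⟨E, hE⟩ : ∃ E : ℕ → Set ℝ, ∀ i, E i = {u : ℝ | A.card * hh i / Y ^ (2 * B + 4) ≤ |GP A w Y (hh i) u - GM A w Y M (hh i) u|} :=
    ⟨_, fun _ => rfl⟩
  refine ⟨⋃ i ∈ (range (K + 1)).filter (fun i => hh i ≤ 1 / 2), E i, ?_, ?_⟩
  · refine (measure_biUnion_finset_le _ _).trans ?_
    have h1 : ∀ i ∈ (range (K + 1)).filter (fun i => hh i ≤ 1 / 2), volume (E i) ≤ ENNReal.ofReal (1 / Y ^ (2 * B + 4)) := by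
      intro i hi
      rw [mem_filter] at hi
      rw [hE]
      apply hc Y P (hh i) M A w hY0 hCe hPe (fun a ha => ⟨(hA a ha).1, (hA a ha).2.2⟩)
        (fun a ha => by rw [abs_of_nonneg (by linarith [(hw a ha).1])]; exact (hw a ha).2)
        ((div_le_div_of_nonneg_left hP.le (by positivity) (pow_le_pow_right₀ hY1 (by omega))).trans hcard) hM0
      · have h2 : h₀ ≤ hh i := by
          rw [hhd]; exact le_mul_of_one_le_right hh₀p.le (one_le_pow₀ (by linarith))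
        refine le_trans ?_ h2
        rw [hh₀]
        exact div_le_div_of_nonneg_left (Real.exp_pos _).le (by positivity) (pow_le_pow_right₀ hY1 (by omega))
      · linarith [hi.2]
    refine (sum_le_sum h1).trans ?_
    rw [sum_const, nsmul_eq_mul, ← ENNReal.ofReal_natCast, ← ENNReal.ofReal_mul (Nat.cast_nonneg _)]
    apply ENNReal.ofReal_le_ofReal
    have h2 : ((((range (K + 1)).filter (fun i => hh i ≤ 1 / 2)).card : ℕ) : ℝ) ≤ K + 1 := by
      have := card_filter_le (range (K + 1)) (fun i => hh i ≤ 1 / 2)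
      rw [card_range] at this
      exact_mod_cast this
    have h3 : (K : ℝ) + 1 ≤ Y ^ (B + 4) := by
      have h4 : Y ^ (B + 4) = Y * Y ^ (B + 3) := by ring
      have h5 : 1 ≤ Y ^ (B + 3) := one_le_pow₀ hY1
      nlinarith only [h4, h5, hK2, hY100]
    calc ((((range (K + 1)).filter (fun i => hh i ≤ 1 / 2)).card : ℕ) : ℝ) * (1 / Y ^ (2 * B + 4)) ≤ Y ^ (B + 4) * (1 / Y ^ (2 * B + 4)) :=
          mul_le_mul_of_nonneg_right (h2.trans h3) (by positivity)
      _ = 1 / Y ^ B := by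
          rw [show 2 * B + 4 = B + (B + 4) by ring, pow_add Y B (B + 4)]; field_simp
  · intro u hu hur h hh1 hh2
    obtain ⟨W, hW⟩ : ∃ W : ℝ, W = ∑ a ∈ A, w a := ⟨_, rfl⟩
    have hWA : (A.card : ℝ) ≤ 2 * W := by
      have : ∑ a ∈ A, (1 / 2 : ℝ) ≤ W := by rw [hW]; exact sum_le_sum (fun a ha => (hw a ha).1)
      rw [sum_const, nsmul_eq_mul] at this
      linarith
    have hAp : (0 : ℝ) < A.card := lt_of_lt_of_le (by positivity) hcard
    have hWp : 0 < W := by linarith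
    have hw0 : ∀ a ∈ A, 0 ≤ w a := fun a ha => by linarith [(hw a ha).1]
    rw [← hW]
    rw [abs_le] at hur
    have hlog2 : Real.log 2 < 0.6931471808 := Real.log_two_lt_d9
    have hloga : ∀ a ∈ A, Real.log P - 7 / 10 ≤ Real.log a ∧ Real.log a ≤ Real.log P := by
      intro a ha
      obtain ⟨_, h1, h2⟩ := hA a ha
      have h3 : Real.log (P / 2) ≤ Real.log a := Real.log_le_log (by positivity) h1.le
      rw [Real.log_div hP.ne' (by norm_num)] at h3
      refine ⟨by linarith, Real.log_le_log (by linarith) h2⟩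
    -- the net points
    have hnet : ∀ i, i ≤ K → hh i ≤ 1 / 2 → |GQ A w (hh i) u - W * hh i| ≤ 3 / Y ^ (2 * B + 4) * (W * hh i) := by
      intro i hiK hi2
      have hip : h₀ ≤ hh i := by
        rw [hhd]; exact le_mul_of_one_le_right hh₀p.le (one_le_pow₀ (by linarith))
      have hi0 : 0 < hh i := by linarith
      have hui : u ∉ E i := by
        intro hui
        apply hu
        rw [Set.mem_iUnion₂]
        exact ⟨i, by rw [mem_filter, mem_range]; exact ⟨by omega, hi2⟩, hui⟩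
      rw [hE, Set.mem_ofPred_eq, not_le] at hui
      have hcond : ∀ a ∈ A, -2 ≤ u + Real.log a - Y ∧ u + Real.log a + hh i - Y ≤ 2 := by
        intro a ha
        obtain ⟨h1, h2⟩ := hloga a ha
        constructor <;> linarith [hur.1, hur.2]
      rw [GP_GQ A w Y (hh i) u hi0.le hcond] at hui
      have h5 := GM_ev A w Y (hh i) u (Real.exp (2 * Y - 2)) M hi0.le hw0 hM0 hcond
        (by
          have := Real.add_one_le_exp (2 * Y - 2)
          linarith)
        (by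
          intro a ha
          obtain ⟨h1, h2⟩ := hloga a ha
          calc Real.exp (2 * Y - 2) ≤ Real.exp (u + Real.log a + Y) := Real.exp_le_exp.2 (by linarith [hur.1])
            _ = Real.exp (u + Real.log a) * Real.exp Y := by rw [Real.exp_add]
            _ ≤ Real.exp (u + Real.log a) * M := mul_le_mul_of_nonneg_left hM1 (Real.exp_pos _).le)
      rw [← hW] at h5
      have h6 : W * (2 / Real.exp (2 * Y - 2)) ≤ 1 / Y ^ (2 * B + 4) * (W * hh i) := by
        have h7 : 2 / Real.exp (2 * Y - 2) ≤ 1 / Y ^ (2 * B + 4) * h₀ := by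
          rw [hh₀, div_le_iff₀ (Real.exp_pos _)]
          have h8 : 1 / Y ^ (2 * B + 4) * (Real.exp (-Y) / Y ^ B) * Real.exp (2 * Y - 2) = Real.exp (Y - 2) / Y ^ (3 * B + 4) := by
            rw [show 3 * B + 4 = (2 * B + 4) + B by ring, pow_add Y (2 * B + 4) B, show Y - 2 = -Y + (2 * Y - 2) by ring, Real.exp_add]
            field_simp
          rw [h8, le_div_iff₀ (by positivity)]
          have h9 : Real.exp 2 ≤ 8 := by
            have := Real.exp_one_lt_d9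
            have h10 : Real.exp 2 = Real.exp 1 * Real.exp 1 := by rw [← Real.exp_add]; norm_num
            rw [h10]; nlinarith only [this, Real.exp_pos 1]
          have h11 : Real.exp (Y - 2) * Real.exp 2 = Real.exp (1 * Y) := by rw [← Real.exp_add]; congr 1; ring
          have h12 : 0 < Real.exp (Y - 2) := Real.exp_pos _
          have h13 : Real.exp (Y - 2) * Real.exp 2 ≤ Real.exp (Y - 2) * 8 := mul_le_mul_of_nonneg_left h9 h12.le
          linarith
        calc W * (2 / Real.exp (2 * Y - 2)) ≤ W * (1 / Y ^ (2 * B + 4) * h₀) := mul_le_mul_of_nonneg_left h7 hWp.le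
          _ ≤ W * (1 / Y ^ (2 * B + 4) * hh i) := by gcongr
          _ = _ := by ring
      have h13 : A.card * hh i / Y ^ (2 * B + 4) ≤ 2 / Y ^ (2 * B + 4) * (W * hh i) := by
        rw [div_mul_eq_mul_div]
        apply div_le_div_of_nonneg_right _ (by positivity)
        have h14 := mul_le_mul_of_nonneg_right hWA hi0.le
        linarith
      calc |GQ A w (hh i) u - W * hh i| ≤ |GQ A w (hh i) u - GM A w Y M (hh i) u| + |GM A w Y M (hh i) u - W * hh i| := by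
            have : GQ A w (hh i) u - W * hh i = (GQ A w (hh i) u - GM A w Y M (hh i) u) + (GM A w Y M (hh i) u - W * hh i) := by ring
            rw [this]; exact abs_add_le _ _
        _ ≤ 2 / Y ^ (2 * B + 4) * (W * hh i) + 1 / Y ^ (2 * B + 4) * (W * hh i) := by linarith
        _ = _ := by ring
    -- the position of h
    have hex : ∃ j, h < hh j := ⟨K, by linarith⟩
    classical
    obtain ⟨j, hj1, hj2⟩ : ∃ j, h < hh j ∧ ∀ i < j, ¬ h < hh i := ⟨Nat.find hex, Nat.find_spec hex, fun i hi => Nat.find_min hex hi⟩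
    have hj0 : j ≠ 0 := by
      rintro rfl
      rw [hhd, pow_zero, mul_one, hh₀] at hj1
      linarith
    obtain ⟨i, rfl⟩ := Nat.exists_eq_succ_of_ne_zero hj0
    have hjK : i + 1 ≤ K := by
      by_contra hcon
      exact hj2 K (by omega) (by linarith)
    have hi1 : hh i ≤ h := not_lt.1 (hj2 i (by omega))
    have hi2 : hh (i + 1) = (1 + δ) * hh i := by rw [hhd, hhd, pow_succ]; ring
    have hi0 : 0 < hh i := by rw [hhd]; positivity
    have hnp : 0 < h := by linarith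
    have hup : hh (i + 1) ≤ (1 + δ) * h := by rw [hi2]; gcongr
    have hn1 := hnet i (by omega) (by linarith)
    have hn2 := hnet (i + 1) hjK (hup.trans (net_half δ h hδp hδs hnp hh2))
    have hm1 := GQ_mono A w u hw0 hi1
    have hm2 := GQ_mono A w u hw0 hj1.le
    have hfin := net_pars B Y δ hY100 hδ
    rw [show (∑ a ∈ A, w a) = W from hW.symm] at *
    have := net_alg W h (hh i) (hh (i + 1)) δ (3 / Y ^ (2 * B + 4)) (1 / Y ^ B) _ _ _ hWp hi0 hi1 hj1 hi2 hδp hδs (by positivity) hfin.2 hfin.1 hn1 hn2 hm1 hm2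
    refine this.trans (le_of_eq ?_)
    ring

end Pool.Agent.H15.QP
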