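import Pool.Agent.H15.QP.T1
import Pool.Graph.R_seed8.Y957.VK.Fin1
import Pool.Graph.R_seed8.Y751.VK.Lam

/-! Sums of `Λ(k) k^{-1+iτ}` over short ranges. -/

set_option autoImplicit false

namespace Pool.Agent.H15.QP
open Finset
open Pool.Agent.H376R2.MR (er kern_er_norm kern_er_add kern_er_cont phase_sum phas_integral_er)
open Pool.Agent.H376R2.MR renaming w → tw
open Pool.Agent.Y851.HZ
open ArithmeticFunction (vonMangoldt moebius)

lemma lam_tw (A K : ℕ) : ∃ C : ℝ, 0 < C ∧ ∀ (N : ℕ) (τ : ℝ), 2 ≤ N → |τ| ≤ (N : ℝ) ^ A →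
    ‖∑ n ∈ Icc 1 N, ((vonMangoldt n : ℂ) - 1) * er τ (Real.log n)‖ ≤ C * N / (Real.log N) ^ K := by
  obtain ⟨C, hC⟩ := Pool.Agent.Y751.VK.lam Pool.Agent.Y957.VK.inv_all A K
  refine ⟨max C 1, lt_max_of_lt_right one_pos, fun N τ hN hτ => ?_⟩
  have h := hC N (-τ) hN (by rwa [abs_neg])
  have hN1 : (1 : ℝ) ≤ N := by exact_mod_cast (by omega : 1 ≤ N)
  have e : ∑ n ∈ Icc 1 N, ((vonMangoldt n : ℂ) - 1) * er τ (Real.log n) =
      ∑ n ∈ Icc 1 N, ((vonMangoldt n : ℂ) - 1) * (n : ℂ) ^ (-(((-τ : ℝ)) : ℂ) * Complex.I) := by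
    apply sum_congr rfl
    intro n hn
    rw [mem_Icc] at hn
    congr 1
    have hn0 : (n : ℂ) ≠ 0 := by
      have : n ≠ 0 := by omega
      exact_mod_cast this
    rw [Complex.cpow_def_of_ne_zero hn0]
    unfold Pool.Agent.H376R2.MR.er
    congr 1
    rw [← Complex.natCast_log]
    push_cast
    ring
  rw [e]
  refine h.trans ?_
  apply div_le_div_of_nonneg_right _ (pow_nonneg (Real.log_nonneg hN1) _)
  apply mul_le_mul_of_nonneg_right (le_max_left _ _) (Nat.cast_nonneg _)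

lemma log_pow_le (K : ℕ) (η : ℝ) (hη : 0 < η) : ∃ C : ℝ, 0 < C ∧ ∀ x : ℝ, 1 ≤ x → Real.log x ^ K * x ^ (-η) ≤ C := by
  refine ⟨((K + 1) / η) ^ K, by positivity, fun x hx => ?_⟩
  have hx0 : 0 < x := by linarith
  have h1 : Real.log x ≤ x ^ (η / (K + 1)) / (η / (K + 1)) := Real.log_le_rpow_div hx0.le (by positivity)
  have h2 : Real.log x ^ K ≤ (x ^ (η / (K + 1)) / (η / (K + 1))) ^ K := pow_le_pow_left₀ (Real.log_nonneg hx) h1 K
  have h3 : (x ^ (η / (K + 1)) / (η / (K + 1))) ^ K = ((K + 1) / η) ^ K * x ^ (η / (K + 1) * K) := by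
    rw [Real.rpow_mul hx0.le, Real.rpow_natCast, div_pow, div_eq_mul_inv, mul_comm, ← inv_pow, inv_div]
  have h4 : x ^ (η / (K + 1) * K) ≤ x ^ η := by
    apply Real.rpow_le_rpow_of_exponent_le hx
    have : η / (K + 1) * K = η * (K / (K + 1)) := by ring
    rw [this]
    have h5 : (K : ℝ) / (K + 1) ≤ 1 := by
      rw [div_le_one (by positivity)]
      linarith
    nlinarith
  rw [h3] at h2
  calc Real.log x ^ K * x ^ (-η) ≤ (((K + 1) / η) ^ K * x ^ η) * x ^ (-η) := by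
        gcongr
        exact h2.trans (by gcongr)
    _ = ((K + 1) / η) ^ K := by
        rw [mul_assoc, ← Real.rpow_add hx0, add_neg_cancel, Real.rpow_zero, mul_one]

/-- **Cells** -/
theorem cell_bd (A K : ℕ) : ∃ C : ℝ, 0 < C ∧ ∀ (a b : ℕ) (τ : ℝ), 2 ≤ a → a ≤ b → b ≤ 3 * a → τ ≠ 0 → |τ| ≤ (a : ℝ) ^ A →
    ‖∑ k ∈ Ioc a b, (vonMangoldt k : ℂ) * e1 τ k‖ ≤ C / (Real.log a) ^ K + 2 / |τ| := by
  obtain ⟨C₁, hC₁, h1⟩ := lam_tw A K
  obtain ⟨η, C₂, hη, hη1, hC₂, h2⟩ := phase_sum A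
  obtain ⟨C₃, hC₃, h3⟩ := log_pow_le K η hη
  refine ⟨6 * C₁ + C₂ * C₃, by positivity, fun a b τ ha hab hb hτ0 hτ => ?_⟩
  have ha0 : (0 : ℝ) < a := by exact_mod_cast (by omega : 0 < a)
  have ha1 : (1 : ℝ) < a := by exact_mod_cast (by omega : 1 < a)
  have hla : 0 < Real.log a := Real.log_pos ha1
  have hab' : (a : ℝ) ≤ b := by exact_mod_cast hab
  have hb3 : (b : ℝ) ≤ 3 * a := by exact_mod_cast hb
  have hI : Ioc a b = Ico (a + 1) (b + 1) := by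
    ext k; rw [mem_Ioc, mem_Ico]; omega
  -- the first part
  have p1 : ‖∑ k ∈ Ioc a b, ((vonMangoldt k : ℂ) - 1) * e1 τ k‖ ≤ 6 * C₁ / (Real.log a) ^ K := by
    obtain ⟨e, he⟩ : ∃ e : ℕ → ℂ, ∀ k, e k = ((vonMangoldt k : ℂ) - 1) * er τ (Real.log k) := ⟨_, fun _ => rfl⟩
    obtain ⟨G, hG⟩ : ∃ G : ℕ → ℂ, ∀ k, G k = ((1 / (k : ℝ) : ℝ) : ℂ) := ⟨_, fun _ => rfl⟩
    have e0 : ∑ k ∈ Ioc a b, ((vonMangoldt k : ℂ) - 1) * e1 τ k = ∑ k ∈ Ico (a + 1) (b + 1), G k * e k := by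
      rw [hI]
      apply sum_congr rfl
      intro k _
      rw [hG, he]
      unfold e1
      ring
    obtain ⟨B, hB⟩ : ∃ B : ℝ, B = 2 * (C₁ * b / (Real.log a) ^ K) := ⟨_, rfl⟩
    have hB0 : 0 ≤ B := by rw [hB]; positivity
    have hE : ∀ n : ℕ, a ≤ n → n ≤ b → ‖∑ k ∈ Icc 1 n, e k‖ ≤ C₁ * b / (Real.log a) ^ K := by
      intro n hn1 hn2
      have hn1' : (a : ℝ) ≤ n := by exact_mod_cast hn1
      have hn2' : (n : ℝ) ≤ b := by exact_mod_cast hn2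
      have := h1 n τ (by omega) (hτ.trans (by gcongr))
      simp_rw [he]
      refine this.trans ?_
      gcongr
    have hS : ∀ k, a + 1 ≤ k → k ≤ b + 1 → ‖∑ j ∈ Ico (a + 1) k, e j‖ ≤ B := by
      intro k hk1 hk2
      have e2 : ∑ j ∈ Ico (a + 1) k, e j = ∑ j ∈ Icc 1 (k - 1), e j - ∑ j ∈ Icc 1 a, e j := by
        have h5 : Icc 1 (k - 1) = Ico 1 k := by ext j; rw [mem_Icc, mem_Ico]; omega
        have h6 : Icc 1 a = Ico 1 (a + 1) := by ext j; rw [mem_Icc, mem_Ico]; omega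
        rw [h5, h6, ← sum_Ico_consecutive e (show 1 ≤ a + 1 by omega) hk1]
        ring
      rw [e2, hB]
      refine (norm_sub_le _ _).trans ?_
      have h5 := hE (k - 1) (by omega) (by omega)
      have h6 := hE a le_rfl hab
      linarith
    rw [e0, by_parts G e (a + 1) (b + 1) (by omega)]
    have hGn : ∀ i ∈ Ico (a + 1) (b + 1), ‖(G (i + 1) - G i) * ∑ j ∈ Ico (a + 1) (i + 1), e j‖ ≤ (1 / (i : ℝ) - 1 / ((i + 1 : ℕ) : ℝ)) * B := by
      intro i hi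
      rw [mem_Ico] at hi
      have hi0 : (0 : ℝ) < i := by exact_mod_cast (by omega : 0 < i)
      rw [norm_mul]
      apply mul_le_mul _ (hS (i + 1) (by omega) (by omega)) (norm_nonneg _)
      · rw [sub_nonneg]
        apply one_div_le_one_div_of_le hi0
        push_cast; linarith
      · rw [hG, hG, ← Complex.ofReal_sub, Complex.norm_real, Real.norm_eq_abs, abs_sub_comm, abs_of_nonneg]
        rw [sub_nonneg]
        apply one_div_le_one_div_of_le hi0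
        push_cast; linarith
    have hGn2 : ‖∑ i ∈ Ico (a + 1) (b + 1), (G (i + 1) - G i) * ∑ j ∈ Ico (a + 1) (i + 1), e j‖ ≤ (1 / ((a + 1 : ℕ) : ℝ) - 1 / ((b + 1 : ℕ) : ℝ)) * B := by
      refine (norm_sum_le _ _).trans ((sum_le_sum hGn).trans ?_)
      rw [← sum_mul]
      apply mul_le_mul_of_nonneg_right _ hB0
      have h5 := Finset.sum_Ico_sub (fun i : ℕ => -(1 / (i : ℝ))) (show a + 1 ≤ b + 1 by omega)
      apply le_of_eq
      have h6 : ∑ i ∈ Ico (a + 1) (b + 1), (1 / (i : ℝ) - 1 / ((i + 1 : ℕ) : ℝ)) =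
          ∑ i ∈ Ico (a + 1) (b + 1), (-(1 / ((i + 1 : ℕ) : ℝ)) - -(1 / (i : ℝ))) := by
        apply sum_congr rfl
        intro i _
        ring
      rw [h6, h5]
      ring
    have hGb : ‖G (b + 1) * ∑ i ∈ Ico (a + 1) (b + 1), e i‖ ≤ 1 / ((b + 1 : ℕ) : ℝ) * B := by
      rw [norm_mul]
      apply mul_le_mul _ (hS (b + 1) (by omega) le_rfl) (norm_nonneg _) (by positivity)
      rw [hG, Complex.norm_real, Real.norm_eq_abs, abs_of_nonneg (by positivity)]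
    refine (norm_sub_le _ _).trans ?_
    calc _ ≤ 1 / ((b + 1 : ℕ) : ℝ) * B + (1 / ((a + 1 : ℕ) : ℝ) - 1 / ((b + 1 : ℕ) : ℝ)) * B := add_le_add hGb hGn2
      _ = 1 / ((a + 1 : ℕ) : ℝ) * B := by ring
      _ ≤ 1 / a * B := by
          gcongr
          linarith
      _ = 2 * C₁ / (Real.log a) ^ K * (b / a) := by rw [hB]; ring
      _ ≤ 2 * C₁ / (Real.log a) ^ K * 3 := by
          gcongr
          rw [div_le_iff₀ ha0]; exact hb3
      _ = _ := by ring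
  -- the second part
  have p2 : ‖∑ k ∈ Ioc a b, e1 τ k‖ ≤ C₂ * C₃ / (Real.log a) ^ K + 2 / |τ| := by
    have e0 : ∑ k ∈ Ioc a b, e1 τ k = ∑ m ∈ Ico (a + 1) (b + 1), er τ (Real.log m) / (m : ℂ) := by
      rw [hI]
      apply sum_congr rfl
      intro k _
      unfold e1
      push_cast
      ring
    have h4 := h2 (a + 1) (b + 1) τ (by omega) (by omega) (by omega) (hτ.trans (by push_cast; gcongr; linarith))
    have h5 := phas_integral_er τ (Real.log ((a + 1 : ℕ) : ℝ)) (Real.log ((b + 1 : ℕ) : ℝ)) hτ0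
    have h6 : ((a + 1 : ℕ) : ℝ) ^ (-η) ≤ (a : ℝ) ^ (-η) := by
      apply Real.rpow_le_rpow_of_nonpos ha0 (by push_cast; linarith) (by linarith)
    have h7 : (a : ℝ) ^ (-η) ≤ C₃ / (Real.log a) ^ K := by
      rw [le_div_iff₀ (by positivity), mul_comm]
      exact h3 a ha1.le
    rw [e0]
    have h8 := norm_add_le ((∑ m ∈ Ico (a + 1) (b + 1), er τ (Real.log m) / (m : ℂ)) - ∫ s in (Real.log ((a + 1 : ℕ) : ℝ))..(Real.log ((b + 1 : ℕ) : ℝ)), er τ s)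
      (∫ s in (Real.log ((a + 1 : ℕ) : ℝ))..(Real.log ((b + 1 : ℕ) : ℝ)), er τ s)
    rw [sub_add_cancel] at h8
    have h9 : C₂ * ((a + 1 : ℕ) : ℝ) ^ (-η) ≤ C₂ * C₃ / (Real.log a) ^ K := by
      rw [mul_div_assoc]
      exact mul_le_mul_of_nonneg_left (h6.trans h7) hC₂.le
    linarith
  have e3 : ∑ k ∈ Ioc a b, (vonMangoldt k : ℂ) * e1 τ k = ∑ k ∈ Ioc a b, ((vonMangoldt k : ℂ) - 1) * e1 τ k + ∑ k ∈ Ioc a b, e1 τ k := by
    rw [← sum_add_distrib]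
    apply sum_congr rfl
    intro k _
    ring
  rw [e3]
  refine (norm_add_le _ _).trans ?_
  have e4 : (6 * C₁ + C₂ * C₃) / (Real.log a) ^ K + 2 / |τ| = 6 * C₁ / (Real.log a) ^ K + (C₂ * C₃ / (Real.log a) ^ K + 2 / |τ|) := by ring
  rw [e4]
  exact add_le_add p1 p2

end Pool.Agent.H15.QP
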