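import Pool.Agent.H15.QP.Cell

/-! Windows: `Λ` against one. -/

set_option autoImplicit false

namespace Pool.Agent.H15.QP
open Finset
open Pool.Agent.H376R2.MR (er kern_er_norm kern_er_add kern_er_cont)
open Pool.Agent.H376R2.MR renaming w → tw
open Pool.Agent.Y851.HZ
open ArithmeticFunction (vonMangoldt moebius)

/-- summation by parts in a window -/
theorem win_parts {g : ℝ → ℝ} (hg : Wd g) (v : ℝ) (hv : 8 ≤ v) (e : ℕ → ℂ) (B : ℝ) (hB0 : 0 ≤ B)
    (hbl : ∀ k : ℕ, ⌊Real.exp (v - 1)⌋₊ ≤ k → (k : ℝ) ≤ 27 * ⌊Real.exp (v - 1)⌋₊ → ‖∑ j ∈ Ico ⌊Real.exp (v - 1)⌋₊ k, e j‖ ≤ B) :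
    ‖∑ m ∈ Icc 1 ⌊Real.exp (v + 1)⌋₊, ((g (Real.log m - v) / m : ℝ) : ℂ) * e m‖ ≤ B * (5 / ⌊Real.exp (v - 1)⌋₊) := by
  obtain ⟨a, ha⟩ : ∃ a : ℕ, a = ⌊Real.exp (v - 1)⌋₊ := ⟨_, rfl⟩
  rw [← ha] at hbl ⊢
  obtain ⟨b, hb⟩ : ∃ b : ℕ, b = ⌊Real.exp (v + 1)⌋₊ + 1 := ⟨_, rfl⟩
  have he1 := Real.exp_one_gt_d9
  have hev7 : (100 : ℝ) ≤ Real.exp (v - 1) := by
    have h1 : Real.exp 7 ≤ Real.exp (v - 1) := Real.exp_le_exp.2 (by linarith)
    have h2 : Real.exp 7 = Real.exp 1 ^ 7 := by rw [← Real.exp_nat_mul]; norm_num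
    have h3 : (2 : ℝ) ^ 7 ≤ Real.exp 1 ^ 7 := by gcongr; linarith
    rw [h2] at h1
    norm_num at h3
    linarith
  have ha1 : (a : ℝ) ≤ Real.exp (v - 1) := by rw [ha]; exact Nat.floor_le (Real.exp_pos _).le
  have ha2 : Real.exp (v - 1) < a + 1 := by rw [ha]; exact Nat.lt_floor_add_one _
  have ha4 : 99 ≤ a := by
    have : (99 : ℝ) ≤ a := by linarith
    exact_mod_cast this
  have ha4r : (99 : ℝ) ≤ a := by exact_mod_cast ha4
  have ha0 : (0 : ℝ) < a := by linarith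
  have hb1 : Real.exp (v + 1) < b := by rw [hb]; push_cast; exact Nat.lt_floor_add_one _
  have hb2 : (b : ℝ) ≤ Real.exp (v + 1) + 1 := by
    rw [hb]; push_cast
    linarith [Nat.floor_le (Real.exp_pos (v + 1)).le]
  have hev2 : Real.exp (v + 1) = Real.exp 2 * Real.exp (v - 1) := by rw [← Real.exp_add]; congr 1; ring
  have hb3 : (b : ℝ) ≤ 27 * a := by
    have := exp_two_lt
    have h5 : Real.exp 2 * Real.exp (v - 1) ≤ 7.4 * Real.exp (v - 1) := by gcongr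
    rw [hev2] at hb2
    linarith
  have hab : a ≤ b := by
    have : (a : ℝ) ≤ b := by
      have := Real.exp_le_exp.2 (show v - 1 ≤ v + 1 by linarith)
      linarith
    exact_mod_cast this
  have hbl' : ∀ k, a ≤ k → k ≤ b → ‖∑ j ∈ Ico a k, e j‖ ≤ B := by
    intro k hak hkb
    apply hbl k hak
    have : (k : ℝ) ≤ b := by exact_mod_cast hkb
    linarith
  have hgb : g (Real.log b - v) = 0 := by
    apply hg.supp
    have : v + 1 ≤ Real.log b := by
      rw [Real.le_log_iff_exp_le (by linarith [Real.exp_pos (v + 1)])]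
      exact hb1.le
    rw [abs_of_nonneg (by linarith)]
    linarith
  have key := by_parts_bd (fun m => ((g (Real.log m - v) / m : ℝ) : ℂ)) e a b hab B hB0
    (by simp [hgb]) hbl'
  have hvar : ∑ i ∈ Ico a b, ‖((g (Real.log ((i + 1 : ℕ) : ℝ) - v) / ((i + 1 : ℕ) : ℝ) : ℝ) : ℂ) - ((g (Real.log i - v) / (i : ℝ) : ℝ) : ℂ)‖ ≤
      5 / a := by
    have h1 : ∀ i ∈ Ico a b, ‖((g (Real.log ((i + 1 : ℕ) : ℝ) - v) / ((i + 1 : ℕ) : ℝ) : ℝ) : ℂ) - ((g (Real.log i - v) / (i : ℝ) : ℝ) : ℂ)‖ ≤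
        1 / a * (Real.log ((i + 1 : ℕ) : ℝ) - Real.log (i : ℝ)) + (-(1 / ((i + 1 : ℕ) : ℝ)) - -(1 / (i : ℝ))) := by
      intro i hi
      rw [mem_Ico] at hi
      have hia : (a : ℝ) ≤ i := by exact_mod_cast hi.1
      have hi0 : (0 : ℝ) < i := by linarith
      obtain ⟨d0, _⟩ := log_diff (show 1 ≤ i by omega)
      rw [← Complex.ofReal_sub, Complex.norm_real, Real.norm_eq_abs]
      have e : g (Real.log ((i + 1 : ℕ) : ℝ) - v) / ((i + 1 : ℕ) : ℝ) - g (Real.log i - v) / (i : ℝ) =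
          (g (Real.log ((i + 1 : ℕ) : ℝ) - v) - g (Real.log i - v)) / ((i + 1 : ℕ) : ℝ) -
            g (Real.log i - v) * (1 / (i : ℝ) - 1 / ((i + 1 : ℕ) : ℝ)) := by
        push_cast
        field_simp
        ring
      rw [e]
      refine (abs_sub _ _).trans ?_
      have h2 : |(g (Real.log ((i + 1 : ℕ) : ℝ) - v) - g (Real.log i - v)) / ((i + 1 : ℕ) : ℝ)| ≤
          1 / a * (Real.log ((i + 1 : ℕ) : ℝ) - Real.log (i : ℝ)) := by
        rw [abs_div, abs_of_pos (show (0 : ℝ) < ((i + 1 : ℕ) : ℝ) by positivity), div_le_iff₀ (by positivity)]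
        have h3 := hg.lip (Real.log ((i + 1 : ℕ) : ℝ) - v) (Real.log i - v)
        rw [show Real.log ((i + 1 : ℕ) : ℝ) - v - (Real.log i - v) =
          Real.log ((i + 1 : ℕ) : ℝ) - Real.log i by ring, abs_of_nonneg d0] at h3
        refine h3.trans ?_
        have h4 : (1 : ℝ) ≤ 1 / a * ((i + 1 : ℕ) : ℝ) := by
          rw [one_div, inv_mul_eq_div, le_div_iff₀ ha0]
          push_cast; linarith
        calc Real.log ((i + 1 : ℕ) : ℝ) - Real.log (i : ℝ) = 1 * (Real.log ((i + 1 : ℕ) : ℝ) - Real.log (i : ℝ)) := by ring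
          _ ≤ (1 / a * ((i + 1 : ℕ) : ℝ)) * (Real.log ((i + 1 : ℕ) : ℝ) - Real.log (i : ℝ)) := by gcongr
          _ = _ := by ring
      have h3 : 0 ≤ 1 / (i : ℝ) - 1 / ((i + 1 : ℕ) : ℝ) := by
        rw [sub_nonneg]
        apply one_div_le_one_div_of_le hi0
        push_cast; linarith
      have h4 : |g (Real.log i - v) * (1 / (i : ℝ) - 1 / ((i + 1 : ℕ) : ℝ))| ≤ -(1 / ((i + 1 : ℕ) : ℝ)) - -(1 / (i : ℝ)) := by
        rw [abs_mul, abs_of_nonneg h3, abs_of_nonneg (hg.nonneg _)]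
        have := hg.le_one (Real.log i - v)
        nlinarith
      linarith
    refine (sum_le_sum h1).trans ?_
    rw [sum_add_distrib, ← mul_sum, Finset.sum_Ico_sub (fun i : ℕ => Real.log (i : ℝ)) hab,
      Finset.sum_Ico_sub (fun i : ℕ => -(1 / (i : ℝ))) hab]
    have hb0 : (0 : ℝ) < b := by linarith [Real.exp_pos (v + 1)]
    have h2 : Real.log b - Real.log a ≤ 4 := by
      rw [← Real.log_div hb0.ne' ha0.ne', Real.log_le_iff_le_exp (by positivity), div_le_iff₀ ha0]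
      have h3 : (27 : ℝ) ≤ Real.exp 4 := by
        have h4 : Real.exp 4 = Real.exp 1 ^ 4 := by rw [← Real.exp_nat_mul]; norm_num
        have h6 : (2.7 : ℝ) ^ 4 ≤ Real.exp 1 ^ 4 := by gcongr; linarith
        rw [h4]
        have h7 : (27 : ℝ) ≤ 2.7 ^ 4 := by norm_num
        linarith
      nlinarith
    have h3 : 0 < 1 / (b : ℝ) := by positivity
    have h4 : 1 / (a : ℝ) * (Real.log b - Real.log a) ≤ 1 / a * 4 := by gcongr
    have e5 : 5 / (a : ℝ) = 1 / a * 4 + 1 / a := by ring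
    rw [e5]
    linarith
  have hsum : ∑ m ∈ Icc 1 ⌊Real.exp (v + 1)⌋₊, ((g (Real.log m - v) / m : ℝ) : ℂ) * e m = ∑ m ∈ Ico a b, ((g (Real.log m - v) / m : ℝ) : ℂ) * e m := by
    symm
    apply sum_subset
    · intro m hm
      rw [mem_Ico] at hm
      rw [mem_Icc]
      omega
    · intro m hm hm2
      rw [mem_Icc] at hm
      rw [mem_Ico] at hm2
      have hma : m < a := by omega
      have : g (Real.log m - v) = 0 := by
        apply hg.supp
        have hm0 : (0 : ℝ) < m := by exact_mod_cast hm.1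
        have hlm : Real.log m ≤ v - 1 := by
          rw [Real.log_le_iff_le_exp hm0]
          have : (m : ℝ) ≤ a := by exact_mod_cast hma.le
          linarith
        rw [abs_of_nonpos (by linarith)]
        linarith
      simp [this]
  rw [hsum]
  exact key.trans (mul_le_mul_of_nonneg_left hvar hB0)

/-- `Λ - 1` in windows -/
theorem lam_win' (A K : ℕ) : ∃ C : ℝ, 0 < C ∧ ∀ g : ℝ → ℝ, Wd g → ∀ v τ : ℝ, 8 ≤ v → |τ| ≤ Real.exp (A * (v - 2)) →
    ‖∑ m ∈ Icc 1 ⌊Real.exp (v + 1)⌋₊, ((g (Real.log m - v) / m : ℝ) : ℂ) * (((vonMangoldt m : ℂ) - 1) * er τ (Real.log m))‖ ≤ C / v ^ K := by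
  obtain ⟨C₁, hC₁, h1⟩ := lam_tw A K
  refine ⟨270 * C₁ * 2 ^ K, by positivity, fun g hg v τ hv hτ => ?_⟩
  obtain ⟨a, ha⟩ : ∃ a : ℕ, a = ⌊Real.exp (v - 1)⌋₊ := ⟨_, rfl⟩
  have he1 := Real.exp_one_gt_d9
  have hv0 : 0 < v := by linarith
  have hev : 7 ≤ Real.exp (v - 2) := by
    have := Real.add_one_le_exp (v - 2)
    linarith
  have hea : Real.exp (v - 2) + 1 ≤ a := by
    have h2 : Real.exp (v - 1) < a + 1 := by rw [ha]; exact Nat.lt_floor_add_one _
    have h3 : Real.exp (v - 1) = Real.exp (v - 2) * Real.exp 1 := by rw [← Real.exp_add]; congr 1; ring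
    nlinarith
  have ha0 : (0 : ℝ) < a := by linarith
  have ha2 : 8 ≤ a := by
    have h5 : (8 : ℝ) ≤ a := by linarith
    exact_mod_cast h5
  have hE : ∀ n : ℕ, a - 1 ≤ n → (n : ℝ) ≤ 27 * a → ‖∑ j ∈ Icc 1 n, ((vonMangoldt j : ℂ) - 1) * er τ (Real.log j)‖ ≤ 27 * a * (C₁ / (v / 2) ^ K) := by
    intro n hn hn2
    have h2 : Real.exp (v - 2) ≤ n := by
      have h3 : ((a - 1 : ℕ) : ℝ) ≤ n := by exact_mod_cast hn
      rw [Nat.cast_sub (by omega)] at h3
      push_cast at h3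
      linarith
    have hn0 : (0 : ℝ) < n := by linarith
    have h3 := h1 n τ (by omega) (by
      refine hτ.trans ?_
      have h4 : Real.exp (A * (v - 2)) = Real.exp (v - 2) ^ A := by rw [← Real.exp_nat_mul]
      rw [h4]
      gcongr)
    refine h3.trans ?_
    have h5 : (v / 2) ^ K ≤ Real.log n ^ K := by
      apply pow_le_pow_left₀ (by positivity)
      have : v - 2 ≤ Real.log n := by rw [Real.le_log_iff_exp_le hn0]; exact h2
      linarith
    calc C₁ * n / Real.log n ^ K ≤ C₁ * (27 * a) / (v / 2) ^ K := by gcongr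
      _ = _ := by ring
  have key := win_parts hg v hv (fun m => ((vonMangoldt m : ℂ) - 1) * er τ (Real.log m)) (2 * (27 * a * (C₁ / (v / 2) ^ K))) (by positivity) (by
    rw [← ha]
    intro k hk1 hk2
    have e2 : ∑ j ∈ Ico a k, ((vonMangoldt j : ℂ) - 1) * er τ (Real.log j) =
        ∑ j ∈ Icc 1 (k - 1), ((vonMangoldt j : ℂ) - 1) * er τ (Real.log j) - ∑ j ∈ Icc 1 (a - 1), ((vonMangoldt j : ℂ) - 1) * er τ (Real.log j) := by
      have h5 : Icc 1 (k - 1) = Ico 1 k := by ext j; rw [mem_Icc, mem_Ico]; omega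
      have h6 : Icc 1 (a - 1) = Ico 1 a := by ext j; rw [mem_Icc, mem_Ico]; omega
      rw [h5, h6, ← sum_Ico_consecutive _ (show 1 ≤ a by omega) hk1]
      ring
    show ‖∑ j ∈ Ico a k, ((vonMangoldt j : ℂ) - 1) * er τ (Real.log j)‖ ≤ _
    rw [e2]
    refine (norm_sub_le _ _).trans ?_
    have h5 := hE (k - 1) (by omega) (by
      have : ((k - 1 : ℕ) : ℝ) ≤ k := by exact_mod_cast (by omega : k - 1 ≤ k)
      linarith)
    have h6 := hE (a - 1) le_rfl (by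
      have : ((a - 1 : ℕ) : ℝ) ≤ a := by exact_mod_cast (by omega : a - 1 ≤ a)
      linarith)
    linarith)
  refine key.trans (le_of_eq ?_)
  rw [← ha, div_pow]
  field_simp
  norm_num

end Pool.Agent.H15.QP
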