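import Pool.Agent.H15.QP.Spa
import Pool.Agent.H15.QP.Lw

/-! The primes against the model. -/

set_option autoImplicit false

namespace Pool.Agent.H15.QP
open Finset
open Pool.Agent.H376R2.MR (er kern_er_norm kern_er_add kern_er_cont)
open Pool.Agent.H376R2.MR renaming w → tw
open Pool.Agent.Y851.HZ
open ArithmeticFunction (vonMangoldt moebius)

/-- the range -/
noncomputable def NY (Y : ℝ) : ℕ := ⌈Real.exp (Y + 3)⌉₊

/-- the polynomial over the primes -/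
noncomputable def PQ (Y τ : ℝ) : ℂ :=
  ∑ p ∈ (Icc 1 (NY Y)).filter Nat.Prime, ((Real.log p * g5 (Real.log p - Y) / p : ℝ) : ℂ) * er τ (Real.log p)

/-- the same for the von Mangoldt function -/
noncomputable def LQ (Y τ : ℝ) : ℂ := ∑ n ∈ Icc 1 (NY Y), (vonMangoldt n : ℂ) * (e1 τ n * (g5 (Real.log n - Y) : ℂ))

/-- the model -/
noncomputable def MD (Y : ℝ) (M : ℕ) (τ : ℝ) : ℂ :=
  ∑ m ∈ Icc 1 (NY (Y + Real.log M)), ((g5 (Real.log m - Real.log M - Y) / m : ℝ) : ℂ) * er τ (Real.log m - Real.log M)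

/-- primes against model -/
noncomputable def DD (Y : ℝ) (M : ℕ) (τ : ℝ) : ℂ := PQ Y τ - MD Y M τ

lemma NY_le (Y : ℝ) : Real.exp (Y + 3) ≤ NY Y := by unfold NY; exact Nat.le_ceil _

lemma LQ_eq (Y τ : ℝ) : LQ Y τ = ∑ i ∈ range 5, WS (NY Y) (Y + ((i : ℝ) - 2)) τ vonMangoldt := by
  unfold LQ WS
  rw [sum_comm]
  apply sum_congr rfl
  intro n _
  unfold g5
  push_cast
  rw [mul_sum, mul_sum]
  apply sum_congr rfl
  intro i _
  congr 4
  ring

lemma MD_eq (Y : ℝ) (M : ℕ) (τ : ℝ) : MD Y M τ = er τ (-Real.log M) * ∑ i ∈ range 5, SS tw (Y + Real.log M + ((i : ℝ) - 2)) τ := by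
  rw [← ker_eq _ τ _ (NY_le (Y + Real.log M)), mul_sum]
  unfold MD
  apply sum_congr rfl
  intro m _
  rw [sub_eq_add_neg (Real.log m), kern_er_add, show Real.log m + -Real.log M - Y = Real.log m - (Y + Real.log M) by ring]
  ring

lemma pp_bd (Y : ℝ) (hY : 0 ≤ Y) (S : Finset ℕ) (hS : ∀ n ∈ S, 1 ≤ n ∧ |Real.log n - Y| ≤ 3 ∧ ¬ n.Prime) :
    ∑ n ∈ S, vonMangoldt n / n ≤ 2 * Real.exp (9 / 2) * ((Y + 3) * Real.exp (-(1 / 2 * Y))) := by
  have h1 : ∀ n ∈ S, vonMangoldt n / n ≤ Real.exp (3 - Y) * vonMangoldt n := by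
    intro n hn
    obtain ⟨hn1, hn2, _⟩ := hS n hn
    have hn0 : (0 : ℝ) < n := by exact_mod_cast hn1
    have h2 : Real.exp (Y - 3) ≤ n := by
      rw [← Real.le_log_iff_exp_le hn0]
      linarith [(abs_le.1 hn2).1]
    rw [div_le_iff₀ hn0]
    have h3 : Real.exp (3 - Y) * Real.exp (Y - 3) = 1 := by rw [← Real.exp_add]; simp
    have h4 : 1 ≤ Real.exp (3 - Y) * n := by
      have h5 := mul_le_mul_of_nonneg_left h2 (Real.exp_pos (3 - Y)).le
      linarith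
    have h5 : 0 ≤ vonMangoldt n := ArithmeticFunction.vonMangoldt_nonneg
    nlinarith
  obtain ⟨x, hx⟩ : ∃ x, x = Real.exp (Y + 3) := ⟨_, rfl⟩
  have hx1 : 1 ≤ x := by rw [hx]; exact Real.one_le_exp (by linarith)
  have h2 : ∑ n ∈ S, vonMangoldt n ≤ Chebyshev.psi x - Chebyshev.theta x := by
    rw [Chebyshev.psi_sub_theta_eq_sum_not_prime]
    apply sum_le_sum_of_subset_of_nonneg
    · intro n hn
      obtain ⟨hn1, hn2, hn3⟩ := hS n hn
      have hn0 : (0 : ℝ) < n := by exact_mod_cast hn1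
      rw [mem_filter, mem_Ioc]
      refine ⟨⟨hn1, Nat.le_floor ?_⟩, hn3⟩
      rw [hx, ← Real.log_le_iff_le_exp hn0]
      linarith [(abs_le.1 hn2).2]
    · intro n _ _
      exact ArithmeticFunction.vonMangoldt_nonneg
  have h3 := Chebyshev.abs_psi_sub_theta_le_sqrt_mul_log hx1
  have h4 : ∑ n ∈ S, vonMangoldt n ≤ 2 * √x * Real.log x := h2.trans ((le_abs_self _).trans h3)
  have hlogx : Real.log x = Y + 3 := by rw [hx, Real.log_exp]
  have hsx : √x = Real.exp ((Y + 3) / 2) := by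
    rw [hx, ← Real.exp_half]
  rw [hlogx, hsx] at h4
  have h5 : Real.exp (3 - Y) * Real.exp ((Y + 3) / 2) = Real.exp (9 / 2) * Real.exp (-(1 / 2 * Y)) := by
    rw [← Real.exp_add, ← Real.exp_add]; congr 1; ring
  calc ∑ n ∈ S, vonMangoldt n / n ≤ ∑ n ∈ S, Real.exp (3 - Y) * vonMangoldt n := sum_le_sum h1
    _ = Real.exp (3 - Y) * ∑ n ∈ S, vonMangoldt n := by rw [mul_sum]
    _ ≤ Real.exp (3 - Y) * (2 * Real.exp ((Y + 3) / 2) * (Y + 3)) := mul_le_mul_of_nonneg_left h4 (Real.exp_pos _).le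
    _ = 2 * (Real.exp (3 - Y) * Real.exp ((Y + 3) / 2)) * (Y + 3) := by ring
    _ = _ := by rw [h5]; ring

/-- prime powers are negligible -/
lemma PQ_LQ : ∃ C : ℝ, 0 < C ∧ ∀ Y τ : ℝ, 1 ≤ Y → ‖LQ Y τ - PQ Y τ‖ ≤ C * Real.exp (-(1 / 4 * Y)) := by
  obtain ⟨C, hC, h1⟩ := poly_exp 1 (1 / 4) (by norm_num)
  refine ⟨2 * Real.exp (9 / 2) * (4 * C), by positivity, fun Y τ hY => ?_⟩
  classical
  obtain ⟨S, hS⟩ : ∃ S, S = (Icc 1 (NY Y)).filter (fun n : ℕ => |Real.log n - Y| ≤ 3 ∧ ¬ n.Prime) := ⟨_, rfl⟩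
  have h2 : ‖LQ Y τ - PQ Y τ‖ ≤ ∑ n ∈ S, vonMangoldt n / n := by
    unfold LQ PQ
    rw [sum_filter, ← sum_sub_distrib, hS, sum_filter]
    refine (norm_sum_le _ _).trans (sum_le_sum fun n hn => ?_)
    rw [mem_Icc] at hn
    have hn0 : (0 : ℝ) < n := by exact_mod_cast hn.1
    have hΛ : 0 ≤ vonMangoldt n := ArithmeticFunction.vonMangoldt_nonneg
    by_cases hp : n.Prime
    · rw [if_pos hp, if_neg (by tauto), ArithmeticFunction.vonMangoldt_apply_prime hp]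
      unfold e1
      push_cast
      apply le_of_eq
      rw [norm_eq_zero]
      ring
    · rw [if_neg hp, sub_zero]
      by_cases h : |Real.log n - Y| ≤ 3
      · rw [if_pos ⟨h, hp⟩, norm_mul, norm_mul, e1_norm, Complex.norm_real, Complex.norm_real, Real.norm_eq_abs, Real.norm_eq_abs,
          abs_of_nonneg hΛ, abs_of_nonneg (g5_nonneg _)]
        have := g5_le (Real.log n - Y)
        have := g5_nonneg (Real.log n - Y)
        calc vonMangoldt n * (1 / n * g5 (Real.log n - Y)) ≤ vonMangoldt n * (1 / n * 1) := by gcongr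
          _ = _ := by ring
      · rw [if_neg (by tauto)]
        push Not at h
        rw [g5_supp _ h.le]
        simp
  refine h2.trans ((pp_bd Y (by linarith) S (by
    intro n hn
    rw [hS, mem_filter, mem_Icc] at hn
    exact ⟨hn.1.1, hn.2.1, hn.2.2⟩)).trans ?_)
  have h3 := h1 Y (by linarith)
  have h4 : Real.exp (-(1 / 2 * Y)) = Real.exp (-(1 / 4 * Y)) * Real.exp (-(1 / 4 * Y)) := by
    rw [← Real.exp_add]; congr 1; ring
  rw [pow_one] at h3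
  have h5 := Real.exp_pos (-(1 / 4 * Y))
  calc 2 * Real.exp (9 / 2) * ((Y + 3) * Real.exp (-(1 / 2 * Y))) ≤ 2 * Real.exp (9 / 2) * ((4 * Y) * Real.exp (-(1 / 2 * Y))) := by
        gcongr; linarith
    _ = 2 * Real.exp (9 / 2) * (4 * (Y * Real.exp (-(1 / 4 * Y)))) * Real.exp (-(1 / 4 * Y)) := by rw [h4]; ring
    _ ≤ 2 * Real.exp (9 / 2) * (4 * C) * Real.exp (-(1 / 4 * Y)) := by gcongr

/-- **Pointwise bound** -/
theorem DD_sup (K : ℕ) : ∃ C : ℝ, 0 < C ∧ ∀ (Y : ℝ) (M : ℕ) (τ : ℝ), 12 ≤ Y → 1 ≤ M → |τ| ≤ Real.exp (4 * Y) → ‖DD Y M τ‖ ≤ C / Y ^ K := by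
  obtain ⟨C₁, hC₁, h1⟩ := PQ_LQ
  obtain ⟨C₂, hC₂, h2⟩ := lam_win' 8 K
  obtain ⟨η, C₃, hη, hη1, hC₃, h3⟩ := type_one 8
  obtain ⟨C₄, hC₄, h4⟩ := poly_exp K (1 / 4) (by norm_num)
  obtain ⟨C₅, hC₅, h5⟩ := poly_exp K (η / 2) (by positivity)
  refine ⟨C₁ * C₄ + 5 * (C₂ * 2 ^ K) + 10 * C₃ * C₅, by positivity, fun Y M τ hY hM hτ => ?_⟩
  have hY0 : 0 < Y := by linarith
  have hM0 : (0 : ℝ) < M := by exact_mod_cast hM
  have hlM : 0 ≤ Real.log M := Real.log_natCast_nonneg M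
  -- the smooth parts
  have e1' : ∀ i ∈ range 5, ‖SS tw (Y + ((i : ℝ) - 2)) τ - er τ (-Real.log M) * SS tw (Y + Real.log M + ((i : ℝ) - 2)) τ‖ ≤
      2 * C₃ * Real.exp (-(η / 2 * Y)) := by
    intro i _
    have hi0 : (0 : ℝ) ≤ i := Nat.cast_nonneg i
    have a1 := h3 tw tw_wd (Y + ((i : ℝ) - 2)) τ (by linarith) (hτ.trans (Real.exp_le_exp.2 (by push_cast; linarith)))
    have a2 := h3 tw tw_wd (Y + Real.log M + ((i : ℝ) - 2)) τ (by linarith) (hτ.trans (Real.exp_le_exp.2 (by push_cast; linarith)))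
    have a3 : er τ (-Real.log M) * II tw (Y + Real.log M + ((i : ℝ) - 2)) τ = II tw (Y + ((i : ℝ) - 2)) τ := by
      have := II_shift tw (Y + ((i : ℝ) - 2)) τ (-Real.log M)
      rw [show Y + ((i : ℝ) - 2) - -Real.log M = Y + Real.log M + ((i : ℝ) - 2) by ring] at this
      exact this
    have a4 : SS tw (Y + ((i : ℝ) - 2)) τ - er τ (-Real.log M) * SS tw (Y + Real.log M + ((i : ℝ) - 2)) τ =
        (SS tw (Y + ((i : ℝ) - 2)) τ - II tw (Y + ((i : ℝ) - 2)) τ) -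
          er τ (-Real.log M) * (SS tw (Y + Real.log M + ((i : ℝ) - 2)) τ - II tw (Y + Real.log M + ((i : ℝ) - 2)) τ) := by
      rw [mul_sub, a3]; ring
    rw [a4]
    refine (norm_sub_le _ _).trans ?_
    rw [norm_mul, kern_er_norm, one_mul]
    have a5 : Real.exp (-(η * (Y + ((i : ℝ) - 2)))) ≤ Real.exp (-(η / 2 * Y)) := Real.exp_le_exp.2 (by nlinarith)
    have a6 : Real.exp (-(η * (Y + Real.log M + ((i : ℝ) - 2)))) ≤ Real.exp (-(η / 2 * Y)) := Real.exp_le_exp.2 (by nlinarith)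
    have a7 := mul_le_mul_of_nonneg_left a5 hC₃.le
    have a8 := mul_le_mul_of_nonneg_left a6 hC₃.le
    linarith
  have e2' : ∀ i ∈ range 5, ‖WS (NY Y) (Y + ((i : ℝ) - 2)) τ vonMangoldt - SS tw (Y + ((i : ℝ) - 2)) τ‖ ≤ C₂ * 2 ^ K / Y ^ K := by
    intro i hi
    rw [mem_range] at hi
    have hi0 : (0 : ℝ) ≤ i := Nat.cast_nonneg i
    have hi4 : (i : ℝ) ≤ 4 := by exact_mod_cast (by omega : i ≤ 4)
    have a1 := h2 tw tw_wd (Y + ((i : ℝ) - 2)) τ (by linarith) (hτ.trans (Real.exp_le_exp.2 (by push_cast; linarith)))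
    obtain ⟨N, hN⟩ : ∃ N : ℕ, N = ⌊Real.exp (Y + ((i : ℝ) - 2) + 1)⌋₊ := ⟨_, rfl⟩
    have a2 : WS (NY Y) (Y + ((i : ℝ) - 2)) τ vonMangoldt - SS tw (Y + ((i : ℝ) - 2)) τ =
        ∑ m ∈ Icc 1 ⌊Real.exp (Y + ((i : ℝ) - 2) + 1)⌋₊, ((tw (Real.log m - (Y + ((i : ℝ) - 2))) / m : ℝ) : ℂ) * (((vonMangoldt m : ℂ) - 1) * er τ (Real.log m)) := by
      have b1 : Real.exp (Y + ((i : ℝ) - 2) + 1) ≤ NY Y := (Real.exp_le_exp.2 (by linarith)).trans (NY_le Y)
      have b2 : ∑ m ∈ Icc 1 ⌊Real.exp (Y + ((i : ℝ) - 2) + 1)⌋₊, ((tw (Real.log m - (Y + ((i : ℝ) - 2))) / m : ℝ) : ℂ) * (((vonMangoldt m : ℂ) - 1) * er τ (Real.log m)) =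
          ∑ m ∈ Icc 1 (NY Y), ((tw (Real.log m - (Y + ((i : ℝ) - 2))) / m : ℝ) : ℂ) * (((vonMangoldt m : ℂ) - 1) * er τ (Real.log m)) := by
        apply sum_subset (Icc_subset_Icc le_rfl ((Nat.floor_mono b1).trans (by simp)))
        intro m hm hm2
        rw [mem_Icc] at hm
        have c1 : ⌊Real.exp (Y + ((i : ℝ) - 2) + 1)⌋₊ < m := by
          by_contra h
          exact hm2 (mem_Icc.2 ⟨hm.1, by omega⟩)
        have hm0 : (0 : ℝ) < m := by exact_mod_cast hm.1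
        have c2 : Real.exp (Y + ((i : ℝ) - 2) + 1) < m := (Nat.floor_lt (Real.exp_pos _).le).1 c1
        have c3 : Y + ((i : ℝ) - 2) + 1 ≤ Real.log m := by
          rw [Real.le_log_iff_exp_le hm0]; exact c2.le
        rw [tw_supp _ (by rw [abs_of_nonneg] <;> linarith)]
        simp
      rw [b2, ← WS_zeR _ τ (NY Y) b1]
      unfold WS
      rw [← sum_sub_distrib]
      apply sum_congr rfl
      intro m hm
      rw [mem_Icc] at hm
      rw [zeR_apply hm.1]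
      unfold e1
      push_cast
      ring
    rw [a2]
    refine a1.trans ?_
    have a3 : (Y / 2) ^ K ≤ (Y + ((i : ℝ) - 2)) ^ K := by
      apply pow_le_pow_left₀ (by positivity)
      linarith
    calc C₂ / (Y + ((i : ℝ) - 2)) ^ K ≤ C₂ / (Y / 2) ^ K := by gcongr
      _ = _ := by rw [div_pow]; field_simp
  have e3' : DD Y M τ = -(LQ Y τ - PQ Y τ) + (∑ i ∈ range 5, (WS (NY Y) (Y + ((i : ℝ) - 2)) τ vonMangoldt - SS tw (Y + ((i : ℝ) - 2)) τ)) +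
      ∑ i ∈ range 5, (SS tw (Y + ((i : ℝ) - 2)) τ - er τ (-Real.log M) * SS tw (Y + Real.log M + ((i : ℝ) - 2)) τ) := by
    unfold DD
    rw [MD_eq, sum_sub_distrib, sum_sub_distrib, ← mul_sum, ← LQ_eq]
    ring
  rw [e3']
  refine (norm_add₃_le).trans ?_
  rw [norm_neg]
  have b1 := h1 Y τ (by linarith)
  have b2 := (norm_sum_le _ _).trans (sum_le_sum e2')
  have b3 := (norm_sum_le _ _).trans (sum_le_sum e1')
  rw [sum_const, card_range, nsmul_eq_mul] at b2 b3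
  have c1 : C₁ * Real.exp (-(1 / 4 * Y)) ≤ C₁ * C₄ / Y ^ K := by
    rw [mul_div_assoc]
    apply mul_le_mul_of_nonneg_left _ hC₁.le
    rw [le_div_iff₀ (by positivity), mul_comm]
    exact h4 Y hY0.le
  have c2 : 10 * C₃ * Real.exp (-(η / 2 * Y)) ≤ 10 * C₃ * C₅ / Y ^ K := by
    rw [mul_div_assoc]
    apply mul_le_mul_of_nonneg_left _ (by positivity)
    rw [le_div_iff₀ (by positivity), mul_comm]
    exact h5 Y hY0.le
  have e : (C₁ * C₄ + 5 * (C₂ * 2 ^ K) + 10 * C₃ * C₅) / Y ^ K = C₁ * C₄ / Y ^ K + 5 * (C₂ * 2 ^ K / Y ^ K) + 10 * C₃ * C₅ / Y ^ K := by ring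
  rw [e]
  push_cast at b2 b3
  linarith

end Pool.Agent.H15.QP
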