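import Pool.Agent.H15.QP.DD

/-! Primes against the model on sparse sets of frequencies. -/

set_option autoImplicit false

namespace Pool.Agent.H15.QP
open Finset
open Pool.Agent.H376R2.MR (er kern_er_norm kern_er_add kern_er_cont)
open Pool.Agent.H376R2.MR renaming w → tw
open Pool.Agent.Y851.HZ
open ArithmeticFunction (vonMangoldt moebius)

lemma card_small (J : Finset ℤ) (s T₀ : ℝ) (hT₀ : 1 ≤ T₀) (hs : |s| ≤ 1) (hJ : ∀ j ∈ J, |(j : ℝ) + s| < T₀) : (J.card : ℝ) ≤ 5 * T₀ := by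
  obtain ⟨D, hD⟩ : ∃ D : ℕ, D = ⌊T₀ + 1⌋₊ := ⟨_, rfl⟩
  have hD1 : (D : ℝ) ≤ T₀ + 1 := by rw [hD]; exact Nat.floor_le (by linarith)
  have hD2 : T₀ + 1 < (D : ℝ) + 1 := by rw [hD]; exact Nat.lt_floor_add_one _
  have h1 : J ⊆ Icc (-(D : ℤ)) D := by
    intro j hj
    have h2 := abs_lt.1 (hJ j hj)
    have h3 := abs_le.1 hs
    rw [mem_Icc]
    constructor
    · by_contra h4
      push Not at h4
      have h5 : j + 1 ≤ -(D : ℤ) := by omega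
      have h6 : ((j + 1 : ℤ) : ℝ) ≤ ((-(D : ℤ) : ℤ) : ℝ) := by exact_mod_cast h5
      push_cast at h6
      linarith
    · by_contra h4
      push Not at h4
      have h5 : (D : ℤ) + 1 ≤ j := by omega
      have h6 : (((D : ℤ) + 1 : ℤ) : ℝ) ≤ ((j : ℤ) : ℝ) := by exact_mod_cast h5
      push_cast at h6
      linarith
  have h2 : J.card ≤ 2 * D + 1 := by
    refine (card_le_card h1).trans (le_of_eq ?_)
    rw [Int.card_Icc]
    omega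
  have h3 : (J.card : ℝ) ≤ 2 * D + 1 := by exact_mod_cast h2
  linarith

/-- **Primes against the model on sparse sets** -/
theorem DD_sparse : ∃ c : ℝ, 0 < c ∧ ∀ K : ℕ, ∃ Y₀ : ℝ, ∀ (Y s : ℝ) (M : ℕ) (J : Finset ℤ), Y₀ ≤ Y → 1 ≤ M → |s| ≤ 1 →
    (∀ j ∈ J, |(j : ℝ)| ≤ Real.exp (3 * Y)) → (J.card : ℝ) ≤ Real.exp (c * Y) →
    ∑ j ∈ J, ‖DD Y M (j + s)‖ ^ 2 ≤ 1 / Y ^ K := by
  obtain ⟨c₀, hc₀, hsp⟩ := sparse
  obtain ⟨η, C₃, hη, hη1, hC₃, h3⟩ := SS_bd 8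
  refine ⟨min (min (c₀ / 2) (1 / 8)) (η / 4), by positivity, fun K => ?_⟩
  obtain ⟨c, hc⟩ : ∃ c, c = min (min (c₀ / 2) (1 / 8)) (η / 4) := ⟨_, rfl⟩
  rw [← hc]
  have hc1 : c ≤ c₀ / 2 := by rw [hc]; exact (min_le_left _ _).trans (min_le_left _ _)
  have hc2 : c ≤ 1 / 8 := by rw [hc]; exact (min_le_left _ _).trans (min_le_right _ _)
  have hc3 : c ≤ η / 4 := by rw [hc]; exact min_le_right _ _
  obtain ⟨K₀, Y₁, hsp⟩ := hsp (K + 1)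
  obtain ⟨K₁, hK₁⟩ : ∃ K₁, K₁ = K₀ + K + 2 := ⟨_, rfl⟩
  obtain ⟨C₁, hC₁, hsup⟩ := DD_sup (K₁ + K + 1)
  obtain ⟨C₂, hC₂, hpp⟩ := PQ_LQ
  obtain ⟨C₄, hC₄, h4⟩ := poly_exp (K + 1) (1 / 4) (by norm_num)
  obtain ⟨C₅, hC₅, h5⟩ := poly_exp (K + 1) (η / 2) (by positivity)
  obtain ⟨D, hD⟩ : ∃ D : ℝ, D = 5 * 2 ^ K₁ * C₁ ^ 2 + 75 * 2 ^ (K + 1) + 3 * (C₂ ^ 2 * C₄) + 75 * (2048 * 5 + 2 * C₃ ^ 2 * C₅) := ⟨_, rfl⟩
  have hD0 : 0 ≤ D := by rw [hD]; positivity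
  refine ⟨max (max 12 (Y₁ + 2)) D, fun Y s M J hY hM hs hJ hJc => ?_⟩
  have hY12 : 12 ≤ Y := ((le_max_left _ _).trans (le_max_left _ _)).trans hY
  have hYY₁ : Y₁ + 2 ≤ Y := ((le_max_right _ _).trans (le_max_left _ _)).trans hY
  have hYD : D ≤ Y := (le_max_right _ _).trans hY
  have hY0 : 0 < Y := by linarith
  have hY1 : 1 ≤ Y := by linarith
  have hlM : 0 ≤ Real.log M := Real.log_natCast_nonneg M
  obtain ⟨T, hT⟩ : ∃ T, T = Real.exp (3 * Y) := ⟨_, rfl⟩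
  rw [← hT] at hJ
  have hT1 : 1 ≤ T := by rw [hT]; exact Real.one_le_exp (by linarith)
  obtain ⟨T₀, hT₀⟩ : ∃ T₀, T₀ = (2 * Y) ^ K₁ := ⟨_, rfl⟩
  have hT01 : 1 ≤ T₀ := by rw [hT₀]; exact one_le_pow₀ (by linarith)
  have he1 := Real.exp_one_gt_d9
  have hlogT : 1 + Real.log (2 * T + 1) ≤ 5 * Y := by
    have h5 : 2 * T + 1 ≤ Real.exp (3 * Y + 2) := by
      rw [Real.exp_add, ← hT]
      have h6 : (3 : ℝ) ≤ Real.exp 2 := by
        have : Real.exp 2 = Real.exp 1 ^ 2 := by rw [← Real.exp_nat_mul]; norm_num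
        rw [this]; nlinarith only [he1]
      nlinarith only [h6, hT1]
    have h7 : Real.log (2 * T + 1) ≤ 3 * Y + 2 := by
      rw [Real.log_le_iff_le_exp (by linarith)]; exact h5
    linarith
  have hτ : ∀ j ∈ J, |(j : ℝ) + s| ≤ Real.exp (4 * Y) := by
    intro j hj
    have h5 := hJ j hj
    have h6 := abs_add_le (j : ℝ) s
    have h7 : T + 1 ≤ Real.exp (4 * Y) := by
      have : Real.exp (4 * Y) = T * Real.exp Y := by rw [hT, ← Real.exp_add]; congr 1; ring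
      rw [this]
      have h8 : 2 ≤ Real.exp Y := by
        have := Real.add_one_le_exp Y
        linarith
      nlinarith only [h8, hT1]
    linarith
  -- the two parts
  rw [← sum_filter_add_sum_filter_not J (fun j : ℤ => |(j : ℝ) + s| < T₀)]
  obtain ⟨J₁, hJ₁⟩ : ∃ J₁, J₁ = J.filter (fun j : ℤ => |(j : ℝ) + s| < T₀) := ⟨_, rfl⟩
  obtain ⟨J₂, hJ₂⟩ : ∃ J₂, J₂ = J.filter (fun j : ℤ => ¬ |(j : ℝ) + s| < T₀) := ⟨_, rfl⟩
  rw [← hJ₁, ← hJ₂]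
  have hJ₁m : ∀ j ∈ J₁, j ∈ J ∧ |(j : ℝ) + s| < T₀ := by intro j hj; rw [hJ₁, mem_filter] at hj; exact hj
  have hJ₂m : ∀ j ∈ J₂, j ∈ J ∧ T₀ ≤ |(j : ℝ) + s| := by intro j hj; rw [hJ₂, mem_filter, not_lt] at hj; exact hj
  have hJ₂c : (J₂.card : ℝ) ≤ Real.exp (c * Y) := by
    refine le_trans ?_ hJc
    rw [hJ₂]
    exact_mod_cast card_filter_le _ _
  have p1 : ∑ j ∈ J₁, ‖DD Y M (j + s)‖ ^ 2 ≤ 5 * 2 ^ K₁ * C₁ ^ 2 / Y ^ (K + 1) := by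
    have h6 : ∀ j ∈ J₁, ‖DD Y M (j + s)‖ ^ 2 ≤ (C₁ / Y ^ (K₁ + K + 1)) ^ 2 := fun j hj =>
      pow_le_pow_left₀ (norm_nonneg _) (hsup Y M (j + s) hY12 hM (hτ j (hJ₁m j hj).1)) 2
    refine (sum_le_sum h6).trans ?_
    rw [sum_const, nsmul_eq_mul]
    have h7 := card_small J₁ s T₀ hT01 hs (fun j hj => (hJ₁m j hj).2)
    calc (J₁.card : ℝ) * (C₁ / Y ^ (K₁ + K + 1)) ^ 2 ≤ 5 * T₀ * (C₁ / Y ^ (K₁ + K + 1)) ^ 2 := by gcongr
      _ = 5 * 2 ^ K₁ * C₁ ^ 2 * (Y ^ K₁ / (Y ^ (K₁ + K + 1)) ^ 2) := by rw [hT₀, mul_pow]; ring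
      _ ≤ 5 * 2 ^ K₁ * C₁ ^ 2 * (1 / Y ^ (K + 1)) := by
          apply mul_le_mul_of_nonneg_left _ (by positivity)
          rw [div_le_div_iff₀ (by positivity) (by positivity), one_mul, ← pow_add, ← pow_mul]
          exact pow_le_pow_right₀ hY1 (by omega)
      _ = _ := by ring
  have p2 : ∑ j ∈ J₂, ‖LQ Y (j + s)‖ ^ 2 ≤ 25 * 2 ^ (K + 1) / Y ^ (K + 1) := by
    have h6 : ∀ j ∈ J₂, ‖LQ Y (j + s)‖ ^ 2 ≤ 5 * ∑ i ∈ range 5, ‖WS (NY Y) (Y + ((i : ℝ) - 2)) (j + s) vonMangoldt‖ ^ 2 := by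
      intro j _
      rw [LQ_eq]
      have h7 := pow_le_pow_left₀ (norm_nonneg _) (norm_sum_le (range 5) (fun i : ℕ => WS (NY Y) (Y + ((i : ℝ) - 2)) (j + s) vonMangoldt)) 2
      refine h7.trans ?_
      have h8 := sq_sum_le_card_mul_sum_sq (s := range 5) (f := fun i : ℕ => ‖WS (NY Y) (Y + ((i : ℝ) - 2)) (j + s) vonMangoldt‖)
      rw [card_range] at h8
      exact_mod_cast h8
    refine (sum_le_sum h6).trans ?_
    rw [← mul_sum, sum_comm]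
    have h7 : ∀ i ∈ range 5, ∑ j ∈ J₂, ‖WS (NY Y) (Y + ((i : ℝ) - 2)) (j + s) vonMangoldt‖ ^ 2 ≤ 2 ^ (K + 1) / Y ^ (K + 1) := by
      intro i hi
      rw [mem_range] at hi
      have hi0 : (0 : ℝ) ≤ i := Nat.cast_nonneg i
      have hi4 : (i : ℝ) ≤ 4 := by exact_mod_cast (by omega : i ≤ 4)
      have h8 := hsp (NY Y) (Y + ((i : ℝ) - 2)) s J₂ (by linarith) ((Real.exp_le_exp.2 (by linarith)).trans (NY_le Y)) hs (by
        intro j hj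
        refine ⟨(hJ j (hJ₂m j hj).1).trans ?_, le_trans ?_ (hJ₂m j hj).2⟩
        · rw [hT]; exact Real.exp_le_exp.2 (by linarith)
        · rw [hT₀]
          calc (Y + ((i : ℝ) - 2)) ^ K₀ ≤ (2 * Y) ^ K₀ := by
                apply pow_le_pow_left₀ (by linarith)
                linarith
            _ ≤ (2 * Y) ^ K₁ := pow_le_pow_right₀ (by linarith) (by omega)) (by
        refine hJ₂c.trans (Real.exp_le_exp.2 ?_)
        nlinarith only [hc1, hc₀, hY12, hi0])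
      refine h8.trans ?_
      have h9 : (Y / 2) ^ (K + 1) ≤ (Y + ((i : ℝ) - 2)) ^ (K + 1) := by
        apply pow_le_pow_left₀ (by positivity)
        linarith
      calc 1 / (Y + ((i : ℝ) - 2)) ^ (K + 1) ≤ 1 / (Y / 2) ^ (K + 1) := by gcongr
        _ = _ := by rw [div_pow]; field_simp
    have h8 := sum_le_sum h7
    rw [sum_const, card_range, nsmul_eq_mul] at h8
    push_cast at h8
    calc _ ≤ 5 * (5 * (2 ^ (K + 1) / Y ^ (K + 1))) := by linarith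
      _ = _ := by ring
  have p3 : ∑ j ∈ J₂, ‖LQ Y (j + s) - PQ Y (j + s)‖ ^ 2 ≤ C₂ ^ 2 * C₄ / Y ^ (K + 1) := by
    have h6 : ∀ j ∈ J₂, ‖LQ Y (j + s) - PQ Y (j + s)‖ ^ 2 ≤ (C₂ * Real.exp (-(1 / 4 * Y))) ^ 2 := fun j _ =>
      pow_le_pow_left₀ (norm_nonneg _) (hpp Y (j + s) hY1) 2
    refine (sum_le_sum h6).trans ?_
    rw [sum_const, nsmul_eq_mul]
    have h7 := h4 Y hY0.le
    calc (J₂.card : ℝ) * (C₂ * Real.exp (-(1 / 4 * Y))) ^ 2 ≤ Real.exp (c * Y) * (C₂ * Real.exp (-(1 / 4 * Y))) ^ 2 := by gcongr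
      _ = C₂ ^ 2 * Real.exp (c * Y - 1 / 4 * Y - 1 / 4 * Y) := by
          rw [mul_pow, ← Real.exp_nat_mul, show c * Y - 1 / 4 * Y - 1 / 4 * Y = c * Y + ((2 : ℕ) : ℝ) * -(1 / 4 * Y) by push_cast; ring, Real.exp_add]
          ring
      _ ≤ C₂ ^ 2 * Real.exp (-(1 / 4 * Y)) := by
          apply mul_le_mul_of_nonneg_left _ (by positivity)
          apply Real.exp_le_exp.2
          nlinarith only [hc2, hY0]
      _ ≤ C₂ ^ 2 * (C₄ / Y ^ (K + 1)) := by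
          apply mul_le_mul_of_nonneg_left _ (by positivity)
          rw [le_div_iff₀ (by positivity), mul_comm]
          exact h7
      _ = _ := by ring
  have p4 : ∑ j ∈ J₂, ‖MD Y M (j + s)‖ ^ 2 ≤ 25 * (2048 * 5 + 2 * C₃ ^ 2 * C₅) / Y ^ (K + 1) := by
    have h6 : ∀ j ∈ J₂, ‖MD Y M (j + s)‖ ^ 2 ≤ 25 * (16 * (1 / (1 + |(j : ℝ) + s|)) + C₃ * Real.exp (-(η / 2 * Y))) ^ 2 := by
      intro j hj
      have h7 : ‖MD Y M (j + s)‖ ≤ 5 * (16 * (1 / (1 + |(j : ℝ) + s|)) + C₃ * Real.exp (-(η / 2 * Y))) := by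
        rw [MD_eq, norm_mul, kern_er_norm, one_mul]
        refine (norm_sum_le _ _).trans ?_
        have h8 : ∀ i ∈ range 5, ‖SS tw (Y + Real.log M + ((i : ℝ) - 2)) (j + s)‖ ≤ 16 * (1 / (1 + |(j : ℝ) + s|)) + C₃ * Real.exp (-(η / 2 * Y)) := by
          intro i _
          have hi0 : (0 : ℝ) ≤ i := Nat.cast_nonneg i
          have h9 := h3 tw tw_wd (Y + Real.log M + ((i : ℝ) - 2)) (j + s) (by linarith)
            ((hτ j (hJ₂m j hj).1).trans (Real.exp_le_exp.2 (by push_cast; linarith)))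
          have a6 : Real.exp (-(η * (Y + Real.log M + ((i : ℝ) - 2)))) ≤ Real.exp (-(η / 2 * Y)) := Real.exp_le_exp.2 (by nlinarith only [hη, hY12, hi0, hlM, mul_nonneg hη.le hlM, mul_nonneg hη.le hi0])
          have a8 := mul_le_mul_of_nonneg_left a6 hC₃.le
          linarith
        refine (sum_le_sum h8).trans (le_of_eq ?_)
        rw [sum_const, card_range, nsmul_eq_mul]
        push_cast
        ring
      have h8 := pow_le_pow_left₀ (norm_nonneg _) h7 2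
      refine h8.trans (le_of_eq ?_)
      ring
    refine (sum_le_sum h6).trans ?_
    rw [← mul_sum]
    have h7 := type1_sq J₂ s T T₀ (Real.exp (-(η / 2 * Y))) C₃ hT1 hT01 hs (fun j hj => ⟨hJ j (hJ₂m j hj).1, (hJ₂m j hj).2⟩)
    have h8 : (J₂.card : ℝ) * Real.exp (-(η / 2 * Y)) ^ 2 ≤ Real.exp (-(η / 2 * Y)) := by
      calc (J₂.card : ℝ) * Real.exp (-(η / 2 * Y)) ^ 2 ≤ Real.exp (c * Y) * Real.exp (-(η / 2 * Y)) ^ 2 := by gcongr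
        _ = Real.exp (c * Y - η * Y) := by rw [← Real.exp_nat_mul, ← Real.exp_add]; congr 1; push_cast; ring
        _ ≤ Real.exp (-(η / 2 * Y)) := Real.exp_le_exp.2 (by nlinarith [mul_pos hη hY0])
    have h9 : Real.exp (-(η / 2 * Y)) ≤ C₅ / Y ^ (K + 1) := by
      rw [le_div_iff₀ (by positivity), mul_comm]
      exact h5 Y hY0.le
    have h10 : Y / T₀ ≤ 1 / Y ^ (K + 1) := by
      rw [div_le_div_iff₀ (by positivity) (by positivity), one_mul, hT₀]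
      calc Y * Y ^ (K + 1) = Y ^ (K + 2) := by ring
        _ ≤ Y ^ K₁ := pow_le_pow_right₀ hY1 (by omega)
        _ ≤ (2 * Y) ^ K₁ := by gcongr; linarith
    calc _ ≤ 25 * (2048 / T₀ * (5 * Y) + 2 * C₃ ^ 2 * Real.exp (-(η / 2 * Y))) := by
          apply mul_le_mul_of_nonneg_left _ (by norm_num)
          refine h7.trans ?_
          gcongr
      _ = 25 * (2048 * 5 * (Y / T₀) + 2 * C₃ ^ 2 * Real.exp (-(η / 2 * Y))) := by ring
      _ ≤ 25 * (2048 * 5 * (1 / Y ^ (K + 1)) + 2 * C₃ ^ 2 * (C₅ / Y ^ (K + 1))) := by gcongr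
      _ = _ := by ring
  have p5 : ∑ j ∈ J₂, ‖DD Y M (j + s)‖ ^ 2 ≤ 3 * (25 * 2 ^ (K + 1) / Y ^ (K + 1)) + 3 * (C₂ ^ 2 * C₄ / Y ^ (K + 1)) +
      3 * (25 * (2048 * 5 + 2 * C₃ ^ 2 * C₅) / Y ^ (K + 1)) := by
    have h6 : ∀ j ∈ J₂, ‖DD Y M (j + s)‖ ^ 2 ≤ 3 * ‖LQ Y (j + s)‖ ^ 2 + 3 * ‖LQ Y (j + s) - PQ Y (j + s)‖ ^ 2 + 3 * ‖MD Y M (j + s)‖ ^ 2 := by
      intro j _
      have := sq_three (LQ Y (j + s)) (LQ Y (j + s) - PQ Y (j + s)) (-MD Y M (j + s)) (DD Y M (j + s)) (by unfold DD; ring)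
      rwa [norm_neg] at this
    refine (sum_le_sum h6).trans ?_
    rw [sum_add_distrib, sum_add_distrib, ← mul_sum, ← mul_sum, ← mul_sum]
    linarith
  have h6 : D / Y ^ (K + 1) ≤ 1 / Y ^ K := by
    rw [div_le_div_iff₀ (by positivity) (by positivity), one_mul, pow_succ]
    calc D * Y ^ K ≤ Y * Y ^ K := by gcongr
      _ = _ := by ring
  have h7 : D / Y ^ (K + 1) = 5 * 2 ^ K₁ * C₁ ^ 2 / Y ^ (K + 1) + (3 * (25 * 2 ^ (K + 1) / Y ^ (K + 1)) + 3 * (C₂ ^ 2 * C₄ / Y ^ (K + 1)) +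
      3 * (25 * (2048 * 5 + 2 * C₃ ^ 2 * C₅) / Y ^ (K + 1))) := by rw [hD]; ring
  linarith

end Pool.Agent.H15.QP
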