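import Pool.Graph.R_seed8.Y851.HZ.RW
import Pool.Graph.R_seed8.Y851.HZ.MS
import Pool.Graph.R_seed8.Y851.HZ.Ch

/-! Duality on sparse sets of frequencies. -/

set_option autoImplicit false

namespace Pool.Agent.H15.QP
open Finset
open Pool.Agent.H376R2.MR (er kern_er_norm kern_er_add kern_er_cont)
open Pool.Agent.H376R2.MR renaming w → tw
open Pool.Agent.Y851.HZ

/-- the dual inequality -/
lemma dual_abs (S' S : Finset ℕ) (hSS : S ⊆ S') (V : ℕ → ℝ) (hV : ∀ n ∈ S', 0 ≤ V n) (hVS : ∀ n ∈ S, 0 < V n)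
    (J : Finset ℤ) (φ : ℕ → ℤ → ℂ) (Q : ℝ) (hQ0 : 0 ≤ Q)
    (hQ : ∀ j ∈ J, ∑ j' ∈ J, ‖∑ n ∈ S', (V n : ℂ) * (φ n j * (starRingEnd ℂ) (φ n j'))‖ ≤ Q) (y : ℕ → ℂ) :
    ∑ j ∈ J, ‖∑ n ∈ S, y n * φ n j‖ ^ 2 ≤ (∑ n ∈ S, ‖y n‖ ^ 2 / V n) * Q := by
  obtain ⟨b, hb⟩ : ∃ b : ℤ → ℂ, ∀ j, b j = ∑ n ∈ S, y n * φ n j := ⟨_, fun _ => rfl⟩
  simp_rw [← hb]
  obtain ⟨Z, hZ⟩ : ∃ Z : ℝ, Z = ∑ j ∈ J, ‖b j‖ ^ 2 := ⟨_, rfl⟩
  rw [← hZ]
  have hZ0 : 0 ≤ Z := by rw [hZ]; exact sum_nonneg fun _ _ => sq_nonneg _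
  obtain ⟨R, hR⟩ : ∃ R : ℝ, R = ∑ n ∈ S, ‖y n‖ ^ 2 / V n := ⟨_, rfl⟩
  rw [← hR]
  have hR0 : 0 ≤ R := by rw [hR]; exact sum_nonneg fun n hn => div_nonneg (sq_nonneg _) (hVS n hn).le
  obtain ⟨c, hc⟩ : ∃ c : ℕ → ℂ, ∀ n, c n = ∑ j ∈ J, (starRingEnd ℂ) (b j) * φ n j := ⟨_, fun _ => rfl⟩
  -- the first identity
  have h1 : (Z : ℂ) = ∑ n ∈ S, y n * c n := by
    rw [hZ]
    push_cast
    have h2 : ∀ j ∈ J, ((‖b j‖ : ℂ)) ^ 2 = ∑ n ∈ S, y n * ((starRingEnd ℂ) (b j) * φ n j) := by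
      intro j _
      have h3 : ((‖b j‖ : ℂ)) ^ 2 = b j * (starRingEnd ℂ) (b j) := by
        rw [Complex.mul_conj, Complex.normSq_eq_norm_sq]; push_cast; rfl
      rw [h3]
      nth_rewrite 1 [hb j]
      rw [sum_mul]
      apply sum_congr rfl
      intro n _
      ring
    rw [sum_congr rfl h2, sum_comm]
    apply sum_congr rfl
    intro n _
    rw [hc, mul_sum]
  have h2 : Z ≤ ∑ n ∈ S, ‖y n‖ * ‖c n‖ := by
    have h3 : ‖(Z : ℂ)‖ = Z := by rw [Complex.norm_real, Real.norm_eq_abs, abs_of_nonneg hZ0]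
    rw [← h3, h1]
    refine (norm_sum_le _ _).trans (sum_le_sum fun n _ => ?_)
    rw [norm_mul]
  have h3 : Z ^ 2 ≤ R * ∑ n ∈ S, V n * ‖c n‖ ^ 2 := by
    have h4 : Z ^ 2 ≤ (∑ n ∈ S, ‖y n‖ * ‖c n‖) ^ 2 := pow_le_pow_left₀ hZ0 h2 2
    refine h4.trans ?_
    rw [hR]
    apply Finset.sum_sq_le_sum_mul_sum_of_sq_le_mul
    · intro n hn; exact div_nonneg (sq_nonneg _) (hVS n hn).le
    · intro n hn; exact mul_nonneg (hVS n hn).le (sq_nonneg _)
    · intro n hn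
      have := hVS n hn
      apply le_of_eq
      field_simp
  have h4 : ∑ n ∈ S, V n * ‖c n‖ ^ 2 ≤ ∑ n ∈ S', V n * ‖c n‖ ^ 2 :=
    sum_le_sum_of_subset_of_nonneg hSS fun n hn _ => mul_nonneg (hV n hn) (sq_nonneg _)
  have h5 : ∑ n ∈ S', V n * ‖c n‖ ^ 2 ≤ Z * Q := by
    have h6 : ((∑ n ∈ S', V n * ‖c n‖ ^ 2 : ℝ) : ℂ) =
        ∑ j ∈ J, ∑ j' ∈ J, ((starRingEnd ℂ) (b j) * b j') * ∑ n ∈ S', (V n : ℂ) * (φ n j * (starRingEnd ℂ) (φ n j')) := by
      push_cast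
      have h7 : ∀ n ∈ S', (V n : ℂ) * (‖c n‖ : ℂ) ^ 2 =
          ∑ j ∈ J, ∑ j' ∈ J, ((starRingEnd ℂ) (b j) * b j') * ((V n : ℂ) * (φ n j * (starRingEnd ℂ) (φ n j'))) := by
        intro n _
        have h3 : ((‖c n‖ : ℂ)) ^ 2 = c n * (starRingEnd ℂ) (c n) := by
          rw [Complex.mul_conj, Complex.normSq_eq_norm_sq]; push_cast; rfl
        rw [h3, hc, map_sum, sum_mul_sum, mul_sum]
        apply sum_congr rfl
        intro j _
        rw [mul_sum]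
        apply sum_congr rfl
        intro j' _
        rw [map_mul, Complex.conj_conj]
        ring
      rw [sum_congr rfl h7, sum_comm]
      apply sum_congr rfl
      intro j _
      rw [sum_comm]
      apply sum_congr rfl
      intro j' _
      rw [mul_sum]
    have h8 : 0 ≤ ∑ n ∈ S', V n * ‖c n‖ ^ 2 := sum_nonneg fun n hn => mul_nonneg (hV n hn) (sq_nonneg _)
    have h9 : ∑ n ∈ S', V n * ‖c n‖ ^ 2 = ‖((∑ n ∈ S', V n * ‖c n‖ ^ 2 : ℝ) : ℂ)‖ := by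
      rw [Complex.norm_real, Real.norm_eq_abs, abs_of_nonneg h8]
    rw [h9, h6]
    obtain ⟨k, hk⟩ : ∃ k : ℤ → ℤ → ℝ, ∀ j j', k j j' = ‖∑ n ∈ S', (V n : ℂ) * (φ n j * (starRingEnd ℂ) (φ n j'))‖ := ⟨_, fun _ _ => rfl⟩
    have hksymm : ∀ j j', k j j' = k j' j := by
      intro j j'
      rw [hk, hk, ← Complex.norm_conj, map_sum]
      congr 1
      apply sum_congr rfl
      intro n _
      rw [map_mul, map_mul, Complex.conj_conj, Complex.conj_ofReal]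
      ring
    have h10 : ‖∑ j ∈ J, ∑ j' ∈ J, ((starRingEnd ℂ) (b j) * b j') * ∑ n ∈ S', (V n : ℂ) * (φ n j * (starRingEnd ℂ) (φ n j'))‖ ≤
        ∑ j ∈ J, ∑ j' ∈ J, (‖b j‖ ^ 2 / 2 * k j j' + ‖b j'‖ ^ 2 / 2 * k j j') := by
      refine (norm_sum_le _ _).trans (sum_le_sum fun j _ => ?_)
      refine (norm_sum_le _ _).trans (sum_le_sum fun j' _ => ?_)
      rw [norm_mul, norm_mul, Complex.norm_conj, ← hk]
      have h11 : 0 ≤ k j j' := by rw [hk]; exact norm_nonneg _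
      have h12 : ‖b j‖ * ‖b j'‖ ≤ ‖b j‖ ^ 2 / 2 + ‖b j'‖ ^ 2 / 2 := by nlinarith [sq_nonneg (‖b j‖ - ‖b j'‖)]
      calc ‖b j‖ * ‖b j'‖ * k j j' ≤ (‖b j‖ ^ 2 / 2 + ‖b j'‖ ^ 2 / 2) * k j j' := mul_le_mul_of_nonneg_right h12 h11
        _ = _ := by ring
    refine h10.trans ?_
    simp_rw [sum_add_distrib]
    have h13 : ∑ j ∈ J, ∑ j' ∈ J, ‖b j'‖ ^ 2 / 2 * k j j' = ∑ j ∈ J, ∑ j' ∈ J, ‖b j‖ ^ 2 / 2 * k j j' := by
      rw [sum_comm]
      apply sum_congr rfl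
      intro j _
      apply sum_congr rfl
      intro j' _
      rw [hksymm]
    rw [h13]
    have h14 : ∑ j ∈ J, ∑ j' ∈ J, ‖b j‖ ^ 2 / 2 * k j j' ≤ ∑ j ∈ J, ‖b j‖ ^ 2 / 2 * Q := by
      apply sum_le_sum
      intro j hj
      rw [← mul_sum]
      apply mul_le_mul_of_nonneg_left _ (by positivity)
      simp_rw [hk]
      exact hQ j hj
    have h15 : ∑ j ∈ J, ‖b j‖ ^ 2 / 2 * Q = Z * Q / 2 := by
      rw [hZ, ← sum_mul, ← sum_div]
      ring
    linarith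
  have h6 : Z ^ 2 ≤ R * (Z * Q) := h3.trans (mul_le_mul_of_nonneg_left (h4.trans h5) hR0)
  by_cases hZ1 : Z = 0
  · rw [hZ1]; positivity
  · have hZ2 : 0 < Z := lt_of_le_of_ne hZ0 (Ne.symm hZ1)
    have h7 : Z * Z ≤ Z * (R * Q) := by nlinarith
    exact le_of_mul_le_mul_left h7 hZ2

lemma sum_Icc_int (f : ℤ → ℝ) (hf : ∀ m, 0 ≤ f m) (D : ℕ) :
    ∑ m ∈ Icc (-(D : ℤ)) D, f m ≤ ∑ d ∈ range (D + 1), (f d + f (-d)) := by
  induction D with
  | zero => simp; exact hf 0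
  | succ D ih =>
    rw [sum_range_succ]
    have h : Icc (-((D + 1 : ℕ) : ℤ)) ((D + 1 : ℕ) : ℤ) =
        insert (((D + 1 : ℕ) : ℤ)) (insert (-((D + 1 : ℕ) : ℤ)) (Icc (-(D : ℤ)) D)) := by
      ext m
      simp only [mem_Icc, mem_insert]
      push_cast
      omega
    rw [h, sum_insert, sum_insert]
    · linarith
    · simp
    · simp only [mem_insert, mem_Icc, not_or]
      push_cast
      constructor <;> omega

lemma harm_bd (D : ℕ) : ∑ d ∈ range (D + 1), 1 / (1 + (d : ℝ)) ≤ 1 + Real.log (D + 1) := by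
  have h := harmonic_le_one_add_log (D + 1)
  have h2 : ((harmonic (D + 1) : ℚ) : ℝ) = ∑ d ∈ range (D + 1), 1 / (1 + (d : ℝ)) := by
    unfold harmonic
    push_cast
    apply sum_congr rfl
    intro d _
    rw [one_div, add_comm]
  rw [h2] at h
  exact_mod_cast h

lemma sum_inv_J (J : Finset ℤ) (T : ℝ) (hT : 1 ≤ T) (hJ : ∀ j ∈ J, |(j : ℝ)| ≤ T) (j : ℤ) (hj : j ∈ J) :
    ∑ j' ∈ J, 1 / (1 + |(j : ℝ) - j'|) ≤ 2 * (1 + Real.log (2 * T + 1)) := by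
  obtain ⟨D, hD⟩ : ∃ D : ℕ, D = ⌊2 * T⌋₊ := ⟨_, rfl⟩
  have hD1 : (D : ℝ) ≤ 2 * T := by rw [hD]; exact Nat.floor_le (by linarith)
  have hD2 : 2 * T < (D : ℝ) + 1 := by rw [hD]; exact Nat.lt_floor_add_one _
  have e : ∑ j' ∈ J, 1 / (1 + |(j : ℝ) - j'|) = ∑ m ∈ J.image (fun j' => j - j'), 1 / (1 + |(m : ℝ)|) := by
    rw [sum_image]
    · simp only [Int.cast_sub]
    · intro a _ b _ hab
      simp only at hab
      omega
  have h1 : ∑ j' ∈ J, 1 / (1 + |(j : ℝ) - j'|) ≤ ∑ m ∈ Icc (-(D : ℤ)) D, 1 / (1 + |(m : ℝ)|) := by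
    rw [e]
    apply sum_le_sum_of_subset_of_nonneg
    · intro m hm
      rw [mem_image] at hm
      obtain ⟨j', hj', rfl⟩ := hm
      have h2 := abs_le.1 (hJ j hj)
      have h3 := abs_le.1 (hJ j' hj')
      rw [mem_Icc]
      constructor
      · by_contra h4
        push Not at h4
        have h5 : j - j' + 1 ≤ -(D : ℤ) := by omega
        have h6 : ((j - j' + 1 : ℤ) : ℝ) ≤ ((-(D : ℤ) : ℤ) : ℝ) := by exact_mod_cast h5
        push_cast at h6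
        linarith
      · by_contra h4
        push Not at h4
        have h5 : (D : ℤ) + 1 ≤ j - j' := by omega
        have h6 : (((D : ℤ) + 1 : ℤ) : ℝ) ≤ ((j - j' : ℤ) : ℝ) := by exact_mod_cast h5
        push_cast at h6
        linarith
    · intro m _ _
      positivity
  have h2 := sum_Icc_int (fun m : ℤ => 1 / (1 + |(m : ℝ)|)) (fun m => by positivity) D
  have h3 : ∑ d ∈ range (D + 1), (1 / (1 + |((d : ℤ) : ℝ)|) + 1 / (1 + |((-(d : ℤ) : ℤ) : ℝ)|)) =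
      2 * ∑ d ∈ range (D + 1), 1 / (1 + (d : ℝ)) := by
    rw [mul_sum]
    apply sum_congr rfl
    intro d _
    push_cast
    rw [abs_neg, abs_of_nonneg (Nat.cast_nonneg (α := ℝ) d)]
    ring
  rw [h3] at h2
  have h4 := harm_bd D
  have h5 : Real.log ((D : ℝ) + 1) ≤ Real.log (2 * T + 1) := Real.log_le_log (by positivity) (by linarith)
  linarith

lemma er_conj (τ τ' x : ℝ) : er τ x * (starRingEnd ℂ) (er τ' x) = er (τ - τ') x := by
  unfold Pool.Agent.H376R2.MR.er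
  rw [← Complex.exp_conj, ← Complex.exp_add]
  congr 1
  simp only [map_mul, Complex.conj_ofReal, Complex.conj_I]
  push_cast
  ring

lemma II_one {g : ℝ → ℝ} (hg : Wd g) (v τ : ℝ) : ‖II g v τ‖ ≤ 16 * (1 / (1 + |τ|)) := by
  have h0 := abs_nonneg τ
  rw [mul_one_div]
  by_cases h : 4 ≤ |τ|
  · refine (II_bound hg v τ h).trans ?_
    rw [div_le_div_iff₀ (by linarith) (by linarith)]
    linarith
  · push Not at h
    refine (II_le hg v τ).trans ?_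
    rw [le_div_iff₀ (by linarith)]
    linarith

/-- five tents -/
noncomputable def g5 (x : ℝ) : ℝ := ∑ i ∈ range 5, tw (x - ((i : ℝ) - 2))

lemma g5_nonneg (x : ℝ) : 0 ≤ g5 x := sum_nonneg fun _ _ => le_max_left _ _

lemma g5_eq (x : ℝ) : g5 x = ∑ i ∈ range 5, tw ((x + 2) - i) := by
  unfold g5
  apply sum_congr rfl
  intro i _
  congr 1
  ring

lemma g5_one (x : ℝ) (hx : |x| ≤ 2) : g5 x = 1 := by
  obtain ⟨h1, h2⟩ := abs_le.1 hx
  rw [g5_eq, part_unity _ (by linarith)]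
  push_cast
  rw [min_eq_left (by linarith), max_eq_right (by norm_num)]

lemma g5_supp (x : ℝ) (hx : 3 ≤ |x|) : g5 x = 0 := by
  unfold g5
  apply sum_eq_zero
  intro i hi
  rw [mem_range] at hi
  unfold Pool.Agent.H376R2.MR.w
  apply max_eq_left
  have h1 : (i : ℝ) ≤ 4 := by exact_mod_cast (by omega : i ≤ 4)
  have h0 : (0 : ℝ) ≤ i := Nat.cast_nonneg i
  rcases le_abs'.1 hx with h | h
  · have : x - ((i : ℝ) - 2) ≤ -1 := by linarith
    rw [abs_of_nonpos (by linarith)]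
    linarith
  · have : 1 ≤ x - ((i : ℝ) - 2) := by linarith
    rw [abs_of_nonneg (by linarith)]
    linarith

lemma g5_le (x : ℝ) : g5 x ≤ 1 := by
  by_cases h : -2 ≤ x
  · rw [g5_eq]
    exact part_le _ (by linarith) _
  · push Not at h
    rw [g5_eq]
    have h1 : ∀ i ∈ range 4, tw ((x + 2) - ((i + 1 : ℕ) : ℝ)) = 0 := by
      intro i _
      apply tw_supp
      push_cast
      rw [abs_of_nonpos (by linarith [Nat.cast_nonneg (α := ℝ) i])]
      linarith [Nat.cast_nonneg (α := ℝ) i]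
    rw [sum_range_succ', sum_eq_zero h1, zero_add]
    exact tw_le _

lemma SS_ext {g : ℝ → ℝ} (hg : Wd g) (v τ : ℝ) (N : ℕ) (hN : ⌊Real.exp (v + 1)⌋₊ ≤ N) :
    ∑ n ∈ Icc 1 N, ((g (Real.log n - v) / n : ℝ) : ℂ) * er τ (Real.log n) = SS g v τ := by
  unfold SS
  symm
  apply sum_subset (Icc_subset_Icc le_rfl hN)
  intro n hn hn2
  rw [mem_Icc] at hn
  have h1 : ⌊Real.exp (v + 1)⌋₊ < n := by
    by_contra h
    exact hn2 (mem_Icc.2 ⟨hn.1, by omega⟩)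
  have hn0 : (0 : ℝ) < n := by exact_mod_cast hn.1
  have h2 : Real.exp (v + 1) < n := (Nat.floor_lt (Real.exp_pos _).le).1 h1
  have h3 : v + 1 ≤ Real.log n := by
    rw [Real.le_log_iff_exp_le hn0]; exact h2.le
  rw [hg.supp _ (by rw [abs_of_nonneg] <;> linarith)]
  simp

/-- the kernel of the majorant -/
lemma ker_eq (v τ : ℝ) (N : ℕ) (hN : Real.exp (v + 3) ≤ N) :
    ∑ n ∈ Icc 1 N, ((g5 (Real.log n - v) / n : ℝ) : ℂ) * er τ (Real.log n) = ∑ i ∈ range 5, SS tw (v + ((i : ℝ) - 2)) τ := by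
  have h : ∀ i ∈ range 5, SS tw (v + ((i : ℝ) - 2)) τ =
      ∑ n ∈ Icc 1 N, ((tw (Real.log n - (v + ((i : ℝ) - 2))) / n : ℝ) : ℂ) * er τ (Real.log n) := by
    intro i hi
    rw [mem_range] at hi
    symm
    apply SS_ext tw_wd
    have h1 : (i : ℝ) ≤ 4 := by exact_mod_cast (by omega : i ≤ 4)
    have h2 : Real.exp (v + ((i : ℝ) - 2) + 1) ≤ N := (Real.exp_le_exp.2 (by linarith)).trans hN
    exact (Nat.floor_mono h2).trans (by simp)
  rw [sum_congr rfl h, sum_comm]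
  apply sum_congr rfl
  intro n _
  unfold g5
  rw [← sum_mul, sum_div]
  push_cast
  congr 1
  apply sum_congr rfl
  intro i _
  congr 3
  ring

/-- **Duality** for a sparse set of frequencies -/
theorem dual_win (M : ℕ) : ∃ η C : ℝ, 0 < η ∧ η ≤ 1 / 2 ∧ 1 ≤ C ∧ ∀ (v s T : ℝ) (J : Finset ℤ) (S : Finset ℕ) (y : ℕ → ℂ),
    6 ≤ v → 1 ≤ T → (∀ j ∈ J, |(j : ℝ)| ≤ T) → 2 * T ≤ Real.exp (M * (v - 2)) → (∀ n ∈ S, 1 ≤ n ∧ |Real.log n - v| ≤ 2) →
    ∑ j ∈ J, ‖∑ n ∈ S, y n * er (j + s) (Real.log n)‖ ^ 2 ≤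
      (∑ n ∈ S, (n : ℝ) * ‖y n‖ ^ 2) * (C * (1 + Real.log (2 * T + 1) + J.card * Real.exp (-(η * v)))) := by
  obtain ⟨η, C, hη, hη1, hC, ht1⟩ := type_one M
  refine ⟨η, 5 * (32 + C * Real.exp 1), hη, hη1, ?_, ?_⟩
  · have := Real.exp_pos 1
    nlinarith
  intro v s T J S y hv hT hJ hTe hS
  obtain ⟨N, hN⟩ : ∃ N : ℕ, N = ⌈Real.exp (v + 3)⌉₊ := ⟨_, rfl⟩
  have hN1 : Real.exp (v + 3) ≤ N := by rw [hN]; exact Nat.le_ceil _
  have hlogT : 0 ≤ Real.log (2 * T + 1) := Real.log_nonneg (by linarith)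
  have key := dual_abs (Icc 1 N) S (by
    intro n hn
    obtain ⟨h1, h2⟩ := hS n hn
    have hn0 : (0 : ℝ) < n := by exact_mod_cast h1
    rw [mem_Icc]
    refine ⟨h1, ?_⟩
    have h3 : (n : ℝ) ≤ Real.exp (v + 3) := by
      rw [← Real.log_le_iff_le_exp hn0]
      linarith [(abs_le.1 h2).2]
    exact_mod_cast h3.trans hN1) (fun n => g5 (Real.log n - v) / n)
    (fun n _ => div_nonneg (g5_nonneg _) (Nat.cast_nonneg n)) (by
      intro n hn
      obtain ⟨h1, h2⟩ := hS n hn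
      have hn0 : (0 : ℝ) < n := by exact_mod_cast h1
      rw [g5_one _ h2]
      positivity) J (fun n j => er (j + s) (Real.log n))
    (5 * (32 + C * Real.exp 1) * (1 + Real.log (2 * T + 1) + J.card * Real.exp (-(η * v)))) (by positivity) ?_ y
  · refine key.trans (le_of_eq ?_)
    congr 1
    apply sum_congr rfl
    intro n hn
    obtain ⟨h1, h2⟩ := hS n hn
    have hn0 : (0 : ℝ) < n := by exact_mod_cast h1
    rw [g5_one _ h2]
    field_simp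
  · intro j hj
    have h1 : ∀ j' ∈ J, ‖∑ n ∈ Icc 1 N, ((g5 (Real.log n - v) / n : ℝ) : ℂ) * (er (j + s) (Real.log n) *
        (starRingEnd ℂ) (er (j' + s) (Real.log n)))‖ ≤ 5 * (16 * (1 / (1 + |(j : ℝ) - j'|)) + C * (Real.exp 1 * Real.exp (-(η * v)))) := by
      intro j' hj'
      have h2 : ∑ n ∈ Icc 1 N, ((g5 (Real.log n - v) / n : ℝ) : ℂ) * (er (j + s) (Real.log n) *
        (starRingEnd ℂ) (er (j' + s) (Real.log n))) = ∑ i ∈ range 5, SS tw (v + ((i : ℝ) - 2)) ((j : ℝ) - j') := by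
        rw [← ker_eq v _ N hN1]
        apply sum_congr rfl
        intro n _
        rw [er_conj]
        congr 2
        ring
      rw [h2]
      refine (norm_sum_le _ _).trans ?_
      have h3 : ∀ i ∈ range 5, ‖SS tw (v + ((i : ℝ) - 2)) ((j : ℝ) - j')‖ ≤
          16 * (1 / (1 + |(j : ℝ) - j'|)) + C * (Real.exp 1 * Real.exp (-(η * v))) := by
        intro i _
        have hi0 : (0 : ℝ) ≤ i := Nat.cast_nonneg i
        have h4 := ht1 tw tw_wd (v + ((i : ℝ) - 2)) ((j : ℝ) - j') (by linarith) (by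
          have h5 : |(j : ℝ) - j'| ≤ 2 * T := by
            refine (abs_sub _ _).trans ?_
            linarith [hJ j hj, hJ j' hj']
          refine h5.trans (hTe.trans ?_)
          apply Real.exp_le_exp.2
          apply mul_le_mul_of_nonneg_left _ (Nat.cast_nonneg _)
          linarith)
        have h5 := II_one tw_wd (v + ((i : ℝ) - 2)) ((j : ℝ) - j')
        have h6 : Real.exp (-(η * (v + ((i : ℝ) - 2)))) ≤ Real.exp 1 * Real.exp (-(η * v)) := by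
          rw [← Real.exp_add]
          apply Real.exp_le_exp.2
          nlinarith
        have h7 : ‖SS tw (v + ((i : ℝ) - 2)) ((j : ℝ) - j')‖ ≤ ‖SS tw (v + ((i : ℝ) - 2)) ((j : ℝ) - j') - II tw (v + ((i : ℝ) - 2)) ((j : ℝ) - j')‖ +
            ‖II tw (v + ((i : ℝ) - 2)) ((j : ℝ) - j')‖ := by
          have := norm_add_le (SS tw (v + ((i : ℝ) - 2)) ((j : ℝ) - j') - II tw (v + ((i : ℝ) - 2)) ((j : ℝ) - j')) (II tw (v + ((i : ℝ) - 2)) ((j : ℝ) - j'))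
          rwa [sub_add_cancel] at this
        have h8 := mul_le_mul_of_nonneg_left h6 hC.le
        linarith
      refine (sum_le_sum h3).trans ?_
      rw [sum_const, card_range, nsmul_eq_mul]
      push_cast
      linarith
    refine (sum_le_sum h1).trans ?_
    rw [← mul_sum, sum_add_distrib, ← mul_sum, sum_const, nsmul_eq_mul]
    have h2 := sum_inv_J J T hT hJ j hj
    have h3 : (0 : ℝ) ≤ J.card * Real.exp (-(η * v)) := by positivity
    have h4 := Real.exp_pos 1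
    have h5 : 0 ≤ C * Real.exp 1 * (1 + Real.log (2 * T + 1)) := by positivity
    calc 5 * (16 * ∑ i ∈ J, 1 / (1 + |(j : ℝ) - i|) + (J.card : ℝ) * (C * (Real.exp 1 * Real.exp (-(η * v))))) ≤
        5 * (16 * (2 * (1 + Real.log (2 * T + 1))) + (J.card : ℝ) * (C * (Real.exp 1 * Real.exp (-(η * v))))) := by gcongr
      _ ≤ 5 * (32 + C * Real.exp 1) * (1 + Real.log (2 * T + 1) + J.card * Real.exp (-(η * v))) := by nlinarith

end Pool.Agent.H15.QP
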