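import Pool.Graph.R_seed8.H376R2.MR.Mv
import Pool.Graph.R_seed8.H376R2.MR.Smoo
import Pool.Graph.R_seed8.H376R2.MR.Kern

/-! The polynomial over a set of primes and the number of its large values. -/

set_option autoImplicit false

namespace Pool.Agent.H15.QP
open Finset
open Pool.Agent.H376R2.MR (er ch DP FK ge mv smoo_ge_le kern_er_norm kern_er_add kern_er_cont)

/-- `∑ w_a a^{-iτ}` -/
noncomputable def AP (A : Finset ℕ) (w : ℕ → ℝ) (τ : ℝ) : ℂ := ∑ a ∈ A, (w a : ℂ) * er τ (-Real.log a)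

lemma er_prod (τ : ℝ) {ℓ : ℕ} (p : Fin ℓ → ℕ) (hp : ∀ i, 0 < p i) :
    ∏ i, er τ (-Real.log (p i)) = er τ (-Real.log ((∏ i, p i : ℕ) : ℝ)) := by
  have h1 : Real.log ((∏ i, p i : ℕ) : ℝ) = ∑ i, Real.log (p i : ℝ) := by
    push_cast
    rw [Real.log_prod]
    intro i _
    have := hp i
    positivity
  rw [h1]
  have : ∀ s : Finset (Fin ℓ), ∏ i ∈ s, er τ (-Real.log (p i)) = er τ (-∑ i ∈ s, Real.log (p i)) := by
    intro s
    induction s using Finset.cons_induction with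
    | empty => simp [Pool.Agent.H376R2.MR.er]
    | cons a s ha ih => rw [Finset.prod_cons, Finset.sum_cons, neg_add, kern_er_add, ih]
  exact this _

lemma er_shift (k : ℤ) (s x : ℝ) : er (k + s) (-x) = ch k x * er s (-x) := by
  unfold Pool.Agent.H376R2.MR.er Pool.Agent.H376R2.MR.ch
  rw [← Complex.exp_add]
  congr 1
  push_cast
  ring

/-- the coefficients of the power -/
noncomputable def cp (A : Finset ℕ) (w : ℕ → ℝ) (s : ℝ) (ℓ n : ℕ) : ℂ :=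
  ∑ p ∈ (Fintype.piFinset (fun _ : Fin ℓ => A)).filter (fun p => ∏ i, p i = n), ((∏ i, w (p i) : ℝ) : ℂ) * er s (-Real.log n)

lemma cp_le (A : Finset ℕ) (w : ℕ → ℝ) (s : ℝ) (ℓ n : ℕ) (hw : ∀ a ∈ A, |w a| ≤ 1) : ‖cp A w s ℓ n‖ ≤ ge A ℓ n := by
  unfold cp ge
  refine (norm_sum_le _ _).trans ?_
  have h : ∀ p ∈ (Fintype.piFinset (fun _ : Fin ℓ => A)).filter (fun p => ∏ i, p i = n),
      ‖((∏ i, w (p i) : ℝ) : ℂ) * er s (-Real.log n)‖ ≤ 1 := by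
    intro p hp
    rw [mem_filter, Fintype.mem_piFinset] at hp
    rw [norm_mul, kern_er_norm, mul_one, Complex.norm_real, Real.norm_eq_abs, abs_prod]
    exact prod_le_one (fun _ _ => abs_nonneg _) (fun i _ => hw _ (hp.1 i))
  refine (sum_le_sum h).trans (le_of_eq ?_)
  rw [sum_const, nsmul_eq_mul, mul_one]

lemma AP_pow (A : Finset ℕ) (hA : ∀ a ∈ A, a.Prime) (w : ℕ → ℝ) (s : ℝ) (ℓ : ℕ) (k : ℤ) :
    AP A w (k + s) ^ ℓ = DP ((Fintype.piFinset (fun _ : Fin ℓ => A)).image (fun p => ∏ i, p i)) (cp A w s ℓ) k := by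
  unfold AP
  rw [Finset.sum_pow']
  unfold DP
  rw [← Finset.sum_fiberwise_of_maps_to (g := fun p : Fin ℓ → ℕ => ∏ i, p i)
    (fun p hp => Finset.mem_image_of_mem _ hp)]
  apply Finset.sum_congr rfl
  intro n _
  unfold cp
  rw [sum_mul]
  apply sum_congr rfl
  intro p hp
  rw [mem_filter, Fintype.mem_piFinset] at hp
  rw [prod_mul_distrib, er_prod _ p (fun i => (hA _ (hp.1 i)).pos), hp.2, er_shift]
  push_cast
  ring

/-- few frequencies are large -/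
theorem large_values : ∃ C : ℝ, 0 < C ∧ ∀ (A : Finset ℕ) (w : ℕ → ℝ) (P s t : ℝ) (ℓ K : ℕ), 1 ≤ P → 1 ≤ K → 0 ≤ t →
    (∀ a ∈ A, a.Prime ∧ (a : ℝ) ≤ P) → (∀ a ∈ A, |w a| ≤ 1) →
    (((FK K).filter (fun k : ℤ => t ≤ ‖AP A w (k + s)‖)).card : ℝ) * t ^ (2 * ℓ) ≤
      C * (1 + ℓ * Real.log P) * (P ^ ℓ + K) * (ℓ.factorial * (A.card : ℝ) ^ ℓ) := by
  obtain ⟨C, hC, hmv⟩ := mv
  refine ⟨C, hC, fun A w P s t ℓ K hP hK ht hA hw => ?_⟩
  have hprime : ∀ a ∈ A, a.Prime := fun a ha => (hA a ha).1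
  have hlogP : 0 ≤ Real.log P := Real.log_nonneg hP
  set T := (Fintype.piFinset (fun _ : Fin ℓ => A)).image (fun p => ∏ i, p i) with hT
  have hmem : ∀ n ∈ T, (1 : ℝ) ≤ (n : ℝ) ∧ (n : ℝ) ≤ P ^ ℓ := by
    intro n hn
    rw [hT, mem_image] at hn
    obtain ⟨p, hp, rfl⟩ := hn
    rw [Fintype.mem_piFinset] at hp
    constructor
    · have : 0 < ∏ i, p i := prod_pos fun i _ => (hprime _ (hp i)).pos
      exact_mod_cast this
    · push_cast
      calc ∏ i, (p i : ℝ) ≤ ∏ _i : Fin ℓ, P := prod_le_prod (fun i _ => Nat.cast_nonneg _) (fun i _ => (hA _ (hp i)).2)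
        _ = P ^ ℓ := by simp
  have hm := hmv T (cp A w s ℓ) 1 (P ^ ℓ) K le_rfl (one_le_pow₀ hP) hmem hK
  have hlog : Real.log (P ^ ℓ / 1) = ℓ * Real.log P := by rw [div_one, Real.log_pow]
  rw [hlog] at hm
  have h1 : (((FK K).filter (fun k : ℤ => t ≤ ‖AP A w (k + s)‖)).card : ℝ) * t ^ (2 * ℓ) ≤
      ∑ k ∈ FK K, ‖DP T (cp A w s ℓ) k‖ ^ 2 := by
    have h2 : ∀ k : ℤ, ‖DP T (cp A w s ℓ) k‖ ^ 2 = ‖AP A w (k + s)‖ ^ (2 * ℓ) := by
      intro k
      rw [hT, ← AP_pow A hprime w s ℓ k, norm_pow, ← pow_mul, mul_comm]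
    simp_rw [h2]
    rw [← nsmul_eq_mul, ← sum_const]
    refine le_trans ?_ (sum_le_sum_of_subset_of_nonneg (filter_subset (fun k : ℤ => t ≤ ‖AP A w (k + s)‖) _) (fun _ _ _ => by positivity))
    apply sum_le_sum
    intro k hk
    rw [mem_filter] at hk
    exact pow_le_pow_left₀ ht hk.2 _
  refine h1.trans (hm.trans ?_)
  rw [mul_assoc (C * (1 + ℓ * Real.log P))]
  apply mul_le_mul_of_nonneg_left _ (by positivity)
  have hPK : (0 : ℝ) ≤ P ^ ℓ + K := by positivity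
  have h3 : ∑ n ∈ T, ‖cp A w s ℓ n‖ ^ 2 * ((n : ℝ) + K) ≤ ∑ n ∈ T, (P ^ ℓ + K) * (ℓ.factorial * (ge A ℓ n : ℝ)) := by
    apply sum_le_sum
    intro n hn
    have h4 := cp_le A w s ℓ n hw
    have h5 : (ge A ℓ n : ℝ) ≤ ℓ.factorial := by exact_mod_cast smoo_ge_le A hprime ℓ n
    have h6 : ‖cp A w s ℓ n‖ ^ 2 ≤ ℓ.factorial * (ge A ℓ n : ℝ) := by
      rw [pow_two]
      exact mul_le_mul (h4.trans h5) h4 (norm_nonneg _) (Nat.cast_nonneg _)
    have h7 := (hmem n hn).2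
    rw [mul_comm]
    apply mul_le_mul (by linarith) h6 (by positivity) hPK
  refine h3.trans ?_
  rw [← mul_sum, ← mul_sum]
  apply mul_le_mul_of_nonneg_left _ hPK
  apply mul_le_mul_of_nonneg_left _ (Nat.cast_nonneg _)
  have h8 : ∑ n ∈ T, (ge A ℓ n : ℝ) = (A.card : ℝ) ^ ℓ := by
    have h9 : ∑ n ∈ T, ge A ℓ n = (Fintype.piFinset (fun _ : Fin ℓ => A)).card := by
      unfold ge
      rw [← card_eq_sum_card_image]
    have h10 : (Fintype.piFinset (fun _ : Fin ℓ => A)).card = A.card ^ ℓ := by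
      rw [Fintype.card_piFinset]; simp
    rw [h10] at h9
    exact_mod_cast h9
  exact h8.le

end Pool.Agent.H15.QP
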