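import Pool.Agent.H15.QP.DS
import Pool.Agent.H15.QP.Mom

/-! The energy of the primes against the model. -/

set_option autoImplicit false

namespace Pool.Agent.H15.QP
open Finset MeasureTheory
open Pool.Agent.H376R2.MR (er kern_er_norm kern_er_add kern_er_cont smoo_icc)
open Pool.Agent.H376R2.MR renaming w → tw
open Pool.Agent.Y851.HZ
open ArithmeticFunction (vonMangoldt moebius)

lemma recip {x y : ℝ} (hx : 0 < x) (hxy : x ≤ y) (s : Finset ℕ)
    (hs : ∀ n ∈ s, 1 ≤ n ∧ x ≤ (n : ℝ) ∧ (n : ℝ) ≤ y) :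
    ∑ n ∈ s, 1 / (n : ℝ) ≤ 1 / x + Real.log (y / x) := by
  have hlog : 0 ≤ Real.log (y / x) := Real.log_nonneg (by rwa [le_div_iff₀ hx, one_mul])
  rcases s.eq_empty_or_nonempty with he | ⟨n₀, hn₀⟩
  · rw [he]; simp; positivity
  · set a := max 1 ⌈x⌉₊ with ha
    set b := ⌊y⌋₊ with hb
    have hy : 0 ≤ y := le_trans hx.le hxy
    have hsub : s ⊆ Icc a b := by
      intro n hn
      obtain ⟨h1, h2, h3⟩ := hs n hn
      rw [mem_Icc]
      exact ⟨max_le h1 (Nat.ceil_le.mpr h2), Nat.le_floor h3⟩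
    have h0 := mem_Icc.mp (hsub hn₀)
    have hab : a ≤ b := h0.1.trans h0.2
    have ha1 : 1 ≤ a := le_max_left _ _
    have ha1' : (1 : ℝ) ≤ a := by exact_mod_cast ha1
    have hax : x ≤ (a : ℝ) := le_trans (Nat.le_ceil x) (by exact_mod_cast le_max_right 1 ⌈x⌉₊)
    have hby : (b : ℝ) ≤ y := Nat.floor_le hy
    have hb0 : (0 : ℝ) < b := by exact_mod_cast lt_of_lt_of_le ha1 hab
    calc ∑ n ∈ s, 1 / (n : ℝ) ≤ ∑ n ∈ Icc a b, 1 / (n : ℝ) :=
          sum_le_sum_of_subset_of_nonneg hsub (fun _ _ _ => by positivity)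
      _ ≤ 1 / a + Real.log ((b : ℝ) / a) := smoo_icc ha1 hab
      _ ≤ 1 / x + Real.log (y / x) := by
          have h1 : 1 / (a : ℝ) ≤ 1 / x := one_div_le_one_div_of_le hx hax
          have h2 : Real.log ((b : ℝ) / a) ≤ Real.log (y / x) := by
            apply Real.log_le_log (by positivity)
            exact div_le_div₀ hy hby hx hax
          linarith

lemma recip_log (u r : ℝ) (hr : 0 ≤ r) (s : Finset ℕ) (hs : ∀ n ∈ s, 1 ≤ n ∧ |Real.log n - u| ≤ r) :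
    ∑ n ∈ s, 1 / (n : ℝ) ≤ Real.exp (r - u) + 2 * r := by
  have h := recip (x := Real.exp (u - r)) (y := Real.exp (u + r)) (Real.exp_pos _) (Real.exp_le_exp.2 (by linarith)) s (by
    intro n hn
    obtain ⟨h1, h2⟩ := hs n hn
    have hn0 : (0 : ℝ) < n := by exact_mod_cast h1
    rw [abs_le] at h2
    refine ⟨h1, ?_, ?_⟩
    · rw [← Real.le_log_iff_exp_le hn0]; linarith
    · rw [← Real.log_le_iff_le_exp hn0]; linarith)
  rw [← Real.exp_sub, Real.log_exp, one_div, ← Real.exp_neg] at h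
  rw [show r - u = -(u - r) by ring]
  linarith

lemma exp_small : Real.exp 4 ≤ 55 ∧ Real.exp 3 ≤ 21 := by
  have h1 := Real.exp_one_lt_d9
  have h0 := Real.exp_pos 1
  constructor
  · have : Real.exp 4 = Real.exp 1 ^ 4 := by rw [← Real.exp_nat_mul]; norm_num
    rw [this]
    have : Real.exp 1 ^ 4 ≤ 2.7182818286 ^ 4 := pow_le_pow_left₀ h0.le h1.le 4
    linarith [show (2.7182818286 : ℝ) ^ 4 ≤ 55 by norm_num]
  · have : Real.exp 3 = Real.exp 1 ^ 3 := by rw [← Real.exp_nat_mul]; norm_num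
    rw [this]
    have : Real.exp 1 ^ 3 ≤ 2.7182818286 ^ 3 := pow_le_pow_left₀ h0.le h1.le 3
    linarith [show (2.7182818286 : ℝ) ^ 3 ≤ 21 by norm_num]

/-- near pairs -/
lemma en_gen (V h A : ℝ) (hV : 0 ≤ V) (hh : 0 < h) (hh1 : h ≤ 1) (hA : 0 ≤ A) (S : Finset ℕ) (hS : ∀ n ∈ S, 1 ≤ n ∧ |Real.log n - V| ≤ 3)
    (a : ℕ → ℝ) (ha : ∀ n ∈ S, 0 ≤ a n ∧ a n ≤ A * (1 / n)) (l : ℕ → ℝ) (hl : ∀ n m, l n - l m = (Real.log n - Real.log m) / h) :
    ∑ n ∈ S, a n * ∑ m ∈ S, a m * tw (l n - l m) ≤ 1600 * A ^ 2 * (h + Real.exp (-V)) := by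
  classical
  obtain ⟨he4, he3⟩ := exp_small
  have hin : ∀ n ∈ S, ∑ m ∈ S, a m * tw (l n - l m) ≤ A * (55 * (h + Real.exp (-V))) := by
    intro n hn
    obtain ⟨hn1, hn2⟩ := hS n hn
    have h1 : ∑ m ∈ S, a m * tw (l n - l m) ≤ ∑ m ∈ S, if |Real.log m - Real.log n| ≤ h then A * (1 / (m : ℝ)) else 0 := by
      apply sum_le_sum
      intro m hm
      obtain ⟨hm1, hm2⟩ := ha m hm
      split_ifs with hc
      · calc a m * tw (l n - l m) ≤ a m * 1 := by
              gcongr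
              exact tw_le _
          _ ≤ _ := by rw [mul_one]; exact hm2
      · push Not at hc
        rw [tw_supp _ (by
          rw [hl, abs_div, abs_of_pos hh, le_div_iff₀ hh, abs_sub_comm]
          linarith), mul_zero]
    refine h1.trans ?_
    rw [← sum_filter, ← mul_sum]
    apply mul_le_mul_of_nonneg_left _ hA
    refine (recip_log (Real.log n) h hh.le _ (by
      intro m hm
      rw [mem_filter] at hm
      exact ⟨(hS m hm.1).1, hm.2⟩)).trans ?_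
    have h2 : Real.exp (h - Real.log n) ≤ 55 * Real.exp (-V) := by
      calc Real.exp (h - Real.log n) ≤ Real.exp (4 + -V) := Real.exp_le_exp.2 (by linarith [(abs_le.1 hn2).1])
        _ = Real.exp 4 * Real.exp (-V) := Real.exp_add _ _
        _ ≤ _ := by gcongr
    linarith
  have hX : 0 ≤ A * (55 * (h + Real.exp (-V))) := by positivity
  calc ∑ n ∈ S, a n * ∑ m ∈ S, a m * tw (l n - l m) ≤ ∑ n ∈ S, A * (1 / (n : ℝ)) * (A * (55 * (h + Real.exp (-V)))) := by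
        apply sum_le_sum
        intro n hn
        calc a n * ∑ m ∈ S, a m * tw (l n - l m) ≤ a n * (A * (55 * (h + Real.exp (-V)))) :=
              mul_le_mul_of_nonneg_left (hin n hn) (ha n hn).1
          _ ≤ _ := mul_le_mul_of_nonneg_right (ha n hn).2 hX
    _ = A * (∑ n ∈ S, 1 / (n : ℝ)) * (A * (55 * (h + Real.exp (-V)))) := by rw [← sum_mul, ← mul_sum]
    _ ≤ A * 27 * (A * (55 * (h + Real.exp (-V)))) := by
        gcongr
        refine (recip_log V 3 (by norm_num) S hS).trans ?_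
        have : Real.exp (3 - V) ≤ Real.exp 3 := Real.exp_le_exp.2 (by linarith)
        linarith
    _ = 1485 * A ^ 2 * (h + Real.exp (-V)) := by ring
    _ ≤ _ := by
        have : 0 ≤ A ^ 2 * (h + Real.exp (-V)) := by positivity
        nlinarith

/-- the mean square of the prime polynomial -/
lemma PQ_en (Y h : ℝ) (hY : 0 ≤ Y) (hh : 0 < h) (hh1 : h ≤ 1) :
    Integrable (fun ξ => kap ξ * ‖PQ Y (2 * Real.pi * ξ / h)‖ ^ 2) ∧
    ∫ ξ, kap ξ * ‖PQ Y (2 * Real.pi * ξ / h)‖ ^ 2 ≤ 1600 * (Y + 3) ^ 2 * (h + Real.exp (-Y)) := by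
  classical
  obtain ⟨S, hS⟩ : ∃ S, S = ((Icc 1 (NY Y)).filter Nat.Prime).filter (fun n : ℕ => |Real.log n - Y| ≤ 3) := ⟨_, rfl⟩
  have hSm : ∀ n ∈ S, 1 ≤ n ∧ |Real.log n - Y| ≤ 3 := by
    intro n hn
    rw [hS, mem_filter, mem_filter, mem_Icc] at hn
    exact ⟨hn.1.1.1, hn.2⟩
  obtain ⟨c, hc⟩ : ∃ c : ℕ → ℝ, ∀ p, c p = Real.log p * g5 (Real.log p - Y) / p := ⟨_, fun _ => rfl⟩
  have h1 : ∀ ξ : ℝ, PQ Y (2 * Real.pi * ξ / h) = TP S (fun p => (c p : ℂ)) (fun p => Real.log p / h) ξ := by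
    intro ξ
    unfold PQ TP
    rw [hS, sum_filter (p := fun n : ℕ => |Real.log n - Y| ≤ 3)]
    apply sum_congr rfl
    intro p _
    split_ifs with hp
    · simp only [hc]
      congr 1
      unfold Pool.Agent.H376R2.MR.er
      congr 2
      push_cast
      ring
    · push Not at hp
      rw [g5_supp _ hp.le]
      simp
  simp_rw [h1]
  refine ⟨TP_pow_int _ _ _ _, ?_⟩
  apply ms S _ _ (fun p => c p)
  · intro n hn
    obtain ⟨hn1, hn2⟩ := hSm n hn
    rw [Complex.norm_real, Real.norm_eq_abs, abs_of_nonneg]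
    rw [hc]
    have := g5_nonneg (Real.log n - Y)
    have := Real.log_natCast_nonneg n
    positivity
  · apply en_gen Y h (Y + 3) hY hh hh1 (by linarith) S hSm c _ _ (fun n m => by ring)
    intro n hn
    obtain ⟨hn1, hn2⟩ := hSm n hn
    have hn0 : (0 : ℝ) < n := by exact_mod_cast hn1
    have h2 := g5_nonneg (Real.log n - Y)
    have h3 := g5_le (Real.log n - Y)
    have h4 := Real.log_natCast_nonneg n
    have h5 : Real.log n ≤ Y + 3 := by linarith [(abs_le.1 hn2).2]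
    rw [hc]
    refine ⟨by positivity, ?_⟩
    calc Real.log n * g5 (Real.log n - Y) / n ≤ (Y + 3) * 1 / n := by gcongr
      _ = _ := by ring

/-- the mean square of the model -/
lemma MD_en (Y h : ℝ) (M : ℕ) (hY : 0 ≤ Y) (hh : 0 < h) (hh1 : h ≤ 1) :
    Integrable (fun ξ => kap ξ * ‖MD Y M (2 * Real.pi * ξ / h)‖ ^ 2) ∧
    ∫ ξ, kap ξ * ‖MD Y M (2 * Real.pi * ξ / h)‖ ^ 2 ≤ 1600 * (h + Real.exp (-Y)) := by
  classical
  have hlM : 0 ≤ Real.log M := Real.log_natCast_nonneg M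
  obtain ⟨S, hS⟩ : ∃ S, S = (Icc 1 (NY (Y + Real.log M))).filter (fun n : ℕ => |Real.log n - (Y + Real.log M)| ≤ 3) := ⟨_, rfl⟩
  have hSm : ∀ n ∈ S, 1 ≤ n ∧ |Real.log n - (Y + Real.log M)| ≤ 3 := by
    intro n hn
    rw [hS, mem_filter, mem_Icc] at hn
    exact ⟨hn.1.1, hn.2⟩
  obtain ⟨c, hc⟩ : ∃ c : ℕ → ℝ, ∀ p, c p = g5 (Real.log p - Real.log M - Y) / p := ⟨_, fun _ => rfl⟩
  have h1 : ∀ ξ : ℝ, MD Y M (2 * Real.pi * ξ / h) = TP S (fun p => (c p : ℂ)) (fun p => (Real.log p - Real.log M) / h) ξ := by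
    intro ξ
    unfold MD TP
    rw [hS, sum_filter (p := fun n : ℕ => |Real.log n - (Y + Real.log M)| ≤ 3)]
    apply sum_congr rfl
    intro p _
    split_ifs with hp
    · simp only [hc]
      congr 1
      unfold Pool.Agent.H376R2.MR.er
      congr 2
      push_cast
      ring
    · push Not at hp
      rw [g5_supp _ (by rw [show Real.log p - Real.log M - Y = Real.log p - (Y + Real.log M) by ring]; exact hp.le)]
      simp
  simp_rw [h1]
  refine ⟨TP_pow_int _ _ _ _, ?_⟩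
  have key := ms S (fun p => (c p : ℂ)) (fun p => (Real.log p - Real.log M) / h) (fun p => c p) (by
    intro n hn
    obtain ⟨hn1, hn2⟩ := hSm n hn
    rw [Complex.norm_real, Real.norm_eq_abs, abs_of_nonneg]
    rw [hc]
    have := g5_nonneg (Real.log n - Real.log M - Y)
    positivity) _ (en_gen (Y + Real.log M) h 1 (by linarith) hh hh1 (by norm_num) S hSm c (by
      intro n hn
      obtain ⟨hn1, hn2⟩ := hSm n hn
      have hn0 : (0 : ℝ) < n := by exact_mod_cast hn1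
      have h2 := g5_nonneg (Real.log n - Real.log M - Y)
      have h3 := g5_le (Real.log n - Real.log M - Y)
      rw [hc]
      refine ⟨by positivity, ?_⟩
      rw [one_mul]
      gcongr) _ (fun n m => by ring))
  refine key.trans ?_
  have : Real.exp (-(Y + Real.log M)) ≤ Real.exp (-Y) := Real.exp_le_exp.2 (by linarith)
  linarith

lemma DD_cont (Y : ℝ) (M : ℕ) : Continuous (DD Y M) := by
  unfold DD PQ MD Pool.Agent.H376R2.MR.er
  fun_prop

lemma AP_cont (A : Finset ℕ) (w : ℕ → ℝ) : Continuous (AP A w) := by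
  unfold AP Pool.Agent.H376R2.MR.er
  fun_prop

/-- the energy -/
theorem DD_en (Y h : ℝ) (M : ℕ) (hY : 0 ≤ Y) (hh : 0 < h) (hh1 : h ≤ 1) :
    Integrable (fun ξ => kap ξ * ‖DD Y M (2 * Real.pi * ξ / h)‖ ^ 2) ∧
    ∫ ξ, kap ξ * ‖DD Y M (2 * Real.pi * ξ / h)‖ ^ 2 ≤ 6400 * (Y + 3) ^ 2 * (h + Real.exp (-Y)) := by
  obtain ⟨i1, e1⟩ := PQ_en Y h hY hh hh1
  obtain ⟨i2, e2⟩ := MD_en Y h M hY hh hh1
  have hpt : ∀ ξ, kap ξ * ‖DD Y M (2 * Real.pi * ξ / h)‖ ^ 2 ≤ 2 * (kap ξ * ‖PQ Y (2 * Real.pi * ξ / h)‖ ^ 2) + 2 * (kap ξ * ‖MD Y M (2 * Real.pi * ξ / h)‖ ^ 2) := by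
    intro ξ
    have h1 : ‖DD Y M (2 * Real.pi * ξ / h)‖ ≤ ‖PQ Y (2 * Real.pi * ξ / h)‖ + ‖MD Y M (2 * Real.pi * ξ / h)‖ := by
      unfold DD
      exact norm_sub_le _ _
    have h2 := kap_nonneg ξ
    have h3 : ‖DD Y M (2 * Real.pi * ξ / h)‖ ^ 2 ≤ 2 * ‖PQ Y (2 * Real.pi * ξ / h)‖ ^ 2 + 2 * ‖MD Y M (2 * Real.pi * ξ / h)‖ ^ 2 := by
      have := norm_nonneg (DD Y M (2 * Real.pi * ξ / h))
      nlinarith [sq_nonneg (‖PQ Y (2 * Real.pi * ξ / h)‖ - ‖MD Y M (2 * Real.pi * ξ / h)‖)]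
    nlinarith
  have hdom : Integrable (fun ξ => 2 * (kap ξ * ‖PQ Y (2 * Real.pi * ξ / h)‖ ^ 2) + 2 * (kap ξ * ‖MD Y M (2 * Real.pi * ξ / h)‖ ^ 2)) :=
    (i1.const_mul 2).add (i2.const_mul 2)
  have hmeas : AEStronglyMeasurable (fun ξ => kap ξ * ‖DD Y M (2 * Real.pi * ξ / h)‖ ^ 2) volume := by
    apply Continuous.aestronglyMeasurable
    apply kap_cont.mul
    apply Continuous.pow
    apply Continuous.norm
    exact (DD_cont Y M).comp (by fun_prop)
  have hint : Integrable (fun ξ => kap ξ * ‖DD Y M (2 * Real.pi * ξ / h)‖ ^ 2) := by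
    apply hdom.mono' hmeas
    filter_upwards with ξ
    rw [Real.norm_eq_abs, abs_of_nonneg (mul_nonneg (kap_nonneg _) (sq_nonneg _))]
    exact hpt ξ
  refine ⟨hint, ?_⟩
  have h1 := integral_mono hint hdom hpt
  rw [integral_add (i1.const_mul 2) (i2.const_mul 2), integral_const_mul, integral_const_mul] at h1
  have h2 : 0 ≤ h + Real.exp (-Y) := by positivity
  have h3 : 1 ≤ (Y + 3) ^ 2 := one_le_pow₀ (by linarith)
  nlinarith

end Pool.Agent.H15.QP
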