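import Pool.Agent.H15.QP.Pl

/-! The count of the quotients in a window against the model. -/

set_option autoImplicit false

namespace Pool.Agent.H15.QP
open Finset MeasureTheory
open Pool.Agent.H376R2.MR (er ch DP FK ge mv smoo_ge_le kern_er_norm kern_er_add kern_er_cont)
open Pool.Agent.H376R2.MR renaming w → tw
open Pool.Agent.Y851.HZ

/-- the quotients of primes -/
noncomputable def GP (A : Finset ℕ) (w : ℕ → ℝ) (Y h u : ℝ) : ℝ :=
  ∑ a ∈ A, ∑ p ∈ (Icc 1 (NY Y)).filter Nat.Prime, w a * (Real.log p * g5 (Real.log p - Y) / p) * ind h (Real.log p - Real.log a) u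

/-- the model -/
noncomputable def GM (A : Finset ℕ) (w : ℕ → ℝ) (Y : ℝ) (M : ℕ) (h u : ℝ) : ℝ :=
  ∑ a ∈ A, ∑ m ∈ Icc 1 (NY (Y + Real.log M)), w a * (g5 (Real.log m - Real.log M - Y) / m) * ind h (Real.log m - Real.log M - Real.log a) u

/-- the coefficients -/
noncomputable def cQ (w : ℕ → ℝ) (Y : ℝ) (M : ℕ) : (ℕ × ℕ) ⊕ (ℕ × ℕ) → ℝ :=
  Sum.elim (fun q => w q.1 * (Real.log q.2 * g5 (Real.log q.2 - Y) / q.2)) (fun q => -(w q.1 * (g5 (Real.log q.2 - Real.log M - Y) / q.2)))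

/-- the points -/
noncomputable def lQ (M : ℕ) : (ℕ × ℕ) ⊕ (ℕ × ℕ) → ℝ :=
  Sum.elim (fun q => Real.log q.2 - Real.log q.1) (fun q => Real.log q.2 - Real.log M - Real.log q.1)

/-- the index set -/
noncomputable def IQ (A : Finset ℕ) (Y : ℝ) (M : ℕ) : Finset ((ℕ × ℕ) ⊕ (ℕ × ℕ)) :=
  (A ×ˢ (Icc 1 (NY Y)).filter Nat.Prime).disjSum (A ×ˢ Icc 1 (NY (Y + Real.log M)))

lemma FW_eq (A : Finset ℕ) (w : ℕ → ℝ) (Y : ℝ) (M : ℕ) (h u : ℝ) :
    FW (IQ A Y M) (cQ w Y M) (lQ M) h u = GP A w Y h u - GM A w Y M h u := by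
  unfold FW IQ GP GM
  rw [sum_disjSum, sum_product, sum_product, sub_eq_add_neg]
  congr 1
  rw [← sum_neg_distrib]
  apply sum_congr rfl
  intro a _
  rw [← sum_neg_distrib]
  apply sum_congr rfl
  intro m _
  unfold cQ lQ
  simp only [Sum.elim_inr]
  ring

lemma poly_eq (A : Finset ℕ) (w : ℕ → ℝ) (Y : ℝ) (M : ℕ) (τ : ℝ) :
    ∑ i ∈ IQ A Y M, (cQ w Y M i : ℂ) * er τ (lQ M i) = AP A w τ * DD Y M τ := by
  unfold IQ AP DD PQ MD
  rw [sum_disjSum, mul_sub, sum_mul_sum, sum_mul_sum, sum_product, sum_product, sub_eq_add_neg, ← sum_neg_distrib]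
  congr 1
  · apply sum_congr rfl
    intro a _
    apply sum_congr rfl
    intro p _
    unfold cQ lQ
    simp only [Sum.elim_inl]
    rw [sub_eq_add_neg (Real.log p) (Real.log a), kern_er_add]
    push_cast
    ring
  · apply sum_congr rfl
    intro a _
    rw [← sum_neg_distrib]
    apply sum_congr rfl
    intro m _
    unfold cQ lQ
    simp only [Sum.elim_inr]
    rw [sub_eq_add_neg (Real.log m - Real.log M) (Real.log a), kern_er_add]
    push_cast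
    ring

/-- outside a small set of `u` the quotients of primes follow the model -/
theorem cheb (B : ℕ) : ∃ (Ce : ℕ) (Y₀ : ℝ), ∀ (Y P h : ℝ) (M : ℕ) (A : Finset ℕ) (w : ℕ → ℝ), Y₀ ≤ Y → Y ^ Ce ≤ P → P ≤ Real.exp Y →
    (∀ a ∈ A, a.Prime ∧ (a : ℝ) ≤ P) → (∀ a ∈ A, |w a| ≤ 1) → P / Y ^ B ≤ A.card → 1 ≤ M → Real.exp (-Y) / Y ^ B ≤ h → h ≤ 1 →
    volume {u : ℝ | A.card * h / Y ^ B ≤ |GP A w Y h u - GM A w Y M h u|} ≤ ENNReal.ofReal (1 / Y ^ B) := by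
  obtain ⟨Ce, Y₀, hv⟩ := variance (3 * B)
  refine ⟨Ce, max Y₀ 1, ?_⟩
  intro Y P h M A w hY hCe hPe hA hw hcard hM hh hh1
  have hY0 : Y₀ ≤ Y := (le_max_left _ _).trans hY
  have hY1 : 1 ≤ Y := (le_max_right _ _).trans hY
  have hYp : 0 < Y := by linarith
  have hP : 0 < P := lt_of_lt_of_le (by positivity) hCe
  have hpow : Y ^ B ≤ Y ^ (3 * B) := pow_le_pow_right₀ hY1 (by omega)
  have hcard' : P / Y ^ (3 * B) ≤ A.card := (div_le_div_of_nonneg_left hP.le (by positivity) hpow).trans hcard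
  have hh' : Real.exp (-Y) / Y ^ (3 * B) ≤ h := (div_le_div_of_nonneg_left (Real.exp_pos _).le (by positivity) hpow).trans hh
  have hhp : 0 < h := lt_of_lt_of_le (by positivity) hh
  have hAp : (0 : ℝ) < A.card := lt_of_lt_of_le (by positivity) hcard
  have h1 := hv Y P h M A w hY0 hCe hPe hA hw hcard' hM hh' hh1
  have h2 := FW_cheb (IQ A Y M) (cQ w Y M) (lQ M) h (A.card * h / Y ^ B) (h * ((A.card : ℝ) ^ 2 * (h / Y ^ (3 * B)))) hhp (by positivity)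
    (by
      apply mul_le_mul_of_nonneg_left _ hhp.le
      have h3 : (fun ξ => kap ξ * ‖∑ i ∈ IQ A Y M, (cQ w Y M i : ℂ) * er (2 * Real.pi * ξ / h) (lQ M i)‖ ^ 2) =
          fun ξ => kap ξ * ‖AP A w (2 * Real.pi * ξ / h) * DD Y M (2 * Real.pi * ξ / h)‖ ^ 2 := by
        funext ξ
        rw [poly_eq]
      rw [h3]
      exact h1)
  have h4 : {u : ℝ | A.card * h / Y ^ B ≤ |GP A w Y h u - GM A w Y M h u|} = {u : ℝ | A.card * h / Y ^ B ≤ |FW (IQ A Y M) (cQ w Y M) (lQ M) h u|} := by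
    ext u
    simp only [Set.mem_ofPred_eq, FW_eq]
  rw [h4]
  refine h2.trans (ENNReal.ofReal_le_ofReal (le_of_eq ?_))
  have h5 : Y ^ (3 * B) = Y ^ B * (Y ^ B * Y ^ B) := by rw [← pow_add, ← pow_add]; congr 1; ring
  rw [h5]
  field_simp

end Pool.Agent.H15.QP
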