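import Pool.Agent.H15.QP.Ev

/-! Evaluation of the model; the clean form of the count. -/

set_option autoImplicit false

namespace Pool.Agent.H15.QP
open Finset MeasureTheory

lemma harm_Ioc (k n : ℕ) (hk : 1 ≤ k) (hkn : k ≤ n) :
    ∑ m ∈ Ioc k n, (1 : ℝ) / m ≤ Real.log n - Real.log k ∧ Real.log (n + 1) - Real.log (k + 1) ≤ ∑ m ∈ Ioc k n, (1 : ℝ) / m := by
  induction n, hkn using Nat.le_induction with
  | base => simp
  | succ n hkn ih =>
    have hn : (0 : ℝ) < n := by exact_mod_cast (by omega : 0 < n)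
    rw [Finset.sum_Ioc_succ_top hkn]
    have h1 := Real.one_sub_inv_le_log_of_pos (show (0 : ℝ) < (n + 1) / n by positivity)
    have h2 := Real.log_le_sub_one_of_pos (show (0 : ℝ) < (n + 2) / (n + 1) by positivity)
    rw [Real.log_div (by positivity) hn.ne'] at h1
    rw [Real.log_div (by positivity) (by positivity)] at h2
    have h3 : 1 - (((n : ℝ) + 1) / n)⁻¹ = 1 / (n + 1) := by field_simp; ring
    have h4 : ((n : ℝ) + 2) / (n + 1) - 1 = 1 / (n + 1) := by field_simp; ring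
    rw [h3] at h1
    rw [h4] at h2
    push_cast
    rw [show (n : ℝ) + 1 + 1 = n + 2 by ring]
    constructor
    · linarith [ih.1]
    · linarith [ih.2]

lemma harm_win (X h : ℝ) (hX : 2 ≤ X) (hh : 0 ≤ h) :
    |∑ m ∈ Ioc ⌊X⌋₊ ⌊X * Real.exp h⌋₊, (1 : ℝ) / m - h| ≤ 2 / X := by
  have hXp : 0 < X := by linarith
  have he : 1 ≤ Real.exp h := Real.one_le_exp hh
  have hle : X ≤ X * Real.exp h := le_mul_of_one_le_right hXp.le he
  have hk : 1 ≤ ⌊X⌋₊ := Nat.le_floor (by push_cast; linarith)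
  have hkn : ⌊X⌋₊ ≤ ⌊X * Real.exp h⌋₊ := Nat.floor_le_floor hle
  obtain ⟨h1, h2⟩ := harm_Ioc _ _ hk hkn
  have hk' : (0 : ℝ) < ⌊X⌋₊ := by exact_mod_cast hk
  have hn' : (0 : ℝ) < ⌊X * Real.exp h⌋₊ := by exact_mod_cast (by omega : 0 < ⌊X * Real.exp h⌋₊)
  have h3 : Real.log ⌊X * Real.exp h⌋₊ ≤ Real.log X + h := by
    rw [← Real.log_exp h, ← Real.log_mul hXp.ne' (Real.exp_pos _).ne', Real.log_exp]
    exact Real.log_le_log hn' (Nat.floor_le (by positivity))
  have h4 : Real.log X + h ≤ Real.log (⌊X * Real.exp h⌋₊ + 1) := by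
    have : Real.log X + h = Real.log (X * Real.exp h) := by rw [Real.log_mul hXp.ne' (Real.exp_pos _).ne', Real.log_exp]
    rw [this]
    exact Real.log_le_log (by positivity) (Nat.lt_floor_add_one _).le
  have h5 : Real.log X - 2 / X ≤ Real.log ⌊X⌋₊ := by
    have h6 : X - 1 ≤ ⌊X⌋₊ := by linarith [Nat.lt_floor_add_one X]
    have h7 : Real.log (X - 1) ≤ Real.log ⌊X⌋₊ := Real.log_le_log (by linarith) h6
    have h8 := Real.one_sub_inv_le_log_of_pos (show (0 : ℝ) < (X - 1) / X by apply div_pos <;> linarith)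
    rw [Real.log_div (by linarith) hXp.ne'] at h8
    have h9 : 1 - ((X - 1) / X)⁻¹ ≥ -(2 / X) := by
      have hX1 : 0 < X - 1 := by linarith
      rw [inv_div, ge_iff_le, ← sub_nonneg]
      have : 1 - X / (X - 1) - -(2 / X) = (X - 2) / ((X - 1) * X) := by field_simp; ring
      rw [this]
      apply div_nonneg (by linarith) (by positivity)
    linarith
  have h10 : Real.log (⌊X⌋₊ + 1) ≤ Real.log X + 2 / X := by
    have h11 : Real.log ((⌊X⌋₊ : ℝ) + 1) ≤ Real.log (X + 1) := Real.log_le_log (by positivity) (by linarith [Nat.floor_le hXp.le])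
    have h12 := Real.log_le_sub_one_of_pos (show (0 : ℝ) < (X + 1) / X by positivity)
    rw [Real.log_div (by positivity) hXp.ne'] at h12
    have h13 : (X + 1) / X - 1 = 1 / X := by field_simp; ring
    rw [h13] at h12
    have : 1 / X ≤ 2 / X := by gcongr; norm_num
    linarith
  rw [abs_le]
  constructor <;> linarith

lemma ind_log (h u b x : ℝ) (hx : 0 < x) : ind h (Real.log x - b) u =
    if Real.exp (u + b) < x ∧ x ≤ Real.exp (u + b) * Real.exp h then 1 else 0 := by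
  rw [ind_eq]
  apply if_congr _ rfl rfl
  rw [← Real.exp_add, ← Real.lt_log_iff_exp_lt hx, ← Real.log_le_iff_le_exp hx]
  constructor
  · rintro ⟨h1, h2⟩; exact ⟨by linarith, by linarith⟩
  · rintro ⟨h1, h2⟩; exact ⟨by linarith, by linarith⟩

/-- the sum against a window -/
lemma sum_win (Y h u b c : ℝ) (S : ℕ → Prop) [DecidablePred S] (f : ℕ → ℝ) (hh : 0 ≤ h)
    (hu1 : -2 ≤ u + b - (Y + c)) (hu2 : u + b + h - (Y + c) ≤ 2) :
    ∑ m ∈ (Icc 1 (NY (Y + c))).filter S, (f m * g5 (Real.log m - c - Y)) * ind h (Real.log m - b) u =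
      ∑ m ∈ (Ioc ⌊Real.exp (u + b)⌋₊ ⌊Real.exp (u + b) * Real.exp h⌋₊).filter S, f m := by
  have hX := Real.exp_pos (u + b)
  have hsub : (Ioc ⌊Real.exp (u + b)⌋₊ ⌊Real.exp (u + b) * Real.exp h⌋₊).filter S ⊆ (Icc 1 (NY (Y + c))).filter S := by
    intro m hm
    rw [mem_filter, mem_Ioc] at hm
    rw [mem_filter, mem_Icc]
    refine ⟨⟨by omega, ?_⟩, hm.2⟩
    have h1 : (m : ℝ) ≤ Real.exp (u + b) * Real.exp h := (Nat.le_floor_iff (by positivity)).1 hm.1.2
    have h2 : Real.exp (u + b) * Real.exp h ≤ Real.exp (Y + c + 3) := by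
      rw [← Real.exp_add]; exact Real.exp_le_exp.2 (by linarith)
    exact_mod_cast (h1.trans h2).trans (NY_le _)
  rw [← sum_subset hsub]
  · apply sum_congr rfl
    intro m hm
    rw [mem_filter, mem_Ioc] at hm
    have hm1 : Real.exp (u + b) < m := (Nat.floor_lt hX.le).1 hm.1.1
    have hm2 : (m : ℝ) ≤ Real.exp (u + b) * Real.exp h := (Nat.le_floor_iff (by positivity)).1 hm.1.2
    have hm0 : (0 : ℝ) < m := hX.trans hm1
    rw [ind_log h u b m hm0, if_pos ⟨hm1, hm2⟩, mul_one]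
    have h3 : u + b < Real.log m := (Real.lt_log_iff_exp_lt hm0).2 hm1
    have h4 : Real.log m ≤ u + b + h := by
      rw [Real.log_le_iff_le_exp hm0, Real.exp_add]; exact hm2
    rw [g5_one _ (by rw [abs_le]; constructor <;> linarith), mul_one]
  · intro m hm hm'
    rw [mem_filter, mem_Icc] at hm
    have hm0 : (0 : ℝ) < m := by exact_mod_cast hm.1.1
    rw [ind_log h u b m hm0, if_neg, mul_zero]
    rintro ⟨h1, h2⟩
    apply hm'
    rw [mem_filter, mem_Ioc]
    exact ⟨⟨(Nat.floor_lt hX.le).2 h1, (Nat.le_floor_iff (by positivity)).2 h2⟩, hm.2⟩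

/-- the clean count -/
noncomputable def GQ (A : Finset ℕ) (w : ℕ → ℝ) (h u : ℝ) : ℝ :=
  ∑ a ∈ A, w a * ∑ p ∈ (Ioc ⌊Real.exp (u + Real.log a)⌋₊ ⌊Real.exp (u + Real.log a) * Real.exp h⌋₊).filter Nat.Prime, Real.log p / p

lemma GP_GQ (A : Finset ℕ) (w : ℕ → ℝ) (Y h u : ℝ) (hh : 0 ≤ h)
    (hu : ∀ a ∈ A, -2 ≤ u + Real.log a - Y ∧ u + Real.log a + h - Y ≤ 2) : GP A w Y h u = GQ A w h u := by
  unfold GP GQ
  apply sum_congr rfl
  intro a ha
  obtain ⟨h1, h2⟩ := hu a ha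
  have := sum_win Y h u (Real.log a) 0 Nat.Prime (fun p => Real.log p / p) hh (by rw [add_zero]; exact h1) (by rw [add_zero]; exact h2)
  rw [← this, mul_sum]
  simp only [add_zero, sub_zero]
  apply sum_congr rfl
  intro p _
  ring

lemma GM_ev (A : Finset ℕ) (w : ℕ → ℝ) (Y h u V : ℝ) (M : ℕ) (hh : 0 ≤ h) (hw : ∀ a ∈ A, 0 ≤ w a) (hM : 1 ≤ M)
    (hu : ∀ a ∈ A, -2 ≤ u + Real.log a - Y ∧ u + Real.log a + h - Y ≤ 2) (hV : 2 ≤ V)
    (hV' : ∀ a ∈ A, V ≤ Real.exp (u + Real.log a) * M) :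
    |GM A w Y M h u - (∑ a ∈ A, w a) * h| ≤ (∑ a ∈ A, w a) * (2 / V) := by
  unfold GM
  rw [sum_mul, ← sum_sub_distrib, sum_mul]
  refine (abs_sum_le_sum_abs _ _).trans (sum_le_sum ?_)
  intro a ha
  obtain ⟨h1, h2⟩ := hu a ha
  have hMp : (0 : ℝ) < M := by exact_mod_cast hM
  have key := sum_win Y h u (Real.log M + Real.log a) (Real.log M) (fun _ => True) (fun m => 1 / (m : ℝ)) hh (by linarith) (by linarith)
  have hXe : Real.exp (u + (Real.log M + Real.log a)) = Real.exp (u + Real.log a) * M := by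
    rw [show u + (Real.log M + Real.log a) = (u + Real.log a) + Real.log M by ring, Real.exp_add (u + Real.log a), Real.exp_log hMp]
  rw [hXe] at key
  simp only [filter_true] at key
  have h3 : ∑ m ∈ Icc 1 (NY (Y + Real.log M)), w a * (g5 (Real.log m - Real.log M - Y) / m) * ind h (Real.log m - Real.log M - Real.log a) u =
      w a * ∑ m ∈ Ioc ⌊Real.exp (u + Real.log a) * M⌋₊ ⌊Real.exp (u + Real.log a) * M * Real.exp h⌋₊, (1 : ℝ) / m := by
    rw [← key, mul_sum]
    apply sum_congr rfl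
    intro m _
    rw [show Real.log m - (Real.log M + Real.log a) = Real.log m - Real.log M - Real.log a by ring]
    ring
  rw [h3, ← mul_sub, abs_mul, abs_of_nonneg (hw a ha)]
  apply mul_le_mul_of_nonneg_left _ (hw a ha)
  have h4 := hV' a ha
  refine (harm_win _ h (hV.trans h4) hh).trans ?_
  have : 0 < V := by linarith
  gcongr

lemma GQ_mono (A : Finset ℕ) (w : ℕ → ℝ) (u : ℝ) (hw : ∀ a ∈ A, 0 ≤ w a) {h h' : ℝ} (hh : h ≤ h') : GQ A w h u ≤ GQ A w h' u := by
  unfold GQ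
  apply sum_le_sum
  intro a ha
  apply mul_le_mul_of_nonneg_left _ (hw a ha)
  apply sum_le_sum_of_subset_of_nonneg
  · apply filter_subset_filter
    apply Ioc_subset_Ioc_right
    apply Nat.floor_le_floor
    exact mul_le_mul_of_nonneg_left (Real.exp_le_exp.2 hh) (Real.exp_pos _).le
  · intro p hp _
    rw [mem_filter] at hp
    have : (1 : ℝ) ≤ p := by exact_mod_cast hp.2.one_lt.le
    exact div_nonneg (Real.log_nonneg this) (by linarith)

end Pool.Agent.H15.QP
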