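import Pool.Agent.H15.QP.En

/-! Tails and middle parts of the integrals. -/

set_option autoImplicit false

namespace Pool.Agent.H15.QP
open Finset MeasureTheory
open Pool.Agent.H376R2.MR (er kern_er_norm kern_er_add kern_er_cont smoo_icc)
open Pool.Agent.H376R2.MR renaming w → tw
open Pool.Agent.Y851.HZ

lemma kap_even (ξ : ℝ) : kap (-ξ) = kap ξ := by
  unfold kap
  rw [mul_neg, Real.sinc_neg]

lemma kap_tail1 (R : ℝ) (hR : 0 < R) : ∫ ξ in Set.Ioi R, kap ξ ≤ 1 / (2 * R) := by
  have h1 : ∫ ξ in Set.Ioi R, kap ξ ≤ ∫ ξ in Set.Ioi R, 1 / 2 * ξ ^ (-2 : ℝ) := by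
    apply setIntegral_mono_on kap_int.integrableOn
    · exact (integrableOn_Ioi_rpow_of_lt (by norm_num) hR).const_mul _
    · exact measurableSet_Ioi
    · intro ξ hξ
      rw [Set.mem_Ioi] at hξ
      have hξ0 : 0 < ξ := hR.trans hξ
      have h2 := kap_le_inv ξ hξ0.ne'
      refine h2.trans ?_
      rw [Real.rpow_neg hξ0.le]
      have h3 : ξ ^ (2 : ℝ) = ξ ^ 2 := by
        rw [← Real.rpow_natCast]; norm_num
      rw [h3, mul_pow]
      have h4 := Real.pi_gt_three
      have h5 : 2 ≤ Real.pi ^ 2 := by nlinarith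
      rw [one_div_mul_eq_div, ← one_div, div_div, one_div, one_div]
      apply inv_anti₀ (by positivity)
      nlinarith [sq_nonneg ξ]
  refine h1.trans (le_of_eq ?_)
  rw [integral_const_mul, integral_Ioi_rpow_of_lt (by norm_num) hR]
  have h6 : R ^ ((-2 : ℝ) + 1) = R⁻¹ := by
    rw [show (-2 : ℝ) + 1 = -1 by norm_num, Real.rpow_neg_one]
  rw [h6]
  field_simp
  norm_num

lemma kap_tail (R : ℝ) (hR : 0 < R) : ∫ ξ in {ξ : ℝ | R < |ξ|}, kap ξ ≤ 1 / R := by
  have h1 : {ξ : ℝ | R < |ξ|} = Set.Ioi R ∪ Set.Iio (-R) := by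
    ext ξ
    simp only [Set.mem_ofPred_eq, Set.mem_union, Set.mem_Ioi, Set.mem_Iio]
    rw [lt_abs]
    constructor <;> rintro (h | h)
    · exact Or.inl h
    · exact Or.inr (by linarith)
    · exact Or.inl h
    · exact Or.inr (by linarith)
  rw [h1, setIntegral_union]
  · have h2 : ∫ ξ in Set.Iio (-R), kap ξ = ∫ ξ in Set.Ioi R, kap ξ := by
      have := integral_comp_neg_Ioi R kap
      rw [← integral_Iic_eq_integral_Iio, ← this]
      simp_rw [kap_even]
    rw [h2]
    have := kap_tail1 R hR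
    have e : 1 / R = 1 / (2 * R) + 1 / (2 * R) := by field_simp; norm_num
    linarith
  · rw [Set.disjoint_left]
    intro ξ h3 h4
    rw [Set.mem_Ioi] at h3
    rw [Set.mem_Iio] at h4
    linarith
  · exact measurableSet_Iio
  · exact kap_int.integrableOn
  · exact kap_int.integrableOn

lemma mid (G : ℝ → ℝ) (hGi : ∀ a b, IntervalIntegrable G volume a b) (K : ℕ) (h c : ℝ) (hh : 0 < h)
    (hc : ∀ s ∈ Set.Icc (0 : ℝ) 1, ∑ i ∈ range (2 * K), G (s + ((i : ℝ) - K)) ≤ c) :
    ∫ ξ in (-(h * K / (2 * Real.pi)))..(h * K / (2 * Real.pi)), G (2 * Real.pi * ξ / h) ≤ h / (2 * Real.pi) * c := by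
  have hpi := Real.pi_pos
  have e1 : ∀ ξ : ℝ, G (2 * Real.pi * ξ / h) = G ((2 * Real.pi / h) * ξ) := by
    intro ξ; congr 1; ring
  simp_rw [e1]
  rw [intervalIntegral.integral_comp_mul_left G (by positivity)]
  have e2 : 2 * Real.pi / h * -(h * K / (2 * Real.pi)) = -(K : ℝ) := by field_simp
  have e3 : 2 * Real.pi / h * (h * K / (2 * Real.pi)) = (K : ℝ) := by field_simp
  rw [e2, e3, smul_eq_mul]
  have e4 : (2 * Real.pi / h)⁻¹ = h / (2 * Real.pi) := by rw [inv_div]
  rw [e4]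
  apply mul_le_mul_of_nonneg_left _ (by positivity)
  have h1 := intervalIntegral.sum_integral_adjacent_intervals (f := G) (μ := volume) (a := fun i : ℕ => (i : ℝ) - K) (n := 2 * K)
    (fun k _ => hGi _ _)
  have e5 : ((0 : ℕ) : ℝ) - K = -(K : ℝ) := by push_cast; ring
  have e6 : ((2 * K : ℕ) : ℝ) - K = (K : ℝ) := by push_cast; ring
  simp only [e5, e6] at h1
  rw [← h1]
  have h2 : ∀ i ∈ range (2 * K), ∫ x in ((i : ℝ) - K)..(((i + 1 : ℕ) : ℝ) - K), G x = ∫ s in (0 : ℝ)..1, G (s + ((i : ℝ) - K)) := by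
    intro i _
    rw [intervalIntegral.integral_comp_add_right (fun x => G x) ((i : ℝ) - K)]
    congr 1
    · ring
    · push_cast; ring
  rw [sum_congr rfl h2, ← intervalIntegral.integral_finsetSum]
  · have h3 : ∫ s in (0 : ℝ)..1, ∑ i ∈ range (2 * K), G (s + ((i : ℝ) - K)) ≤ ∫ s in (0 : ℝ)..1, c := by
      apply intervalIntegral.integral_mono_on zero_le_one
      · have e7 : (fun u => ∑ i ∈ range (2 * K), G (u + ((i : ℝ) - K))) = ∑ i ∈ range (2 * K), fun u => G (u + ((i : ℝ) - K)) := by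
          funext u
          rw [Finset.sum_apply]
        rw [e7]
        apply IntervalIntegrable.sum
        intro i _
        have := (hGi (0 + ((i : ℝ) - K)) (1 + ((i : ℝ) - K))).comp_add_right ((i : ℝ) - K)
        simpa using this
      · exact intervalIntegrable_const
      · exact hc
    refine h3.trans (le_of_eq ?_)
    simp
  · intro i _
    have := (hGi (0 + ((i : ℝ) - K)) (1 + ((i : ℝ) - K))).comp_add_right ((i : ℝ) - K)
    simpa using this

end Pool.Agent.H15.QP
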