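import Pool.Agent.H15.QP.Var

/-! Mean squares of counts in multiplicative windows. -/

set_option autoImplicit false

namespace Pool.Agent.H15.QP
open Finset MeasureTheory
open Pool.Agent.H376R2.MR (er ch DP FK ge mv smoo_ge_le kern_er_norm kern_er_add kern_er_cont)
open Pool.Agent.H376R2.MR renaming w → tw
open Pool.Agent.Y851.HZ

/-- indicator of `u < l ≤ u + h` -/
noncomputable def ind (h l u : ℝ) : ℝ := Set.indicator (Set.Ico (l - h) l) (fun _ => (1 : ℝ)) u

lemma ind_eq (h l u : ℝ) : ind h l u = if u < l ∧ l ≤ u + h then 1 else 0 := by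
  unfold ind
  rw [Set.indicator_apply]
  apply if_congr _ rfl rfl
  rw [Set.mem_Ico]
  constructor
  · rintro ⟨h1, h2⟩; exact ⟨h2, by linarith⟩
  · rintro ⟨h1, h2⟩; exact ⟨by linarith, h1⟩

lemma ind_mul (h a b u : ℝ) : ind h a u * ind h b u = Set.indicator (Set.Ico (max (a - h) (b - h)) (min a b)) (fun _ => (1 : ℝ)) u := by
  unfold ind
  rw [← Set.Ico_inter_Ico]
  by_cases h1 : u ∈ Set.Ico (a - h) a
  · by_cases h2 : u ∈ Set.Ico (b - h) b
    · rw [Set.indicator_of_mem h1, Set.indicator_of_mem h2, Set.indicator_of_mem (Set.mem_inter h1 h2), mul_one]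
    · have h3 : u ∉ Set.Ico (a - h) a ∩ Set.Ico (b - h) b := fun hh => h2 hh.2
      rw [Set.indicator_of_notMem h2, Set.indicator_of_notMem h3, mul_zero]
  · have h3 : u ∉ Set.Ico (a - h) a ∩ Set.Ico (b - h) b := fun hh => h1 hh.1
    rw [Set.indicator_of_notMem h1, Set.indicator_of_notMem h3, zero_mul]

lemma ind_int (h a b : ℝ) (hh : 0 < h) : Integrable (fun u => ind h a u * ind h b u) ∧
    ∫ u, ind h a u * ind h b u = h * tw ((a - b) / h) := by
  simp_rw [ind_mul]
  constructor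
  · rw [integrable_indicator_iff measurableSet_Ico]
    exact integrableOn_const (by simp)
  · rw [integral_indicator measurableSet_Ico]
    simp only [integral_const, MeasurableSet.univ, measureReal_restrict_apply, Set.univ_inter, Real.volume_real_Ico, smul_eq_mul, mul_one]
    unfold Pool.Agent.H376R2.MR.w
    have h1 : min a b - max (a - h) (b - h) = h - |a - b| := by
      rw [max_sub_sub_right]
      have := max_sub_min_eq_abs a b
      linarith [abs_sub_comm a b]
    rw [h1, abs_div, abs_of_pos hh, mul_max_of_nonneg _ _ hh.le, max_comm]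
    congr 1
    · ring
    · field_simp

/-- the count in windows -/
noncomputable def FW {ι : Type} (I : Finset ι) (c l : ι → ℝ) (h u : ℝ) : ℝ := ∑ i ∈ I, c i * ind h (l i) u

lemma FW_meas {ι : Type} (I : Finset ι) (c l : ι → ℝ) (h : ℝ) : Measurable (FW I c l h) := by
  unfold FW ind
  apply Finset.measurable_fun_sum
  intro i _
  exact (measurable_const.indicator measurableSet_Ico).const_mul _

lemma FW_sq {ι : Type} (I : Finset ι) (c l : ι → ℝ) (h u : ℝ) :
    FW I c l h u ^ 2 = ∑ i ∈ I, ∑ j ∈ I, c i * c j * (ind h (l i) u * ind h (l j) u) := by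
  unfold FW
  rw [pow_two, sum_mul_sum]
  apply sum_congr rfl
  intro i _
  apply sum_congr rfl
  intro j _
  ring

/-- the mean square -/
theorem FW_ms {ι : Type} (I : Finset ι) (c l : ι → ℝ) (h : ℝ) (hh : 0 < h) :
    Integrable (fun u => FW I c l h u ^ 2) ∧
    ∫ u, FW I c l h u ^ 2 = h * ∫ ξ, kap ξ * ‖∑ i ∈ I, (c i : ℂ) * er (2 * Real.pi * ξ / h) (l i)‖ ^ 2 := by
  simp_rw [FW_sq]
  have hint : ∀ i ∈ I, ∀ j ∈ I, Integrable (fun u => c i * c j * (ind h (l i) u * ind h (l j) u)) := fun i _ j _ =>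
    (ind_int h (l i) (l j) hh).1.const_mul _
  constructor
  · apply integrable_finsetSum
    intro i hi
    apply integrable_finsetSum
    intro j hj
    exact hint i hi j hj
  · rw [integral_finsetSum _ (fun i hi => integrable_finsetSum _ (fun j hj => hint i hi j hj))]
    have h1 : ∀ i ∈ I, ∫ u, ∑ j ∈ I, c i * c j * (ind h (l i) u * ind h (l j) u) = ∑ j ∈ I, c i * c j * (h * tw ((l i - l j) / h)) := by
      intro i hi
      rw [integral_finsetSum _ (fun j hj => hint i hi j hj)]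
      apply sum_congr rfl
      intro j _
      rw [integral_const_mul, (ind_int h (l i) (l j) hh).2]
    rw [sum_congr rfl h1]
    have h2 : ((∫ ξ, kap ξ * ‖∑ i ∈ I, (c i : ℂ) * er (2 * Real.pi * ξ / h) (l i)‖ ^ 2 : ℝ) : ℂ) =
        ∑ p ∈ I ×ˢ I, ((c p.1 : ℂ) * (c p.2 : ℂ)) * (tw ((l p.1 - l p.2) / h) : ℂ) := by
      rw [← kap_poly, ← integral_complex_ofReal]
      congr 1
      funext ξ
      obtain ⟨S, hS⟩ : ∃ S : ℂ, S = ∑ i ∈ I, (c i : ℂ) * er (2 * Real.pi * ξ / h) (l i) := ⟨_, rfl⟩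
      have h3 : ((‖S‖ ^ 2 : ℝ) : ℂ) = S * (starRingEnd ℂ) S := by
        rw [Complex.mul_conj, Complex.normSq_eq_norm_sq]
      rw [← hS, Complex.ofReal_mul, h3]
      congr 1
      rw [hS, map_sum, sum_mul_sum, ← sum_product']
      apply sum_congr rfl
      intro p _
      rw [map_mul, Complex.conj_ofReal]
      have h4 : er (2 * Real.pi * ξ) ((l p.1 - l p.2) / h) = er (2 * Real.pi * ξ / h) (l p.1) * (starRingEnd ℂ) (er (2 * Real.pi * ξ / h) (l p.2)) := by
        rw [er_sub']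
        unfold Pool.Agent.H376R2.MR.er
        congr 2
        push_cast
        ring
      rw [h4]
      ring
    have h3 : (∫ ξ, kap ξ * ‖∑ i ∈ I, (c i : ℂ) * er (2 * Real.pi * ξ / h) (l i)‖ ^ 2 : ℝ) =
        ∑ i ∈ I, ∑ j ∈ I, (c i * c j) * tw ((l i - l j) / h) := by
      have h5 : (((∑ i ∈ I, ∑ j ∈ I, (c i * c j) * tw ((l i - l j) / h) : ℝ)) : ℂ) =
          ∑ p ∈ I ×ˢ I, ((c p.1 : ℂ) * (c p.2 : ℂ)) * (tw ((l p.1 - l p.2) / h) : ℂ) := by
        rw [sum_product]
        push_cast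
        rfl
      rw [← h5] at h2
      exact_mod_cast h2
    rw [h3, mul_sum]
    apply sum_congr rfl
    intro i _
    rw [mul_sum]
    apply sum_congr rfl
    intro j _
    ring

/-- Chebyshev's inequality -/
theorem FW_cheb {ι : Type} (I : Finset ι) (c l : ι → ℝ) (h t V : ℝ) (hh : 0 < h) (ht : 0 < t)
    (hV : h * ∫ ξ, kap ξ * ‖∑ i ∈ I, (c i : ℂ) * er (2 * Real.pi * ξ / h) (l i)‖ ^ 2 ≤ V) :
    volume {u : ℝ | t ≤ |FW I c l h u|} ≤ ENNReal.ofReal (V / t ^ 2) := by
  obtain ⟨h1, h2⟩ := FW_ms I c l h hh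
  have h3 := mul_meas_ge_le_integral_of_nonneg (μ := volume) (f := fun u => FW I c l h u ^ 2) (Filter.Eventually.of_forall fun u => sq_nonneg _) h1 (t ^ 2)
  have h4 : {u : ℝ | t ≤ |FW I c l h u|} ⊆ {u : ℝ | t ^ 2 ≤ FW I c l h u ^ 2} := by
    intro u hu
    simp only [Set.mem_ofPred_eq] at hu ⊢
    rw [← sq_abs (FW I c l h u)]
    exact pow_le_pow_left₀ ht.le hu 2
  refine (measure_mono h4).trans ?_
  rw [h2] at h3
  have ht2 : 0 < t ^ 2 := by positivity
  have h5 : volume {u : ℝ | t ^ 2 ≤ FW I c l h u ^ 2} < ⊤ := h1.measure_ge_lt_top ht2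
  rw [← ENNReal.ofReal_toReal h5.ne]
  apply ENNReal.ofReal_le_ofReal
  rw [le_div_iff₀ ht2]
  have h6 : volume.real {u : ℝ | t ^ 2 ≤ FW I c l h u ^ 2} = (volume {u : ℝ | t ^ 2 ≤ FW I c l h u ^ 2}).toReal := rfl
  rw [← h6]
  nlinarith [h3, hV]

end Pool.Agent.H15.QP
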