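import Pool.Agent.H15.QP.Net

/-! The count in dilated windows for almost all real numbers. -/

set_option autoImplicit false

namespace Pool.Agent.H15.QP
open Finset MeasureTheory

/-- the count in the dilated windows -/
noncomputable def Th (A : Finset ℕ) (y ℓ : ℝ) : ℝ :=
  ∑ a ∈ A, ∑ p ∈ (Ioc ⌊(a : ℝ) * y⌋₊ ⌊(a : ℝ) * (y + ℓ)⌋₊).filter Nat.Prime, Real.log p

lemma exp_img (E0 : Set ℝ) (z : ℝ) (hz : 0 < z) : volume (Real.exp '' (toMeasurable volume E0 ∩ Set.Iic (Real.log z))) ≤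
    ENNReal.ofReal z * volume E0 := by
  have hm : MeasurableSet (toMeasurable volume E0 ∩ Set.Iic (Real.log z)) := (measurableSet_toMeasurable _ _).inter measurableSet_Iic
  have h1 := lintegral_image_eq_lintegral_abs_deriv_mul hm (f := Real.exp) (f' := Real.exp)
    (fun x _ => (Real.hasDerivAt_exp x).hasDerivWithinAt) (Real.exp_injective.injOn) (fun _ => 1)
  rw [lintegral_one, Measure.restrict_apply_univ] at h1
  rw [h1]
  have h2 : ∀ x ∈ toMeasurable volume E0 ∩ Set.Iic (Real.log z), ENNReal.ofReal |Real.exp x| * 1 ≤ ENNReal.ofReal z := by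
    intro x hx
    rw [mul_one, abs_of_pos (Real.exp_pos x)]
    apply ENNReal.ofReal_le_ofReal
    have := Real.exp_le_exp.2 hx.2
    rwa [Real.exp_log hz] at this
  calc ∫⁻ x in toMeasurable volume E0 ∩ Set.Iic (Real.log z), ENNReal.ofReal |Real.exp x| * 1
      ≤ ∫⁻ _ in toMeasurable volume E0 ∩ Set.Iic (Real.log z), ENNReal.ofReal z := setLIntegral_mono' hm h2
    _ = ENNReal.ofReal z * volume (toMeasurable volume E0 ∩ Set.Iic (Real.log z)) := by rw [setLIntegral_const]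
    _ ≤ ENNReal.ofReal z * volume E0 := by
        apply mul_le_mul_right
        refine (measure_mono (Set.inter_subset_left (s := toMeasurable volume E0) (t := Set.Iic (Real.log z)))).trans (le_of_eq (measure_toMeasurable _))

lemma Th_GQ (A : Finset ℕ) (P y ℓ : ℝ) (hP : 0 < P) (hy : 0 < y) (hℓ : 0 < ℓ) (hA : ∀ a ∈ A, a.Prime) :
    y * P * GQ A (fun a => a / P) (Real.log (1 + ℓ / y)) (Real.log y) ≤ Th A y ℓ ∧
    Th A y ℓ ≤ (y + ℓ) * P * GQ A (fun a => a / P) (Real.log (1 + ℓ / y)) (Real.log y) := by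
  unfold GQ Th
  rw [mul_sum, mul_sum]
  have hx : 0 < 1 + ℓ / y := by positivity
  have key : ∀ a ∈ A, Real.exp (Real.log y + Real.log a) = a * y ∧
      Real.exp (Real.log y + Real.log a) * Real.exp (Real.log (1 + ℓ / y)) = a * (y + ℓ) := by
    intro a ha
    have ha0 : (0 : ℝ) < a := by exact_mod_cast (hA a ha).pos
    have h1 : Real.exp (Real.log y + Real.log a) = a * y := by
      rw [Real.exp_add, Real.exp_log hy, Real.exp_log ha0]; ring
    refine ⟨h1, ?_⟩
    rw [h1, Real.exp_log hx]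
    field_simp
  constructor
  · apply sum_le_sum
    intro a ha
    have ha0 : (0 : ℝ) < a := by exact_mod_cast (hA a ha).pos
    obtain ⟨h1, h2⟩ := key a ha
    rw [h2, h1]
    rw [mul_sum, mul_sum]
    apply sum_le_sum
    intro p hp
    rw [mem_filter, mem_Ioc] at hp
    have hp1 : (a : ℝ) * y < p := (Nat.floor_lt (by positivity)).1 hp.1.1
    have hp0 : (0 : ℝ) < p := lt_trans (by positivity) hp1
    have hl : 0 ≤ Real.log p := Real.log_nonneg (by exact_mod_cast hp.2.one_lt.le)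
    have h3 : y * P * ((a : ℝ) / P * (Real.log p / p)) = (a * y / p) * Real.log p := by field_simp
    rw [h3]
    have h4 : (a : ℝ) * y / p ≤ 1 := by rw [div_le_one hp0]; exact hp1.le
    nlinarith
  · apply sum_le_sum
    intro a ha
    have ha0 : (0 : ℝ) < a := by exact_mod_cast (hA a ha).pos
    obtain ⟨h1, h2⟩ := key a ha
    rw [h2, h1]
    rw [mul_sum, mul_sum]
    apply sum_le_sum
    intro p hp
    rw [mem_filter, mem_Ioc] at hp
    have hp1 : (a : ℝ) * y < p := (Nat.floor_lt (by positivity)).1 hp.1.1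
    have hp2 : (p : ℝ) ≤ a * (y + ℓ) := (Nat.le_floor_iff (by positivity)).1 hp.1.2
    have hp0 : (0 : ℝ) < p := lt_trans (by positivity) hp1
    have hl : 0 ≤ Real.log p := Real.log_nonneg (by exact_mod_cast hp.2.one_lt.le)
    have h3 : (y + ℓ) * P * ((a : ℝ) / P * (Real.log p / p)) = (a * (y + ℓ) / p) * Real.log p := by field_simp
    rw [h3]
    have h4 : 1 ≤ (a : ℝ) * (y + ℓ) / p := by rw [one_le_div hp0]; exact hp2
    nlinarith

lemma log_small : Real.log 3 ≤ 6 / 5 := by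
  rw [Real.log_le_iff_le_exp (by norm_num)]
  have h1 : Real.exp (6 / 5) = Real.exp 1 * Real.exp (1 / 5) := by rw [← Real.exp_add]; norm_num
  have h2 := Real.add_one_le_exp (1 / 5 : ℝ)
  have h3 := Real.exp_one_gt_d9
  rw [h1]
  nlinarith

lemma aux1 (x ε D : ℝ) (hx : 0 < x) (hxD : x ≤ D) (hε : 0 < ε) (hεD : ε ≤ D) (hD : D ≤ 1 / 4) :
    (1 + x) * (1 + ε) ≤ 1 + 4 * D ∧ 1 - 4 * D ≤ (1 - x) * (1 - ε) := by
  have h1 : x * ε ≤ D * 1 := mul_le_mul hxD (by linarith) hε.le (by linarith)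
  have h2 : 0 ≤ x * ε := by positivity
  constructor
  · linarith [show (1 + x) * (1 + ε) = 1 + x + ε + x * ε by ring]
  · linarith [show (1 - x) * (1 - ε) = 1 - x - ε + x * ε by ring]

lemma aux2 (N P L Y2 y ℓ LB : ℝ) (hN : 0 < N) (hP : 0 < P) (hℓ : 0 < ℓ) (hy2 : y ≤ 3 * N) (hYB2 : 8 * LB ≤ Y2) (hLB : 0 < LB)
    (h2 : 1 ≤ ℓ * (P * LB)) : y * 2 ≤ ℓ * (N * P * Y2) := by
  have h3 : 6 * N * 1 ≤ 6 * N * (ℓ * (P * LB)) := mul_le_mul_of_nonneg_left h2 (by positivity)
  have h5 : 0 < ℓ * (N * P) := by positivity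
  have h6 : ℓ * (N * P) * (8 * LB) ≤ ℓ * (N * P) * Y2 := mul_le_mul_of_nonneg_left hYB2 h5.le
  have h7 : 0 < ℓ * (N * P) * LB := by positivity
  linarith [show 6 * N * (ℓ * (P * LB)) = 6 * (ℓ * (N * P) * LB) by ring, show ℓ * (N * P) * (8 * LB) = 8 * (ℓ * (N * P) * LB) by ring,
    show ℓ * (N * P * Y2) = ℓ * (N * P) * Y2 by ring]

lemma aux3 (x : ℝ) (hx : 0 < x) (hx1 : x ≤ 1 / 4) : x / 2 ≤ x * (1 - x) ∧ 0 ≤ x * (1 - x) := by
  constructor <;> nlinarith

theorem real_version (B : ℕ) : ∃ (C : ℕ) (N₀ : ℝ), ∀ (N P : ℝ) (A : Finset ℕ), N₀ ≤ N → Real.log N ^ C ≤ P → P ≤ N ^ B →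
    (∀ a ∈ A, a.Prime ∧ P / 2 < a ∧ (a : ℝ) ≤ P) → P / Real.log N ^ B ≤ A.card →
    ∃ E : Set ℝ, volume E ≤ ENNReal.ofReal (N / Real.log N ^ B) ∧ ∀ y : ℝ, N / 2 ≤ y → y ≤ 3 * N → y ∉ E → ∀ ℓ : ℝ,
      1 / (P * Real.log N ^ B) ≤ ℓ → ℓ ≤ N / Real.log N ^ C →
      |Th A y ℓ - ℓ * ∑ a ∈ A, (a : ℝ)| ≤ ℓ * (∑ a ∈ A, (a : ℝ)) / Real.log N ^ B := by
  obtain ⟨Ce, Y₀, hU⟩ := uniform (B + 2)
  refine ⟨2 * Ce + B + 4, Real.exp (max (max Y₀ 100) (B + 1)), ?_⟩
  intro N P A hN hCP hPN hA hcard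
  have hNp : 0 < N := (Real.exp_pos _).trans_le hN
  obtain ⟨L, hL⟩ : ∃ L : ℝ, L = Real.log N := ⟨_, rfl⟩
  have hLN : max (max Y₀ 100) (B + 1 : ℝ) ≤ L := by rw [hL, Real.le_log_iff_exp_le hNp]; exact hN
  have hL0 : Y₀ ≤ L := (le_max_left _ _).trans ((le_max_left _ _).trans hLN)
  have hL100 : 100 ≤ L := (le_max_right _ _).trans ((le_max_left _ _).trans hLN)
  have hLB : (B + 1 : ℝ) ≤ L := (le_max_right _ _).trans hLN
  rw [← hL] at hCP hcard ⊢
  have hLp : 0 < L := by linarith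
  have hL1 : 1 ≤ L := by linarith
  have hP1 : 1 ≤ P := (one_le_pow₀ hL1).trans hCP
  have hPp : 0 < P := by linarith
  have hlP0 : 0 ≤ Real.log P := Real.log_nonneg hP1
  have hlP1 : Real.log P ≤ B * L := by
    have := Real.log_le_log hPp hPN
    rw [Real.log_pow] at this
    rw [hL]; exact this
  obtain ⟨Y, hY⟩ : ∃ Y : ℝ, Y = L + Real.log P := ⟨_, rfl⟩
  have hYL : L ≤ Y := by linarith
  have hYL2 : Y ≤ L * L := by nlinarith
  have hY1 : 1 ≤ Y := by linarith
  have hYp : 0 < Y := by linarith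
  have hexpY : Real.exp Y = N * P := by rw [hY, Real.exp_add, hL, Real.exp_log hNp, Real.exp_log hPp]
  have hN1 : 1 ≤ N := by
    have h1 := Real.add_one_le_exp (max (max Y₀ 100) (B + 1 : ℝ))
    have h2 : (100 : ℝ) ≤ max (max Y₀ 100) (B + 1 : ℝ) := (le_max_right _ _).trans (le_max_left _ _)
    linarith
  have hYCe : Y ^ Ce ≤ P := by
    calc Y ^ Ce ≤ (L * L) ^ Ce := pow_le_pow_left₀ hYp.le hYL2 _
      _ = L ^ (2 * Ce) := by rw [← pow_two, ← pow_mul]
      _ ≤ L ^ (2 * Ce + B + 4) := pow_le_pow_right₀ hL1 (by omega)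
      _ ≤ P := hCP
  have hPY : P ≤ Real.exp Y := by rw [hexpY]; exact le_mul_of_one_le_left hPp.le hN1
  have hLBp : 0 < L ^ B := by positivity
  have hLYB : L ^ B ≤ Y ^ B := pow_le_pow_left₀ hLp.le hYL B
  have hYB2 : 8 * L ^ B ≤ Y ^ (B + 2) := by
    rw [pow_add]
    have h1 : 8 ≤ Y ^ 2 := by nlinarith
    have h2 : 0 < Y ^ B := by positivity
    nlinarith
  obtain ⟨E0, hE0, hE1⟩ := hU Y P A (fun a => a / P) (hL0.trans hYL) hYCe hPY hA
    (by
      intro a ha
      obtain ⟨_, h1, h2⟩ := hA a ha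
      constructor
      · rw [le_div_iff₀ hPp]; linarith
      · rw [div_le_one hPp]; exact h2)
    (by
      refine le_trans ?_ hcard
      apply div_le_div_of_nonneg_left hPp.le hLBp
      linarith)
  refine ⟨Real.exp '' (toMeasurable volume E0 ∩ Set.Iic (Real.log (3 * N))), ?_, ?_⟩
  · refine (exp_img E0 (3 * N) (by positivity)).trans ?_
    calc ENNReal.ofReal (3 * N) * volume E0 ≤ ENNReal.ofReal (3 * N) * ENNReal.ofReal (1 / Y ^ (B + 2)) := by gcongr
      _ = ENNReal.ofReal (3 * N * (1 / Y ^ (B + 2))) := by rw [← ENNReal.ofReal_mul (by positivity)]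
      _ ≤ ENNReal.ofReal (N / L ^ B) := by
          apply ENNReal.ofReal_le_ofReal
          rw [mul_one_div, div_le_div_iff₀ (by positivity) hLBp]
          nlinarith
  · intro y hy1 hy2 hyE ℓ hℓ1 hℓ2
    have hyp : 0 < y := by linarith
    have hℓp : 0 < ℓ := lt_of_lt_of_le (by positivity) hℓ1
    have hu : Real.log y ∉ E0 := by
      intro hu
      apply hyE
      refine ⟨Real.log y, ⟨subset_toMeasurable _ _ hu, ?_⟩, Real.exp_log hyp⟩
      exact Real.log_le_log hyp hy2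
    have hur : |Real.log y + Real.log P - Y| ≤ 6 / 5 := by
      have h1 : Real.log y ≤ Real.log N + Real.log 3 := by
        rw [← Real.log_mul hNp.ne' (by norm_num)]
        exact Real.log_le_log hyp (by linarith)
      have h2 : Real.log N - Real.log 2 ≤ Real.log y := by
        rw [← Real.log_div hNp.ne' (by norm_num)]
        exact Real.log_le_log (by positivity) hy1
      have h3 := log_small
      have h4 := Real.log_two_lt_d9
      rw [hY, hL, abs_le]
      constructor <;> linarith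
    obtain ⟨x, hx⟩ : ∃ x : ℝ, x = ℓ / y := ⟨_, rfl⟩
    have hxp : 0 < x := by rw [hx]; positivity
    have hyx : y * x = ℓ := by rw [hx]; field_simp
    have hxs : x ≤ 1 / (4 * L ^ B) := by
      rw [hx, div_le_div_iff₀ hyp (by positivity)]
      have h1 : ℓ * L ^ (2 * Ce + B + 4) ≤ N := by rwa [le_div_iff₀ (by positivity)] at hℓ2
      have h2 : L ^ B * 8 ≤ L ^ (2 * Ce + B + 4) := by
        have h3 : L ^ (2 * Ce + B + 4) = L ^ B * L ^ (2 * Ce + 4) := by rw [← pow_add]; congr 1; ring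
        have h4 : 8 ≤ L ^ (2 * Ce + 4) := by
          calc (8 : ℝ) ≤ L ^ 1 := by rw [pow_one]; linarith
            _ ≤ L ^ (2 * Ce + 4) := pow_le_pow_right₀ hL1 (by omega)
        rw [h3]
        exact mul_le_mul_of_nonneg_left h4 hLBp.le
      have h5 : ℓ * (L ^ B * 8) ≤ ℓ * L ^ (2 * Ce + B + 4) := mul_le_mul_of_nonneg_left h2 hℓp.le
      linarith
    have hLB1 : 1 ≤ L ^ B := one_le_pow₀ hL1
    have hxs' : x ≤ 1 / 4 := by
      refine hxs.trans ?_
      apply one_div_le_one_div_of_le (by norm_num)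
      linarith
    have hh1 : Real.log (1 + x) ≤ x := by
      have := Real.log_le_sub_one_of_pos (show 0 < 1 + x by linarith)
      linarith
    have hh2 : x * (1 - x) ≤ Real.log (1 + x) := by
      have h1 := Real.one_sub_inv_le_log_of_pos (show 0 < 1 + x by linarith)
      have h2 : x * (1 - x) ≤ 1 - (1 + x)⁻¹ := by
        have h3 : 1 - (1 + x)⁻¹ - x * (1 - x) = x ^ 3 / (1 + x) := by field_simp; ring
        have h4 : 0 ≤ x ^ 3 / (1 + x) := by positivity
        linarith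
      linarith
    have hhlow : Real.exp (-Y) / Y ^ (B + 2) ≤ Real.log (1 + x) := by
      refine le_trans ?_ hh2
      have h1 : x / 2 ≤ x * (1 - x) := (aux3 x hxp hxs').1
      refine le_trans ?_ h1
      rw [Real.exp_neg, hexpY, hx, div_div, inv_eq_one_div, div_div, div_le_div_iff₀ (by positivity) (by positivity), one_mul]
      have h2 : 1 ≤ ℓ * (P * L ^ B) := by rwa [div_le_iff₀ (by positivity)] at hℓ1
      exact aux2 N P L (Y ^ (B + 2)) y ℓ (L ^ B) hNp hPp hℓp hy2 hYB2 hLBp h2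
    have key := hE1 (Real.log y) hu hur (Real.log (1 + x)) hhlow (hh1.trans hxs')
    obtain ⟨hT1, hT2⟩ := Th_GQ A P y ℓ hPp hyp hℓp (fun a ha => (hA a ha).1)
    rw [← hx] at hT1 hT2
    obtain ⟨G, hG⟩ : ∃ G : ℝ, G = GQ A (fun a => a / P) (Real.log (1 + x)) (Real.log y) := ⟨_, rfl⟩
    rw [← hG] at key hT1 hT2
    obtain ⟨S, hS⟩ : ∃ S : ℝ, S = ∑ a ∈ A, (a : ℝ) := ⟨_, rfl⟩
    have hS0 : 0 ≤ S := by rw [hS]; exact sum_nonneg fun _ _ => Nat.cast_nonneg _
    have hWS : ∑ a ∈ A, (a : ℝ) / P = S / P := by rw [hS, sum_div]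
    rw [hWS] at key
    rw [← hS]
    obtain ⟨ε, hε⟩ : ∃ ε : ℝ, ε = 1 / Y ^ (B + 2) := ⟨_, rfl⟩
    have hεp : 0 < ε := by rw [hε]; positivity
    have hεs : ε ≤ 1 / (4 * L ^ B) := by
      rw [hε]
      apply one_div_le_one_div_of_le (by positivity)
      linarith
    obtain ⟨h, hh⟩ : ∃ h : ℝ, h = Real.log (1 + x) := ⟨_, rfl⟩
    rw [← hh] at hh1 hh2 key
    have hkey2 : |P * G - S * h| ≤ S * h * ε := by
      have h1 : P * G - S * h = P * (G - S / P * h) := by field_simp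
      rw [h1, abs_mul, abs_of_pos hPp]
      calc P * |G - S / P * h| ≤ P * (S / P * h / Y ^ (B + 2)) := mul_le_mul_of_nonneg_left key hPp.le
        _ = S * h * ε := by rw [hε]; field_simp
    rw [abs_le] at hkey2
    obtain ⟨hk1, hk2⟩ := hkey2
    have hh0 : 0 ≤ h := (aux3 x hxp hxs').2.trans hh2
    obtain ⟨D, hD⟩ : ∃ D : ℝ, D = 1 / (4 * L ^ B) := ⟨_, rfl⟩
    rw [← hD] at hxs hεs
    have hD1 : D ≤ 1 / 4 := by
      rw [hD]; apply one_div_le_one_div_of_le (by norm_num); linarith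
    have hgoal : ℓ * S / L ^ B = 4 * D * (ℓ * S) := by rw [hD]; field_simp
    rw [hgoal]
    have hSx : 0 ≤ S * x := by positivity
    have hSℓ : 0 ≤ ℓ * S := by positivity
    have hup : Th A y ℓ ≤ (1 + x) * (1 + ε) * (ℓ * S) := by
      calc Th A y ℓ ≤ (y + ℓ) * P * G := hT2
        _ = (y + ℓ) * (P * G) := by ring
        _ ≤ (y + ℓ) * (S * x * (1 + ε)) := by
            apply mul_le_mul_of_nonneg_left _ (by positivity)
            have h1 : S * h ≤ S * x := mul_le_mul_of_nonneg_left hh1 hS0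
            have h2 : S * h * (1 + ε) ≤ S * x * (1 + ε) := mul_le_mul_of_nonneg_right h1 (by linarith)
            linarith
        _ = (1 + x) * (1 + ε) * (ℓ * S) := by
            rw [← hyx]; ring
    have hlo : (1 - x) * (1 - ε) * (ℓ * S) ≤ Th A y ℓ := by
      calc (1 - x) * (1 - ε) * (ℓ * S) = y * (S * (x * (1 - x)) * (1 - ε)) := by rw [← hyx]; ring
        _ ≤ y * (S * h * (1 - ε)) := by
            apply mul_le_mul_of_nonneg_left _ hyp.le
            apply mul_le_mul_of_nonneg_right _ (by linarith)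
            exact mul_le_mul_of_nonneg_left hh2 hS0
        _ ≤ y * (P * G) := by
            apply mul_le_mul_of_nonneg_left _ hyp.le
            linarith
        _ = y * P * G := by ring
        _ ≤ Th A y ℓ := hT1
    obtain ⟨hc1, hc2⟩ := aux1 x ε D hxp hxs hεp hεs hD1
    rw [abs_le]
    constructor
    · have := mul_le_mul_of_nonneg_right hc2 hSℓ
      linarith
    · have := mul_le_mul_of_nonneg_right hc1 hSℓ
      linarith

end Pool.Agent.H15.QP
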