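import Pool.Agent.H15.QP.T2c

/-! Sparse sets of frequencies: the von Mangoldt function. -/

set_option autoImplicit false

namespace Pool.Agent.H15.QP
open Finset
open Pool.Agent.H376R2.MR (er kern_er_norm kern_er_add kern_er_cont)
open Pool.Agent.H376R2.MR renaming w → tw
open Pool.Agent.Y851.HZ
open ArithmeticFunction (vonMangoldt moebius)

lemma poly_exp (m : ℕ) (η : ℝ) (hη : 0 < η) : ∃ C : ℝ, 0 < C ∧ ∀ Y : ℝ, 0 ≤ Y → Y ^ m * Real.exp (-(η * Y)) ≤ C := by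
  refine ⟨m.factorial / η ^ m, by positivity, fun Y hY => ?_⟩
  have h := Real.pow_div_factorial_le_exp (x := η * Y) (by positivity) m
  rw [div_le_iff₀ (by positivity)] at h
  rw [le_div_iff₀ (by positivity)]
  calc Y ^ m * Real.exp (-(η * Y)) * η ^ m = (η * Y) ^ m * Real.exp (-(η * Y)) := by ring
    _ ≤ (Real.exp (η * Y) * m.factorial) * Real.exp (-(η * Y)) := by gcongr
    _ = (Real.exp (η * Y) * Real.exp (-(η * Y))) * m.factorial := by ring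
    _ = m.factorial := by rw [← Real.exp_add, add_neg_cancel, Real.exp_zero, one_mul]

lemma WS_indep (N N' : ℕ) (V τ : ℝ) (hN : Real.exp (V + 1) ≤ N) (hN' : Real.exp (V + 1) ≤ N') (f : ArithmeticFunction ℝ) :
    WS N V τ f = WS N' V τ f := by
  have key : ∀ N N' : ℕ, Real.exp (V + 1) ≤ N → N ≤ N' → WS N V τ f = WS N' V τ f := by
    intro N N' hN hNN
    unfold WS
    apply sum_subset (Icc_subset_Icc le_rfl hNN)
    intro n hn hn2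
    rw [mem_Icc] at hn
    have h1 : N < n := by
      by_contra h
      exact hn2 (mem_Icc.2 ⟨hn.1, by omega⟩)
    have hn0 : (0 : ℝ) < n := by exact_mod_cast hn.1
    have h2 : Real.exp (V + 1) < n := lt_of_le_of_lt hN (by exact_mod_cast h1)
    have h3 : V + 1 ≤ Real.log n := by
      rw [Real.le_log_iff_exp_le hn0]; exact h2.le
    rw [tw_supp _ (by rw [abs_of_nonneg] <;> linarith)]
    simp
  rcases le_total N N' with h | h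
  · exact key N N' hN h
  · exact (key N' N hN' h).symm

lemma WS_tru (z N : ℕ) (Y τ : ℝ) (hz : Real.log z ≤ Y - 1) (f : ArithmeticFunction ℝ) : WS N Y τ (tru z f) = 0 := by
  unfold WS
  apply sum_eq_zero
  intro n hn
  rw [mem_Icc] at hn
  have hn0 : (0 : ℝ) < n := by exact_mod_cast hn.1
  rw [tru_apply]
  split_ifs with h
  · have h1 : Real.log n ≤ Real.log z := Real.log_le_log hn0 (by exact_mod_cast h)
    rw [tw_supp _ (by rw [abs_of_nonpos] <;> linarith)]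
    simp
  · simp

lemma sum_inv_s (J : Finset ℤ) (s T : ℝ) (hT : 1 ≤ T) (hs : |s| ≤ 1) (hJ : ∀ j ∈ J, |(j : ℝ)| ≤ T) :
    ∑ j ∈ J, 1 / (1 + |(j : ℝ) + s|) ≤ 4 * (1 + Real.log (2 * T + 1)) := by
  have h1 : ∀ j ∈ J, 1 / (1 + |(j : ℝ) + s|) ≤ 2 * (1 / (1 + |((0 : ℤ) : ℝ) - j|)) := by
    intro j _
    have h2 : |(j : ℝ)| ≤ |(j : ℝ) + s| + |s| := by
      have := abs_add_le ((j : ℝ) + s) (-s)
      rw [add_neg_cancel_right, abs_neg] at this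
      exact this
    rw [Int.cast_zero, zero_sub, abs_neg]
    have h3 := abs_nonneg ((j : ℝ) + s)
    have h4 := abs_nonneg (j : ℝ)
    rw [mul_one_div, div_le_div_iff₀ (by linarith) (by linarith)]
    linarith
  refine (sum_le_sum h1).trans ?_
  rw [← mul_sum]
  have h2 := sum_inv_J (insert 0 J) T hT (by
    intro j hj
    rw [mem_insert] at hj
    rcases hj with h | h
    · rw [h]; simp; linarith
    · exact hJ j h) 0 (mem_insert_self _ _)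
  have h3 : ∑ j ∈ J, 1 / (1 + |((0 : ℤ) : ℝ) - j|) ≤ ∑ j ∈ insert 0 J, 1 / (1 + |((0 : ℤ) : ℝ) - j|) :=
    sum_le_sum_of_subset_of_nonneg (subset_insert _ _) fun _ _ _ => by positivity
  linarith

/-- sums of squares of the bound for smooth sums -/
lemma type1_sq (J : Finset ℤ) (s T T₀ a C : ℝ) (hT : 1 ≤ T) (hT₀ : 1 ≤ T₀) (hs : |s| ≤ 1) (hJ : ∀ j ∈ J, |(j : ℝ)| ≤ T ∧ T₀ ≤ |(j : ℝ) + s|) :
    ∑ j ∈ J, (16 * (1 / (1 + |(j : ℝ) + s|)) + C * a) ^ 2 ≤ 2048 / T₀ * (1 + Real.log (2 * T + 1)) + 2 * C ^ 2 * (J.card * a ^ 2) := by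
  have h1 : ∀ j ∈ J, (16 * (1 / (1 + |(j : ℝ) + s|)) + C * a) ^ 2 ≤ 512 / T₀ * (1 / (1 + |(j : ℝ) + s|)) + 2 * C ^ 2 * a ^ 2 := by
    intro j hj
    obtain ⟨_, h2⟩ := hJ j hj
    have h3 : 1 / (1 + |(j : ℝ) + s|) ≤ 1 / T₀ := one_div_le_one_div_of_le (by linarith) (by linarith)
    have h4 : 0 ≤ 1 / (1 + |(j : ℝ) + s|) := by positivity
    generalize 1 / (1 + |(j : ℝ) + s|) = x at *
    have h5 : x * x ≤ 1 / T₀ * x := mul_le_mul_of_nonneg_right h3 h4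
    have e : 512 / T₀ * x = 512 * (1 / T₀ * x) := by ring
    rw [e]
    nlinarith [sq_nonneg (16 * x - C * a)]
  refine (sum_le_sum h1).trans ?_
  rw [sum_add_distrib, ← mul_sum, sum_const, nsmul_eq_mul]
  have h2 := sum_inv_s J s T hT hs (fun j hj => (hJ j hj).1)
  have h3 : 0 ≤ 512 / T₀ := by positivity
  have h4 := mul_le_mul_of_nonneg_left h2 h3
  calc _ ≤ 512 / T₀ * (4 * (1 + Real.log (2 * T + 1))) + (J.card : ℝ) * (2 * C ^ 2 * a ^ 2) := by linarith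
    _ = _ := by ring

lemma sq_three (a b c d : ℂ) (h : d = a - b + c) : ‖d‖ ^ 2 ≤ 3 * ‖a‖ ^ 2 + 3 * ‖b‖ ^ 2 + 3 * ‖c‖ ^ 2 := by
  have h1 : ‖d‖ ≤ ‖a‖ + ‖b‖ + ‖c‖ := by
    rw [h]
    refine (norm_add_le _ _).trans ?_
    have := norm_sub_le a b
    linarith
  have h2 := norm_nonneg d
  nlinarith [sq_nonneg (‖a‖ - ‖b‖), sq_nonneg (‖b‖ - ‖c‖), sq_nonneg (‖a‖ - ‖c‖)]

lemma final2 (K B K₀ H I : ℕ) (Y lz T₀ C₃ Q D₃ : ℝ) (hB : B = K + 10) (hK₀ : K₀ = B + K + 10) (hY : 80 ≤ Y) (hlz : Y / 5 ≤ lz)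
    (hT₀ : T₀ = Y ^ K₀) (hC₃ : 1 ≤ C₃) (hHY : Y ^ B ≤ H) (hI2 : (I : ℝ) ≤ (2 * Y) ^ B * (2 * Y)) (hQ0 : 0 ≤ Q) (hQ : Q ≤ 6 * Y)
    (hD₃ : D₃ = 2 * (4 * 4 ^ B * (C₃ * 5 ^ K₀ + 2) ^ 2 + 1) * 64 * (C₃ * 6)) :
    2 * ((I : ℝ) ^ 2 * (C₃ / lz ^ K₀ + 2 / T₀) ^ 2 + 1 / (H : ℝ) ^ 2) * (Y + 3) ^ 6 * (C₃ * Q) ≤ D₃ / Y ^ (K + 1) := by
  have hY0 : 0 < Y := by linarith
  have hY1 : 1 ≤ Y := by linarith
  have hlz0 : 0 < lz := by linarith
  have hT00 : 0 < T₀ := by rw [hT₀]; positivity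
  obtain ⟨E, hE⟩ : ∃ E, E = C₃ * 5 ^ K₀ + 2 := ⟨_, rfl⟩
  have hE0 : 0 ≤ E := by rw [hE]; positivity
  have k1 : C₃ / lz ^ K₀ + 2 / T₀ ≤ E / Y ^ K₀ := by
    have h1 : C₃ / lz ^ K₀ ≤ C₃ / (Y / 5) ^ K₀ := by gcongr
    have h2 : C₃ / (Y / 5) ^ K₀ = C₃ * 5 ^ K₀ / Y ^ K₀ := by rw [div_pow]; field_simp
    rw [hE, add_div, hT₀]
    linarith
  have k1' : 0 ≤ C₃ / lz ^ K₀ + 2 / T₀ := by positivity
  have k2 : (I : ℝ) ^ 2 ≤ 4 * 4 ^ B * Y ^ (2 * B + 2) := by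
    calc (I : ℝ) ^ 2 ≤ ((2 * Y) ^ B * (2 * Y)) ^ 2 := by gcongr
      _ = 4 * (2 ^ B) ^ 2 * (Y ^ B) ^ 2 * Y ^ 2 := by rw [mul_pow 2 Y B]; ring
      _ = 4 * 4 ^ B * Y ^ (2 * B + 2) := by
          rw [← pow_mul, mul_comm B 2, pow_mul, ← pow_mul Y B 2]
          norm_num
          ring
  have k3 : (I : ℝ) ^ 2 * (C₃ / lz ^ K₀ + 2 / T₀) ^ 2 ≤ 4 * 4 ^ B * E ^ 2 / Y ^ (2 * K + 18) := by
    calc (I : ℝ) ^ 2 * (C₃ / lz ^ K₀ + 2 / T₀) ^ 2 ≤ (4 * 4 ^ B * Y ^ (2 * B + 2)) * (E / Y ^ K₀) ^ 2 := by gcongr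
      _ = 4 * 4 ^ B * E ^ 2 * (Y ^ (2 * B + 2) / Y ^ (2 * K₀)) := by rw [div_pow, ← pow_mul, mul_comm K₀ 2]; ring
      _ = 4 * 4 ^ B * E ^ 2 * (1 / Y ^ (2 * K + 18)) := by
          congr 1
          rw [div_eq_div_iff (by positivity) (by positivity), one_mul, ← pow_add]
          congr 1
          omega
      _ = _ := by ring
  have k4 : 1 / (H : ℝ) ^ 2 ≤ 1 / Y ^ (2 * K + 18) := by
    apply one_div_le_one_div_of_le (by positivity)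
    calc Y ^ (2 * K + 18) ≤ Y ^ (2 * B) := pow_le_pow_right₀ hY1 (by omega)
      _ = (Y ^ B) ^ 2 := by rw [← pow_mul, mul_comm]
      _ ≤ (H : ℝ) ^ 2 := by gcongr
  have k5 : (Y + 3) ^ 6 ≤ 64 * Y ^ 6 := by
    calc (Y + 3) ^ 6 ≤ (2 * Y) ^ 6 := by gcongr; linarith
      _ = 64 * Y ^ 6 := by ring
  calc 2 * ((I : ℝ) ^ 2 * (C₃ / lz ^ K₀ + 2 / T₀) ^ 2 + 1 / (H : ℝ) ^ 2) * (Y + 3) ^ 6 * (C₃ * Q) ≤
      2 * (4 * 4 ^ B * E ^ 2 / Y ^ (2 * K + 18) + 1 / Y ^ (2 * K + 18)) * (64 * Y ^ 6) * (C₃ * (6 * Y)) := by gcongr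
    _ = D₃ * (Y ^ 7 / Y ^ (2 * K + 18)) := by rw [hD₃, hE]; ring
    _ ≤ D₃ * (1 / Y ^ (K + 1)) := by
        have hD0 : 0 ≤ D₃ := by rw [hD₃]; positivity
        apply mul_le_mul_of_nonneg_left _ hD0
        rw [div_le_div_iff₀ (by positivity) (by positivity), one_mul, ← pow_add]
        exact pow_le_pow_right₀ hY1 (by omega)
    _ = _ := by ring

/-- **The von Mangoldt function on sparse sets of frequencies** -/
theorem sparse : ∃ c₀ : ℝ, 0 < c₀ ∧ ∀ K : ℕ, ∃ (K₀ : ℕ) (Y₀ : ℝ), ∀ (N : ℕ) (Y s : ℝ) (J : Finset ℤ), Y₀ ≤ Y → Real.exp (Y + 1) ≤ N →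
    |s| ≤ 1 → (∀ j ∈ J, |(j : ℝ)| ≤ Real.exp (4 * Y) ∧ Y ^ K₀ ≤ |(j : ℝ) + s|) → (J.card : ℝ) ≤ Real.exp (c₀ * Y) →
    ∑ j ∈ J, ‖WS N Y (j + s) vonMangoldt‖ ^ 2 ≤ 1 / Y ^ K := by
  obtain ⟨η₁, C₁, hη₁, hη₁1, hC₁, h1⟩ := type1a 10
  obtain ⟨η₂, C₂, hη₂, hη₂1, hC₂, h2⟩ := type1b 10
  obtain ⟨η₃, hη₃, hη₃1, h3⟩ := type2 25 25
  obtain ⟨η, hη⟩ : ∃ η, η = min (min η₁ η₂) η₃ := ⟨_, rfl⟩
  have hη0 : 0 < η := by rw [hη]; exact lt_min (lt_min hη₁ hη₂) hη₃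
  have hηη₁ : η ≤ η₁ := by rw [hη]; exact (min_le_left _ _).trans (min_le_left _ _)
  have hηη₂ : η ≤ η₂ := by rw [hη]; exact (min_le_left _ _).trans (min_le_right _ _)
  have hηη₃ : η ≤ η₃ := by rw [hη]; exact min_le_right _ _
  refine ⟨η / 5, by positivity, fun K => ?_⟩
  obtain ⟨B, hB⟩ : ∃ B : ℕ, B = K + 10 := ⟨_, rfl⟩
  obtain ⟨K₀, hK₀⟩ : ∃ K₀ : ℕ, K₀ = B + K + 10 := ⟨_, rfl⟩
  obtain ⟨C₃, hC₃, h3⟩ := h3 K₀
  obtain ⟨C₄, hC₄, h4⟩ := poly_exp (K + 10) η hη0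
  -- the constants of the final comparison
  obtain ⟨D₁, hD₁⟩ : ∃ D₁ : ℝ, D₁ = 16 * (2048 * 5 + 2 * C₁ ^ 2 * C₄) := ⟨_, rfl⟩
  obtain ⟨D₂, hD₂⟩ : ∃ D₂ : ℝ, D₂ = 16 * (2048 * 5 + 2 * C₂ ^ 2 * C₄) := ⟨_, rfl⟩
  obtain ⟨D₃, hD₃⟩ : ∃ D₃ : ℝ, D₃ = 2 * (4 * 4 ^ B * (C₃ * 5 ^ K₀ + 2) ^ 2 + 1) * 64 * (C₃ * 6) := ⟨_, rfl⟩
  have hD₁0 : 0 ≤ D₁ := by rw [hD₁]; positivity
  have hD₂0 : 0 ≤ D₂ := by rw [hD₂]; positivity
  have hD₃0 : 0 ≤ D₃ := by rw [hD₃]; positivity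
  refine ⟨K₀, max 80 (3 * (D₁ + D₂ + D₃)), fun N Y s J hY hN hs hJ hJc => ?_⟩
  have hY80 : 80 ≤ Y := (le_max_left _ _).trans hY
  have hYD : 3 * (D₁ + D₂ + D₃) ≤ Y := (le_max_right _ _).trans hY
  have hY0 : 0 < Y := by linarith
  have hY1 : 1 ≤ Y := by linarith
  obtain ⟨T, hT⟩ : ∃ T, T = Real.exp (4 * Y) := ⟨_, rfl⟩
  obtain ⟨T₀, hT₀⟩ : ∃ T₀, T₀ = Y ^ K₀ := ⟨_, rfl⟩
  rw [← hT, ← hT₀] at hJ
  have hT1 : 1 ≤ T := by rw [hT]; exact Real.one_le_exp (by linarith)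
  have hT01 : 1 ≤ T₀ := by rw [hT₀]; exact one_le_pow₀ hY1
  have hT00 : 0 < T₀ := by linarith
  have he1 := Real.exp_one_gt_d9
  have hlogT : 1 + Real.log (2 * T + 1) ≤ 5 * Y := by
    have h5 : 2 * T + 1 ≤ Real.exp (4 * Y + 2) := by
      rw [Real.exp_add, ← hT]
      have h6 : (3 : ℝ) ≤ Real.exp 2 := by
        have : Real.exp 2 = Real.exp 1 ^ 2 := by rw [← Real.exp_nat_mul]; norm_num
        rw [this]; nlinarith only [he1]
      nlinarith only [h6, hT1]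
    have h7 : Real.log (2 * T + 1) ≤ 4 * Y + 2 := by
      rw [Real.log_le_iff_le_exp (by linarith)]; exact h5
    linarith
  have hlogT0 : 0 ≤ Real.log (2 * T + 1) := Real.log_nonneg (by linarith)
  -- the parameters
  obtain ⟨z, hz⟩ : ∃ z : ℕ, z = ⌊Real.exp (Y / 4)⌋₊ := ⟨_, rfl⟩
  have hzle : (z : ℝ) ≤ Real.exp (Y / 4) := by rw [hz]; exact Nat.floor_le (Real.exp_pos _).le
  have hzge : Real.exp (Y / 4 - 1) ≤ z := by
    have h5 : Real.exp (Y / 4) < (z : ℝ) + 1 := by rw [hz]; exact Nat.lt_floor_add_one _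
    have h6 : Real.exp (Y / 4) = Real.exp (Y / 4 - 1) * Real.exp 1 := by rw [← Real.exp_add]; congr 1; ring
    have h7 : 1 ≤ Real.exp (Y / 4 - 1) := Real.one_le_exp (by linarith)
    nlinarith only [h5, h6, h7, he1]
  have hz0 : (0 : ℝ) < z := lt_of_lt_of_le (Real.exp_pos _) hzge
  have hz1 : 1 ≤ z := by exact_mod_cast hz0
  have hlz1 : Real.log z ≤ Y / 4 := by rw [Real.log_le_iff_le_exp hz0]; exact hzle
  have hlz2 : Y / 4 - 1 ≤ Real.log z := by rw [Real.le_log_iff_exp_le hz0]; exact hzge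
  obtain ⟨Yn, hYn⟩ : ∃ Yn : ℕ, Yn = ⌈Y⌉₊ := ⟨_, rfl⟩
  have hYn1 : Y ≤ Yn := by rw [hYn]; exact Nat.le_ceil _
  have hYn2 : (Yn : ℝ) ≤ 2 * Y := by
    have : (Yn : ℝ) < Y + 1 := by rw [hYn]; exact Nat.ceil_lt_add_one hY0.le
    linarith
  obtain ⟨H, hH⟩ : ∃ H : ℕ, H = Yn ^ B := ⟨_, rfl⟩
  have hB1 : B ≠ 0 := by omega
  have hYn80 : 2 ≤ Yn := by
    have : (2 : ℝ) ≤ Yn := by linarith
    exact_mod_cast this
  have hH2 : 2 ≤ H := by rw [hH]; exact hYn80.trans (Nat.le_self_pow hB1 _)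
  have hHY : Y ^ B ≤ H := by rw [hH]; push_cast; gcongr
  have hHY2 : (H : ℝ) ≤ (2 * Y) ^ B := by rw [hH]; push_cast; gcongr
  have hH0 : (0 : ℝ) < H := by exact_mod_cast (by omega : 0 < H)
  obtain ⟨I, hI⟩ : ∃ I : ℕ, I = ⌈(H : ℝ) * (Y + 2)⌉₊ := ⟨_, rfl⟩
  have hI1 : (H : ℝ) * (Y + 2) ≤ I := by rw [hI]; exact Nat.le_ceil _
  have hI2 : (I : ℝ) ≤ (2 * Y) ^ B * (2 * Y) := by
    have h5 : (I : ℝ) < H * (Y + 2) + 1 := by rw [hI]; exact Nat.ceil_lt_add_one (by positivity)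
    have h6 : (1 : ℝ) ≤ H := by exact_mod_cast (by omega : 1 ≤ H)
    calc (I : ℝ) ≤ H * (Y + 3) := by nlinarith only [h5, h6]
      _ ≤ (2 * Y) ^ B * (2 * Y) := by gcongr; linarith
  have hNe : Real.exp (Y + 1) ≤ ep z H I := by
    have h5 : Real.exp (Y + 2) ≤ (z : ℝ) * Real.exp ((I : ℝ) / H) := by
      have h6 : Y + 2 ≤ (I : ℝ) / H := by rw [le_div_iff₀ hH0]; linarith
      have h7 : (1 : ℝ) ≤ z := by exact_mod_cast hz1
      calc Real.exp (Y + 2) ≤ 1 * Real.exp ((I : ℝ) / H) := by rw [one_mul]; exact Real.exp_le_exp.2 h6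
        _ ≤ _ := by gcongr
    have h8 : (z : ℝ) * Real.exp ((I : ℝ) / H) < (ep z H I : ℝ) + 1 := by unfold ep; exact Nat.lt_floor_add_one _
    have h9 : Real.exp (Y + 2) = Real.exp (Y + 1) * Real.exp 1 := by rw [← Real.exp_add]; congr 1; ring
    have h10 : 1 ≤ Real.exp (Y + 1) := Real.one_le_exp (by linarith)
    nlinarith only [h5, h8, h9, h10, he1]
  obtain ⟨N', hN'⟩ : ∃ N', N' = ep z H I := ⟨_, rfl⟩
  rw [← hN'] at hNe
  -- the frequencies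
  have hτ : ∀ j ∈ J, |(j : ℝ) + s| ≤ Real.exp (5 * Y) := by
    intro j hj
    have h5 := (hJ j hj).1
    have h6 := abs_add_le (j : ℝ) s
    have h7 : T + 1 ≤ Real.exp (5 * Y) := by
      have : Real.exp (5 * Y) = T * Real.exp Y := by rw [hT, ← Real.exp_add]; congr 1; ring
      rw [this]
      have h8 : 2 ≤ Real.exp Y := by
        have := Real.add_one_le_exp Y
        linarith
      nlinarith only [h8, hT1]
    linarith
  -- Vaughan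
  have hV : ∀ j ∈ J, ‖WS N Y (j + s) vonMangoldt‖ ^ 2 ≤ 3 * ‖WS N' Y (j + s) (tru z muR * ArithmeticFunction.log)‖ ^ 2 +
      3 * ‖WS N' Y (j + s) (tru z muR * tru z vonMangoldt * zeR)‖ ^ 2 + 3 * ‖WS N' Y (j + s) (bII z * aII z)‖ ^ 2 := by
    intro j _
    rw [WS_indep N N' Y _ hN hNe]
    apply sq_three
    conv_lhs => rw [vaughan z]
    rw [WS_add, WS_add, WS_add, WS_neg, WS_tru z N' Y _ (by linarith)]
    ring
  -- type one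
  have hone : ∀ (f : ArithmeticFunction ℝ) (η' C : ℝ), η ≤ η' → (∀ j ∈ J, ‖WS N' Y (j + s) f‖ ≤ (Y + 9) ^ 2 * (16 * (1 / (1 + |(j : ℝ) + s|)) + C * Real.exp (-(η' * Y)))) →
      ∑ j ∈ J, ‖WS N' Y (j + s) f‖ ^ 2 ≤ 16 * (2048 * 5 + 2 * C ^ 2 * C₄) / Y ^ (K + 1) := by
    intro f η' C hηη' hf
    have h5 : ∀ j ∈ J, ‖WS N' Y (j + s) f‖ ^ 2 ≤ (Y + 9) ^ 4 * (16 * (1 / (1 + |(j : ℝ) + s|)) + C * Real.exp (-(η' * Y))) ^ 2 := by
      intro j hj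
      have := pow_le_pow_left₀ (norm_nonneg _) (hf j hj) 2
      refine this.trans (le_of_eq ?_)
      ring
    refine (sum_le_sum h5).trans ?_
    rw [← mul_sum]
    have h6 := type1_sq J s T T₀ (Real.exp (-(η' * Y))) C hT1 hT01 hs hJ
    have h7 : (J.card : ℝ) * Real.exp (-(η' * Y)) ^ 2 ≤ Real.exp (-(η * Y)) := by
      calc (J.card : ℝ) * Real.exp (-(η' * Y)) ^ 2 ≤ Real.exp (η / 5 * Y) * Real.exp (-(η * Y)) ^ 2 := by gcongr
        _ = Real.exp (η / 5 * Y - 2 * (η * Y)) := by rw [← Real.exp_nat_mul, ← Real.exp_add]; congr 1; push_cast; ring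
        _ ≤ Real.exp (-(η * Y)) := Real.exp_le_exp.2 (by linarith [mul_pos hη0 hY0])
    have h8 : (Y + 9) ^ 4 ≤ 16 * Y ^ 4 := by
      calc (Y + 9) ^ 4 ≤ (2 * Y) ^ 4 := by gcongr; linarith
        _ = 16 * Y ^ 4 := by ring
    have h9 : Y ^ 4 * Real.exp (-(η * Y)) ≤ C₄ / Y ^ (K + 1) := by
      rw [le_div_iff₀ (by positivity)]
      calc Y ^ 4 * Real.exp (-(η * Y)) * Y ^ (K + 1) = Y ^ (K + 5) * Real.exp (-(η * Y)) := by ring
        _ ≤ Y ^ (K + 10) * Real.exp (-(η * Y)) := by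
            apply mul_le_mul_of_nonneg_right _ (Real.exp_pos _).le
            exact pow_le_pow_right₀ hY1 (by omega)
        _ ≤ C₄ := h4 Y hY0.le
    have h10 : Y ^ 4 * (Y / T₀) ≤ 1 / Y ^ (K + 1) := by
      rw [le_div_iff₀ (by positivity), hT₀]
      have e : Y ^ 4 * (Y / Y ^ K₀) * Y ^ (K + 1) = Y ^ (K + 6) / Y ^ K₀ := by ring
      rw [e, div_le_one (by positivity)]
      exact pow_le_pow_right₀ hY1 (by omega)
    have hS0 : 0 ≤ ∑ j ∈ J, (16 * (1 / (1 + |(j : ℝ) + s|)) + C * Real.exp (-(η' * Y))) ^ 2 := sum_nonneg fun _ _ => sq_nonneg _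
    calc (Y + 9) ^ 4 * ∑ j ∈ J, (16 * (1 / (1 + |(j : ℝ) + s|)) + C * Real.exp (-(η' * Y))) ^ 2 ≤
        16 * Y ^ 4 * (2048 / T₀ * (5 * Y) + 2 * C ^ 2 * Real.exp (-(η * Y))) := by
          apply mul_le_mul h8 _ hS0 (by positivity)
          refine h6.trans ?_
          gcongr
      _ = 16 * (2048 * 5 * (Y ^ 4 * (Y / T₀)) + 2 * C ^ 2 * (Y ^ 4 * Real.exp (-(η * Y)))) := by ring
      _ ≤ 16 * (2048 * 5 * (1 / Y ^ (K + 1)) + 2 * C ^ 2 * (C₄ / Y ^ (K + 1))) := by gcongr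
      _ = _ := by ring
  have q1 := hone (tru z muR * ArithmeticFunction.log) η₁ C₁ hηη₁ (fun j hj => h1 z N' Y (j + s) hz1 (by linarith) (by linarith) hNe
    ((hτ j hj).trans (Real.exp_le_exp.2 (by push_cast; linarith))))
  have q2 := hone (tru z muR * tru z vonMangoldt * zeR) η₂ C₂ hηη₂ (fun j hj => h2 z N' Y (j + s) hz1 (by linarith) hlz1 hNe
    ((hτ j hj).trans (Real.exp_le_exp.2 (by push_cast; linarith))))
  -- type two
  have q3 : ∑ j ∈ J, ‖WS N' Y (j + s) (bII z * aII z)‖ ^ 2 ≤ D₃ / Y ^ (K + 1) := by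
    rw [hN'] at hNe ⊢
    have h5 := h3 z H I Y s T T₀ J (by linarith) (by linarith) hH2 hNe hT1 hT01 (fun j hj => ⟨(hJ j hj).1, (hJ j hj).2, by
      refine (hτ j hj).trans ?_
      have h6 : (z : ℝ) ^ 25 = Real.exp (25 * Real.log z) := by
        have h7 := Real.exp_nat_mul (Real.log z) 25
        rw [Real.exp_log hz0] at h7
        rw [← h7]
        norm_num
      rw [h6]
      exact Real.exp_le_exp.2 (by linarith)⟩) (by
      have h6 : 2 * T ≤ Real.exp (5 * Y) := by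
        have : Real.exp (5 * Y) = T * Real.exp Y := by rw [hT, ← Real.exp_add]; congr 1; ring
        rw [this]
        have h8 : 2 ≤ Real.exp Y := by
          have := Real.add_one_le_exp Y
          linarith
        nlinarith only [h8, hT1]
      refine h6.trans (Real.exp_le_exp.2 ?_)
      push_cast
      linarith)
    refine h5.trans ?_
    exact final2 K B K₀ H I Y (Real.log z) T₀ C₃ _ _ hB hK₀ hY80 (by linarith) hT₀ hC₃ hHY hI2 (by positivity) (by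
      have h6 : (J.card : ℝ) * Real.exp (-(η₃ * (Real.log z - 1))) ≤ 1 := by
        calc (J.card : ℝ) * Real.exp (-(η₃ * (Real.log z - 1))) ≤ Real.exp (η / 5 * Y) * Real.exp (-(η₃ * (Real.log z - 1))) := by gcongr
          _ = Real.exp (η / 5 * Y - η₃ * (Real.log z - 1)) := by rw [← Real.exp_add]; congr 1
          _ ≤ 1 := by
              rw [Real.exp_le_one_iff]
              have h7 : η * (Y / 5) ≤ η₃ * (Real.log z - 1) := mul_le_mul hηη₃ (by linarith) (by positivity) (by linarith)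
              linarith
      linarith) hD₃
  refine (sum_le_sum hV).trans ?_
  rw [sum_add_distrib, sum_add_distrib, ← mul_sum, ← mul_sum, ← mul_sum]
  rw [← hD₁] at q1
  rw [← hD₂] at q2
  have h5 : 3 * (D₁ / Y ^ (K + 1)) + 3 * (D₂ / Y ^ (K + 1)) + 3 * (D₃ / Y ^ (K + 1)) ≤ 1 / Y ^ K := by
    rw [le_div_iff₀ (by positivity)]
    have e : (3 * (D₁ / Y ^ (K + 1)) + 3 * (D₂ / Y ^ (K + 1)) + 3 * (D₃ / Y ^ (K + 1))) * Y ^ K = 3 * (D₁ + D₂ + D₃) / Y := by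
      rw [pow_succ]
      field_simp
    rw [e, div_le_one hY0]
    exact hYD
  linarith

end Pool.Agent.H15.QP
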