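import Pool.Agent.H15.QP.Vau

/-! The sums of type one. -/

set_option autoImplicit false

namespace Pool.Agent.H15.QP
open Finset
open Pool.Agent.H376R2.MR (er kern_er_norm kern_er_add kern_er_cont)
open Pool.Agent.H376R2.MR renaming w → tw
open Pool.Agent.Y851.HZ
open ArithmeticFunction (vonMangoldt moebius)

lemma SS_e1 {g : ℝ → ℝ} (hg : Wd g) (V τ : ℝ) (N : ℕ) (hN : Real.exp (V + 1) ≤ N) :
    ∑ n ∈ Icc 1 N, (e1 τ n * (g (Real.log n - V) : ℂ)) = SS g V τ := by
  rw [← SS_ext hg V τ N ((Nat.floor_mono hN).trans (by simp))]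
  apply sum_congr rfl
  intro n _
  unfold e1
  push_cast
  ring

lemma WS_zeR (V τ : ℝ) (N : ℕ) (hN : Real.exp (V + 1) ≤ N) : WS N V τ zeR = SS tw V τ := by
  rw [← SS_e1 tw_wd V τ N hN]
  unfold WS
  apply sum_congr rfl
  intro n hn
  rw [mem_Icc] at hn
  rw [zeR_apply hn.1]
  push_cast
  ring

/-- the window with one more factor -/
noncomputable def gw (x : ℝ) : ℝ := 1 / 4 * (tw x * ((1 + clamp x) / 2))

lemma gw_wd : Wd gw := by
  apply wd_of (fun x => (1 + x) / 2)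
  · intro x hx
    have := (abs_le.1 hx).1
    linarith
  · intro x hx
    have := (abs_le.1 hx).2
    linarith
  · intro x y _ _
    rw [show (1 + x) / 2 - (1 + y) / 2 = (x - y) / 2 by ring, abs_div, abs_of_pos (by norm_num : (0 : ℝ) < 2)]
    have := abs_nonneg (x - y)
    linarith

lemma gw_eq (x : ℝ) : x * tw x = 8 * gw x - tw x := by
  by_cases h : |x| ≤ 1
  · unfold gw
    rw [clamp_eq h]
    ring
  · push Not at h
    unfold gw
    rw [tw_supp x h.le]
    ring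

lemma WS_log (V τ : ℝ) (N : ℕ) (hN : Real.exp (V + 1) ≤ N) :
    WS N V τ ArithmeticFunction.log = ((V - 1 : ℝ) : ℂ) * SS tw V τ + 8 * SS gw V τ := by
  rw [← SS_e1 tw_wd V τ N hN, ← SS_e1 gw_wd V τ N hN, mul_sum, mul_sum, ← sum_add_distrib]
  unfold WS
  apply sum_congr rfl
  intro n hn
  rw [ArithmeticFunction.log_apply]
  have h := gw_eq (Real.log n - V)
  have h2 : Real.log n * tw (Real.log n - V) = (V - 1) * tw (Real.log n - V) + 8 * gw (Real.log n - V) := by
    linear_combination h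
  have h3 : ((Real.log n : ℝ) : ℂ) * (tw (Real.log n - V) : ℂ) = ((V - 1 : ℝ) : ℂ) * (tw (Real.log n - V) : ℂ) + 8 * (gw (Real.log n - V) : ℂ) := by
    exact_mod_cast h2
  linear_combination (e1 τ n) * h3

/-- the size of the smooth windows -/
lemma SS_bd (M : ℕ) : ∃ η C : ℝ, 0 < η ∧ η ≤ 1 / 2 ∧ 0 < C ∧ ∀ g : ℝ → ℝ, Wd g → ∀ v τ : ℝ, 4 ≤ v →
    |τ| ≤ Real.exp (M * v) → ‖SS g v τ‖ ≤ 16 * (1 / (1 + |τ|)) + C * Real.exp (-(η * v)) := by
  obtain ⟨η, C, hη, hη1, hC, ht1⟩ := type_one M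
  refine ⟨η, C, hη, hη1, hC, fun g hg v τ hv hτ => ?_⟩
  have h1 := ht1 g hg v τ hv hτ
  have h2 := II_one hg v τ
  have h3 := norm_add_le (SS g v τ - II g v τ) (II g v τ)
  rw [sub_add_cancel] at h3
  linarith

/-- harmonic sums -/
lemma harm_Icc (z : ℕ) (hz : 1 ≤ z) : ∑ d ∈ Icc 1 z, 1 / (d : ℝ) ≤ 1 + Real.log z := by
  have h := harmonic_le_one_add_log z
  have h2 : ((harmonic z : ℚ) : ℝ) = ∑ d ∈ Icc 1 z, 1 / (d : ℝ) := by
    rw [harmonic_eq_sum_Icc]
    push_cast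
    apply sum_congr rfl
    intro d _
    rw [one_div]
  rw [h2] at h
  exact h

/-- the sums of type one, first kind -/
theorem type1a (M : ℕ) : ∃ η C : ℝ, 0 < η ∧ η ≤ 1 / 2 ∧ 0 < C ∧ ∀ (z N : ℕ) (Y τ : ℝ), 1 ≤ z → 8 ≤ Y → Real.log z ≤ Y / 2 →
    Real.exp (Y + 1) ≤ N → |τ| ≤ Real.exp (M * (Y / 2)) →
    ‖WS N Y τ (tru z muR * ArithmeticFunction.log)‖ ≤ (Y + 9) ^ 2 * (16 * (1 / (1 + |τ|)) + C * Real.exp (-(η * Y))) := by
  obtain ⟨η, C, hη, hη1, hC, hb⟩ := SS_bd M
  refine ⟨η / 2, C, by positivity, by linarith, hC, fun z N Y τ hz hY hzY hN hτ => ?_⟩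
  rw [WS_mul N τ Y hN]
  obtain ⟨R, hR⟩ : ∃ R, R = 16 * (1 / (1 + |τ|)) + C * Real.exp (-(η / 2 * Y)) := ⟨_, rfl⟩
  rw [← hR]
  have hR0 : 0 ≤ R := by rw [hR]; positivity
  refine (norm_sum_le _ _).trans ?_
  have h1 : ∀ d ∈ Icc 1 N, ‖(tru z muR d : ℂ) * (e1 τ d * WS N (Y - Real.log d) τ ArithmeticFunction.log)‖ ≤
      if d ≤ z then (1 / (d : ℝ)) * ((Y + 9) * R) else 0 := by
    intro d hd
    rw [mem_Icc] at hd
    have hd0 : (0 : ℝ) < d := by exact_mod_cast hd.1
    rw [tru_apply]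
    split_ifs with hdz
    · have hl0 : 0 ≤ Real.log d := Real.log_natCast_nonneg d
      have hl : Real.log d ≤ Y / 2 := (Real.log_le_log hd0 (by exact_mod_cast hdz)).trans hzY
      have hV : 4 ≤ Y - Real.log d := by linarith
      have hVY : Y / 2 ≤ Y - Real.log d := by linarith
      have hNV : Real.exp (Y - Real.log d + 1) ≤ N := (Real.exp_le_exp.2 (by linarith)).trans hN
      have hτV : |τ| ≤ Real.exp (M * (Y - Real.log d)) := hτ.trans (Real.exp_le_exp.2 (mul_le_mul_of_nonneg_left hVY (Nat.cast_nonneg _)))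
      have h2 : ∀ g : ℝ → ℝ, Wd g → ‖SS g (Y - Real.log d) τ‖ ≤ R := by
        intro g hg
        refine (hb g hg _ τ hV hτV).trans ?_
        rw [hR]
        have : Real.exp (-(η * (Y - Real.log d))) ≤ Real.exp (-(η / 2 * Y)) := Real.exp_le_exp.2 (by nlinarith)
        have := mul_le_mul_of_nonneg_left this hC.le
        linarith
      rw [WS_log _ _ _ hNV]
      rw [norm_mul, norm_mul, e1_norm, Complex.norm_real, Real.norm_eq_abs]
      have h3 : ‖((Y - Real.log d - 1 : ℝ) : ℂ) * SS tw (Y - Real.log d) τ + 8 * SS gw (Y - Real.log d) τ‖ ≤ (Y + 9) * R := by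
        refine (norm_add_le _ _).trans ?_
        rw [norm_mul, norm_mul, Complex.norm_real, Real.norm_eq_abs, abs_of_nonneg (by linarith)]
        have h4 := h2 tw tw_wd
        have h5 := h2 gw gw_wd
        have h6 : ‖(8 : ℂ)‖ = 8 := by simp
        rw [h6]
        calc (Y - Real.log d - 1) * ‖SS tw (Y - Real.log d) τ‖ + 8 * ‖SS gw (Y - Real.log d) τ‖ ≤ (Y - Real.log d - 1) * R + 8 * R := by
              gcongr
              linarith
          _ ≤ (Y + 9) * R := by nlinarith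
      calc |muR d| * (1 / d * ‖((Y - Real.log d - 1 : ℝ) : ℂ) * SS tw (Y - Real.log d) τ + 8 * SS gw (Y - Real.log d) τ‖) ≤
          1 * (1 / d * ((Y + 9) * R)) := by
            gcongr
            exact muR_le d
        _ = _ := by ring
    · simp
  refine (sum_le_sum h1).trans ?_
  rw [← sum_filter]
  have h2 : (Icc 1 N).filter (fun d => d ≤ z) ⊆ Icc 1 z := by
    intro d hd
    rw [mem_filter, mem_Icc] at hd
    rw [mem_Icc]
    exact ⟨hd.1.1, hd.2⟩
  have hYR : 0 ≤ (Y + 9) * R := by positivity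
  refine (sum_le_sum_of_subset_of_nonneg h2 fun d _ _ => mul_nonneg (by positivity) hYR).trans ?_
  rw [← sum_mul]
  have h3 := harm_Icc z hz
  calc (∑ i ∈ Icc 1 z, 1 / (i : ℝ)) * ((Y + 9) * R) ≤ (Y + 9) * ((Y + 9) * R) := by
        gcongr
        linarith
    _ = _ := by ring

lemma trmu_le (z n : ℕ) : |tru z muR n| ≤ 1 := by
  rw [tru_apply]
  split_ifs
  · exact muR_le n
  · simp

lemma trla_nonneg (z n : ℕ) : 0 ≤ tru z vonMangoldt n := by
  rw [tru_apply]
  split_ifs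
  · exact ArithmeticFunction.vonMangoldt_nonneg
  · exact le_rfl

lemma trla_le (z n : ℕ) : tru z vonMangoldt n ≤ vonMangoldt n := by
  rw [tru_apply]
  split_ifs
  · exact le_rfl
  · exact ArithmeticFunction.vonMangoldt_nonneg

lemma mula_le (z n : ℕ) : |(tru z muR * tru z vonMangoldt) n| ≤ if n ≤ z * z then Real.log n else 0 := by
  rw [ArithmeticFunction.mul_apply]
  split_ifs with h
  · refine (abs_sum_le_sum_abs _ _).trans ?_
    have h1 : ∑ p ∈ n.divisorsAntidiagonal, |tru z muR p.1 * tru z vonMangoldt p.2| ≤ ∑ p ∈ n.divisorsAntidiagonal, vonMangoldt p.2 := by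
      apply sum_le_sum
      intro p _
      rw [abs_mul, abs_of_nonneg (trla_nonneg z _)]
      have h2 := trmu_le z p.1
      have h3 := trla_nonneg z p.2
      have h4 := trla_le z p.2
      nlinarith
    refine h1.trans (le_of_eq ?_)
    rw [← ArithmeticFunction.vonMangoldt_sum (n := n)]
    exact Nat.sum_divisorsAntidiagonal' (f := fun _ b => vonMangoldt b)
  · rw [sum_eq_zero]
    · simp
    · intro p hp
      rw [Nat.mem_divisorsAntidiagonal] at hp
      rw [tru_apply, tru_apply]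
      by_cases h1 : p.1 ≤ z
      · by_cases h2 : p.2 ≤ z
        · exact absurd (by rw [← hp.1]; exact Nat.mul_le_mul h1 h2) h
        · rw [if_neg h2, mul_zero]
      · rw [if_neg h1, zero_mul]

/-- the sums of type one, second kind -/
theorem type1b (M : ℕ) : ∃ η C : ℝ, 0 < η ∧ η ≤ 1 / 2 ∧ 0 < C ∧ ∀ (z N : ℕ) (Y τ : ℝ), 1 ≤ z → 8 ≤ Y → Real.log z ≤ Y / 4 →
    Real.exp (Y + 1) ≤ N → |τ| ≤ Real.exp (M * (Y / 2)) →
    ‖WS N Y τ (tru z muR * tru z vonMangoldt * zeR)‖ ≤ (Y + 9) ^ 2 * (16 * (1 / (1 + |τ|)) + C * Real.exp (-(η * Y))) := by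
  obtain ⟨η, C, hη, hη1, hC, hb⟩ := SS_bd M
  refine ⟨η / 2, C, by positivity, by linarith, hC, fun z N Y τ hz hY hzY hN hτ => ?_⟩
  rw [WS_mul N τ Y hN]
  obtain ⟨R, hR⟩ : ∃ R, R = 16 * (1 / (1 + |τ|)) + C * Real.exp (-(η / 2 * Y)) := ⟨_, rfl⟩
  rw [← hR]
  have hR0 : 0 ≤ R := by rw [hR]; positivity
  have hlzz : Real.log ((z * z : ℕ) : ℝ) ≤ Y / 2 := by
    have hz0 : (0 : ℝ) < z := by exact_mod_cast hz
    push_cast
    rw [Real.log_mul hz0.ne' hz0.ne']
    linarith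
  refine (norm_sum_le _ _).trans ?_
  have h1 : ∀ d ∈ Icc 1 N, ‖((tru z muR * tru z vonMangoldt) d : ℂ) * (e1 τ d * WS N (Y - Real.log d) τ zeR)‖ ≤
      if d ≤ z * z then (1 / (d : ℝ)) * (Y * R) else 0 := by
    intro d hd
    rw [mem_Icc] at hd
    have hd0 : (0 : ℝ) < d := by exact_mod_cast hd.1
    have h0 := mula_le z d
    split_ifs with hdz
    · rw [if_pos hdz] at h0
      have hl0 : 0 ≤ Real.log d := Real.log_natCast_nonneg d
      have hl : Real.log d ≤ Y / 2 := (Real.log_le_log hd0 (by exact_mod_cast hdz)).trans hlzz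
      have hV : 4 ≤ Y - Real.log d := by linarith
      have hVY : Y / 2 ≤ Y - Real.log d := by linarith
      have hNV : Real.exp (Y - Real.log d + 1) ≤ N := (Real.exp_le_exp.2 (by linarith)).trans hN
      have hτV : |τ| ≤ Real.exp (M * (Y - Real.log d)) := hτ.trans (Real.exp_le_exp.2 (mul_le_mul_of_nonneg_left hVY (Nat.cast_nonneg _)))
      have h2 : ‖SS tw (Y - Real.log d) τ‖ ≤ R := by
        refine (hb tw tw_wd _ τ hV hτV).trans ?_
        rw [hR]
        have : Real.exp (-(η * (Y - Real.log d))) ≤ Real.exp (-(η / 2 * Y)) := Real.exp_le_exp.2 (by nlinarith)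
        have := mul_le_mul_of_nonneg_left this hC.le
        linarith
      rw [WS_zeR _ _ _ hNV, norm_mul, norm_mul, e1_norm, Complex.norm_real, Real.norm_eq_abs]
      calc |(tru z muR * tru z vonMangoldt) d| * (1 / d * ‖SS tw (Y - Real.log d) τ‖) ≤ Y * (1 / d * R) := by
            gcongr
            linarith
        _ = _ := by ring
    · rw [if_neg hdz] at h0
      have h2 : (tru z muR * tru z vonMangoldt) d = 0 := abs_eq_zero.1 (le_antisymm h0 (abs_nonneg _))
      rw [h2]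
      simp
  refine (sum_le_sum h1).trans ?_
  rw [← sum_filter]
  have h2 : (Icc 1 N).filter (fun d => d ≤ z * z) ⊆ Icc 1 (z * z) := by
    intro d hd
    rw [mem_filter, mem_Icc] at hd
    rw [mem_Icc]
    exact ⟨hd.1.1, hd.2⟩
  have hYR : 0 ≤ Y * R := by positivity
  refine (sum_le_sum_of_subset_of_nonneg h2 fun d _ _ => mul_nonneg (by positivity) hYR).trans ?_
  rw [← sum_mul]
  have h3 := harm_Icc (z * z) (Nat.mul_pos hz hz)
  calc (∑ i ∈ Icc 1 (z * z), 1 / (i : ℝ)) * (Y * R) ≤ (Y + 9) * ((Y + 9) * R) := by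
        gcongr
        · linarith
        · linarith
    _ = _ := by ring

end Pool.Agent.H15.QP
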