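import Pool.Agent.H15.QP.Cell
import Pool.Graph.R_seed8.H316R2.LS

/-! The sums of type two: preparations. -/

set_option autoImplicit false

namespace Pool.Agent.H15.QP
open Finset
open Pool.Agent.H376R2.MR (er kern_er_norm kern_er_add kern_er_cont)
open Pool.Agent.H376R2.MR renaming w → tw
open Pool.Agent.Y851.HZ
open ArithmeticFunction (vonMangoldt moebius)

lemma mu2_apply (z n : ℕ) : (muR - tru z muR) n = if n ≤ z then 0 else muR n := by
  rw [sub_eq_add_neg, ArithmeticFunction.add_apply, ArithmeticFunction.neg_apply, tru_apply]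
  split_ifs <;> simp

lemma bII_apply (z n : ℕ) : bII z n = if n ≤ z then 0 else vonMangoldt n := by
  unfold bII
  rw [sub_eq_add_neg, ArithmeticFunction.add_apply, ArithmeticFunction.neg_apply, tru_apply]
  split_ifs <;> simp

lemma aII_zero (z m : ℕ) (hm : m ≤ z) : aII z m = 0 := by
  unfold aII
  rw [ArithmeticFunction.mul_apply]
  apply sum_eq_zero
  intro p hp
  rw [Nat.mem_divisorsAntidiagonal] at hp
  have h1 : p.1 ≤ z := by
    have h2 : p.2 ≠ 0 := by rintro h; rw [h, mul_zero] at hp; omega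
    have h3 : p.1 ≤ p.1 * p.2 := Nat.le_mul_of_pos_right _ (Nat.pos_of_ne_zero h2)
    omega
  rw [mu2_apply, if_pos h1, zero_mul]

lemma aII_le (z m : ℕ) : |aII z m| ≤ (m.divisors.card : ℝ) := by
  unfold aII
  rw [ArithmeticFunction.mul_apply]
  refine (abs_sum_le_sum_abs _ _).trans ?_
  have h1 : ∀ p ∈ m.divisorsAntidiagonal, |(muR - tru z muR) p.1 * zeR p.2| ≤ 1 := by
    intro p hp
    rw [Nat.mem_divisorsAntidiagonal] at hp
    have h2 : p.2 ≠ 0 := by rintro h; rw [h, mul_zero] at hp; omega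
    rw [mu2_apply, zeR_apply (Nat.pos_of_ne_zero h2), mul_one]
    split_ifs
    · simp
    · exact muR_le _
  refine (sum_le_sum h1).trans (le_of_eq ?_)
  rw [sum_const, nsmul_eq_mul, mul_one, ← Nat.map_div_right_divisors, card_map]

lemma conv_le (n : ℕ) (hn : 1 ≤ n) : ∑ p ∈ n.divisorsAntidiagonal, vonMangoldt p.1 * (p.2.divisors.card : ℝ) ≤
    (n.divisors.card : ℝ) * Real.log n := by
  have h1 : ∀ p ∈ n.divisorsAntidiagonal, vonMangoldt p.1 * (p.2.divisors.card : ℝ) ≤ vonMangoldt p.1 * (n.divisors.card : ℝ) := by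
    intro p hp
    rw [Nat.mem_divisorsAntidiagonal] at hp
    apply mul_le_mul_of_nonneg_left _ ArithmeticFunction.vonMangoldt_nonneg
    have h2 : p.2.divisors ⊆ n.divisors := Nat.divisors_subset_of_dvd (by omega) ⟨p.1, by rw [← hp.1]; ring⟩
    exact_mod_cast card_le_card h2
  refine (sum_le_sum h1).trans (le_of_eq ?_)
  rw [← sum_mul, mul_comm]
  congr 1
  rw [← ArithmeticFunction.vonMangoldt_sum (n := n)]
  exact Nat.sum_divisorsAntidiagonal (f := fun a _ => vonMangoldt a)

/-- divisor sums over windows -/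
lemma div_win (S : Finset ℕ) (L : ℝ) (hL : 0 ≤ L) (hS : ∀ n ∈ S, 1 ≤ n ∧ Real.log n ≤ L) :
    ∑ n ∈ S, (n.divisors.card : ℝ) ^ 2 / n ≤ (1 + L) ^ 4 := by
  obtain ⟨N, hN⟩ : ∃ N : ℕ, N = ⌊Real.exp L⌋₊ := ⟨_, rfl⟩
  have hN1 : (N : ℝ) ≤ Real.exp L := by rw [hN]; exact Nat.floor_le (Real.exp_pos L).le
  have hsub : S ⊆ Icc 1 N := by
    intro n hn
    obtain ⟨h1, h2⟩ := hS n hn
    have hn0 : (0 : ℝ) < n := by exact_mod_cast h1
    rw [mem_Icc]
    refine ⟨h1, ?_⟩
    rw [hN]
    apply Nat.le_floor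
    rwa [← Real.log_le_iff_le_exp hn0]
  refine (sum_le_sum_of_subset_of_nonneg hsub fun n _ _ => by positivity).trans ?_
  refine (Pool.Agent.H316R2.tau_sq_sum_le N).trans ?_
  have h0 : 0 ≤ Real.log (N : ℝ) := Real.log_natCast_nonneg N
  have h3 : Real.log (N : ℝ) ≤ L := by
    by_cases hN0 : N = 0
    · rw [hN0]; simpa using hL
    · rw [Real.log_le_iff_le_exp (by exact_mod_cast Nat.pos_of_ne_zero hN0)]
      exact hN1
  gcongr

/-- the factors with the divisor function -/
theorem M_bd (M : ℕ) : ∃ η C : ℝ, 0 < η ∧ η ≤ 1 / 2 ∧ 1 ≤ C ∧ ∀ (z N : ℕ) (Y V s T : ℝ) (J : Finset ℤ), 8 ≤ Real.log z →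
    V ≤ Y → 0 ≤ Y → 1 ≤ T → (∀ j ∈ J, |(j : ℝ)| ≤ T) → 2 * T ≤ Real.exp (M * (Real.log z - 3)) →
    ∑ j ∈ J, ‖WS N V (j + s) (aII z)‖ ^ 2 ≤
      (Y + 3) ^ 4 * (C * (1 + Real.log (2 * T + 1) + J.card * Real.exp (-(η * (Real.log z - 1))))) := by
  obtain ⟨η, C, hη, hη1, hC, hd⟩ := dual_win M
  refine ⟨η, C, hη, hη1, hC, fun z N Y V s T J hz hVY hY hT hJ hTe => ?_⟩
  have hlogT : 0 ≤ Real.log (2 * T + 1) := Real.log_nonneg (by linarith)
  have hR0 : 0 ≤ C * (1 + Real.log (2 * T + 1) + J.card * Real.exp (-(η * (Real.log z - 1)))) := by positivity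
  by_cases hV : V < Real.log z - 1
  · have h0 : ∀ j ∈ J, ‖WS N V (j + s) (aII z)‖ ^ 2 = 0 := by
      intro j _
      have : WS N V (j + s) (aII z) = 0 := by
        unfold WS
        apply sum_eq_zero
        intro n hn
        rw [mem_Icc] at hn
        have hn0 : (0 : ℝ) < n := by exact_mod_cast hn.1
        by_cases hnz : n ≤ z
        · rw [aII_zero z n hnz]; simp
        · have h1 : Real.log z ≤ Real.log n := by
            apply Real.log_le_log
            · have : 0 < z := by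
                rcases Nat.eq_zero_or_pos z with h | h
                · rw [h] at hz; simp at hz; linarith
                · exact h
              exact_mod_cast this
            · exact_mod_cast (by omega : z ≤ n)
          rw [tw_supp _ (by rw [abs_of_nonneg] <;> linarith)]
          simp
      rw [this]; simp
    rw [sum_congr rfl h0, sum_const_zero]
    positivity
  · push Not at hV
    obtain ⟨S, hS⟩ : ∃ S, S = (Icc 1 N).filter (fun n : ℕ => |Real.log n - V| ≤ 1) := ⟨_, rfl⟩
    have hSm : ∀ n ∈ S, 1 ≤ n ∧ |Real.log n - V| ≤ 1 := by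
      intro n hn
      rw [hS, mem_filter, mem_Icc] at hn
      exact ⟨hn.1.1, hn.2⟩
    have h1 : ∀ j : ℤ, WS N V (j + s) (aII z) = ∑ n ∈ S, ((aII z n * tw (Real.log n - V) / n : ℝ) : ℂ) * er (j + s) (Real.log n) := by
      intro j
      rw [hS, sum_filter]
      unfold WS
      apply sum_congr rfl
      intro n _
      split_ifs with h
      · unfold e1
        push_cast
        ring
      · push Not at h
        rw [tw_supp _ h.le]
        simp
    simp_rw [h1]
    refine (hd V s T J S _ (by linarith) hT hJ (hTe.trans (Real.exp_le_exp.2 (mul_le_mul_of_nonneg_left (by linarith) (Nat.cast_nonneg _))))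
      (fun n hn => ⟨(hSm n hn).1, by linarith [(hSm n hn).2]⟩)).trans ?_
    have h2 : ∑ n ∈ S, (n : ℝ) * ‖((aII z n * tw (Real.log n - V) / n : ℝ) : ℂ)‖ ^ 2 ≤ (Y + 3) ^ 4 := by
      have h3 : ∑ n ∈ S, (n : ℝ) * ‖((aII z n * tw (Real.log n - V) / n : ℝ) : ℂ)‖ ^ 2 ≤ ∑ n ∈ S, (n.divisors.card : ℝ) ^ 2 / n := by
        apply sum_le_sum
        intro n hn
        have hn0 : (0 : ℝ) < n := by exact_mod_cast (hSm n hn).1
        rw [Complex.norm_real, Real.norm_eq_abs, abs_div, abs_mul, abs_of_pos hn0, abs_of_nonneg (tw_nonneg _)]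
        have h4 := aII_le z n
        have h5 := tw_le (Real.log n - V)
        have h6 := tw_nonneg (Real.log n - V)
        calc (n : ℝ) * (|aII z n| * tw (Real.log n - V) / n) ^ 2 = (|aII z n| * tw (Real.log n - V)) ^ 2 / n := by
              field_simp
          _ ≤ ((n.divisors.card : ℝ) * 1) ^ 2 / n := by gcongr
          _ = _ := by rw [mul_one]
      refine h3.trans ((div_win S (Y + 1) (by linarith) (fun n hn => ⟨(hSm n hn).1, by
        have := (abs_le.1 (hSm n hn).2).2
        linarith⟩)).trans ?_)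
      apply pow_le_pow_left₀ (by linarith)
      linarith
    have h7 : Real.exp (-(η * V)) ≤ Real.exp (-(η * (Real.log z - 1))) := Real.exp_le_exp.2 (by nlinarith)
    have hC0 : 0 ≤ C := by linarith
    have hYp : 0 ≤ (Y + 3) ^ 4 := by positivity
    apply mul_le_mul h2 _ (by positivity) hYp
    apply mul_le_mul_of_nonneg_left _ hC0
    have : (J.card : ℝ) * Real.exp (-(η * V)) ≤ J.card * Real.exp (-(η * (Real.log z - 1))) := by gcongr
    linarith

end Pool.Agent.H15.QP
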