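import Pool.Agent.H15.QP.T2a

/-! The sums of type two. -/

set_option autoImplicit false

namespace Pool.Agent.H15.QP
open Finset
open Pool.Agent.H376R2.MR (er kern_er_norm kern_er_add kern_er_cont)
open Pool.Agent.H376R2.MR renaming w → tw
open Pool.Agent.Y851.HZ
open ArithmeticFunction (vonMangoldt moebius)

/-- the end points of the cells -/
noncomputable def ep (z H i : ℕ) : ℕ := ⌊(z : ℝ) * Real.exp ((i : ℝ) / H)⌋₊

lemma ep_zero (z H : ℕ) : ep z H 0 = z := by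
  unfold ep
  simp

lemma ep_mono (z H : ℕ) {i j : ℕ} (hij : i ≤ j) : ep z H i ≤ ep z H j := by
  unfold ep
  apply Nat.floor_mono
  apply mul_le_mul_of_nonneg_left _ (Nat.cast_nonneg _)
  apply Real.exp_le_exp.2
  apply div_le_div_of_nonneg_right _ (Nat.cast_nonneg _)
  exact_mod_cast hij

/-- the marks of the cells -/
noncomputable def mk (z H k : ℕ) : ℝ := Real.log z + ((⌈(H : ℝ) * (Real.log k - Real.log z)⌉₊ - 1 : ℕ) : ℝ) / H

lemma cell_mem {z H i k : ℕ} (hz : 1 ≤ z) (hH : 1 ≤ H) (hk : k ∈ Ioc (ep z H i) (ep z H (i + 1))) :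
    mk z H k = Real.log z + (i : ℝ) / H ∧ |Real.log k - mk z H k| ≤ 1 / H := by
  rw [mem_Ioc] at hk
  have hz0 : (0 : ℝ) < z := by exact_mod_cast hz
  have hH0 : (0 : ℝ) < H := by exact_mod_cast hH
  have hk0 : (0 : ℝ) < k := by exact_mod_cast (by omega : 0 < k)
  have h1 : (z : ℝ) * Real.exp ((i : ℝ) / H) < k := by
    have := hk.1
    unfold ep at this
    exact (Nat.floor_lt (by positivity)).1 this
  have h2 : (k : ℝ) ≤ (z : ℝ) * Real.exp (((i + 1 : ℕ) : ℝ) / H) := by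
    have := hk.2
    unfold ep at this
    exact (Nat.le_floor_iff (by positivity)).1 this
  have h3 : Real.log z + (i : ℝ) / H < Real.log k := by
    have := Real.log_lt_log (by positivity) h1
    rwa [Real.log_mul hz0.ne' (Real.exp_pos _).ne', Real.log_exp] at this
  have h4 : Real.log k ≤ Real.log z + ((i + 1 : ℕ) : ℝ) / H := by
    have := Real.log_le_log hk0 h2
    rwa [Real.log_mul hz0.ne' (Real.exp_pos _).ne', Real.log_exp] at this
  have h5 : ⌈(H : ℝ) * (Real.log k - Real.log z)⌉₊ = i + 1 := by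
    rw [Nat.ceil_eq_iff (by omega)]
    constructor
    · have : (i : ℝ) / H < Real.log k - Real.log z := by linarith
      rw [div_lt_iff₀ hH0] at this
      push_cast
      linarith
    · have : Real.log k - Real.log z ≤ ((i + 1 : ℕ) : ℝ) / H := by linarith
      rw [le_div_iff₀ hH0] at this
      linarith
  have h6 : mk z H k = Real.log z + (i : ℝ) / H := by
    unfold mk
    rw [h5]
    simp
  refine ⟨h6, ?_⟩
  rw [h6, abs_of_nonneg (by linarith)]
  push_cast at h4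
  rw [add_div] at h4
  linarith

lemma cells_sum (z H : ℕ) (F : ℕ → ℂ) (I : ℕ) :
    ∑ k ∈ Ioc z (ep z H I), F k = ∑ i ∈ range I, ∑ k ∈ Ioc (ep z H i) (ep z H (i + 1)), F k := by
  induction I with
  | zero => rw [ep_zero]; simp
  | succ I ih =>
    rw [sum_range_succ, ← ih]
    rw [sum_Ioc_consecutive F]
    · have := ep_mono z H (Nat.zero_le I)
      rwa [ep_zero] at this
    · exact ep_mono z H (by omega)

lemma bII_sum (z N : ℕ) (hz : z ≤ N) (F : ℕ → ℂ) : ∑ k ∈ Icc 1 N, (bII z k : ℂ) * F k = ∑ k ∈ Ioc z N, (vonMangoldt k : ℂ) * F k := by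
  have h1 : Icc 1 N = Icc 1 z ∪ Ioc z N := by
    ext k; rw [mem_union, mem_Icc, mem_Icc, mem_Ioc]; omega
  rw [h1, sum_union]
  · rw [sum_eq_zero, zero_add]
    · apply sum_congr rfl
      intro k hk
      rw [mem_Ioc] at hk
      rw [bII_apply, if_neg (by omega)]
    · intro k hk
      rw [mem_Icc] at hk
      rw [bII_apply, if_pos hk.2]
      simp
  · rw [disjoint_left]
    intro k hk hk2
    rw [mem_Icc] at hk
    rw [mem_Ioc] at hk2
    omega

/-- the error -/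
noncomputable def Er2 (z H N : ℕ) (Y τ : ℝ) : ℂ :=
  ∑ k ∈ Ioc z N, (vonMangoldt k : ℂ) * (e1 τ k * (WS N (Y - Real.log k) τ (aII z) - WS N (Y - mk z H k) τ (aII z)))

lemma split2 (z H I : ℕ) (hz : 1 ≤ z) (hH : 1 ≤ H) (Y τ : ℝ) (hN : Real.exp (Y + 1) ≤ ep z H I) :
    WS (ep z H I) Y τ (bII z * aII z) = Er2 z H (ep z H I) Y τ +
      ∑ i ∈ range I, (∑ k ∈ Ioc (ep z H i) (ep z H (i + 1)), (vonMangoldt k : ℂ) * e1 τ k) *
        WS (ep z H I) (Y - (Real.log z + (i : ℝ) / H)) τ (aII z) := by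
  have hzN : z ≤ ep z H I := by
    have := ep_mono z H (Nat.zero_le I)
    rwa [ep_zero] at this
  rw [WS_mul _ τ Y hN, bII_sum z _ hzN]
  unfold Er2
  have h1 : ∑ i ∈ range I, (∑ k ∈ Ioc (ep z H i) (ep z H (i + 1)), (vonMangoldt k : ℂ) * e1 τ k) *
        WS (ep z H I) (Y - (Real.log z + (i : ℝ) / H)) τ (aII z) =
      ∑ k ∈ Ioc z (ep z H I), (vonMangoldt k : ℂ) * (e1 τ k * WS (ep z H I) (Y - mk z H k) τ (aII z)) := by
    rw [cells_sum]
    apply sum_congr rfl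
    intro i _
    rw [sum_mul]
    apply sum_congr rfl
    intro k hk
    rw [(cell_mem hz hH hk).1]
    ring
  rw [h1, ← sum_add_distrib]
  apply sum_congr rfl
  intro k _
  ring

/-- the coefficients of the error -/
noncomputable def er2 (z H N : ℕ) (Y : ℝ) (n : ℕ) : ℝ :=
  ∑ p ∈ (Ioc z N ×ˢ Icc 1 N).filter (fun p : ℕ × ℕ => p.1 * p.2 = n),
    vonMangoldt p.1 * aII z p.2 * (tw (Real.log p.2 - (Y - Real.log p.1)) - tw (Real.log p.2 - (Y - mk z H p.1)))

lemma del_bd (z H I : ℕ) (hz : 1 ≤ z) (hH : 1 ≤ H) (Y : ℝ) (k : ℕ) (hk : k ∈ Ioc z (ep z H I)) (x : ℝ) :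
    |tw (x - (Y - Real.log k)) - tw (x - (Y - mk z H k))| ≤ 1 / H ∧
    (2 < |x + Real.log k - Y| → tw (x - (Y - Real.log k)) - tw (x - (Y - mk z H k)) = 0) := by
  have hH0 : (0 : ℝ) < H := by exact_mod_cast hH
  have hmk : |Real.log k - mk z H k| ≤ 1 / H := by
    -- locate the cell
    have h1 : ∃ i < I, k ∈ Ioc (ep z H i) (ep z H (i + 1)) := by
      clear x
      induction I with
      | zero => rw [ep_zero] at hk; simp at hk
      | succ I ih =>
        by_cases h : k ≤ ep z H I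
        · rw [mem_Ioc] at hk
          obtain ⟨i, hi, hi2⟩ := ih (mem_Ioc.2 ⟨hk.1, h⟩)
          exact ⟨i, by omega, hi2⟩
        · rw [mem_Ioc] at hk
          exact ⟨I, by omega, mem_Ioc.2 ⟨by omega, hk.2⟩⟩
    obtain ⟨i, _, hi2⟩ := h1
    exact (cell_mem hz hH hi2).2
  have hH1 : 1 / (H : ℝ) ≤ 1 := by
    rw [div_le_one hH0]; exact_mod_cast hH
  constructor
  · refine (tw_lip _ _).trans ?_
    rw [show x - (Y - Real.log k) - (x - (Y - mk z H k)) = Real.log k - mk z H k by ring]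
    exact hmk
  · intro h
    have h2 : 1 ≤ |x - (Y - Real.log k)| := by
      rw [show x - (Y - Real.log k) = x + Real.log k - Y by ring]
      linarith
    have h3 : 1 ≤ |x - (Y - mk z H k)| := by
      have h4 : |x + Real.log k - Y| ≤ |x - (Y - mk z H k)| + |Real.log k - mk z H k| := by
        have := abs_add_le (x - (Y - mk z H k)) (Real.log k - mk z H k)
        rw [show x - (Y - mk z H k) + (Real.log k - mk z H k) = x + Real.log k - Y by ring] at this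
        exact this
      linarith
    rw [tw_supp _ h2, tw_supp _ h3, sub_zero]

lemma Er2_eq (z H I : ℕ) (hz : 1 ≤ z) (hH : 1 ≤ H) (Y τ : ℝ) :
    Er2 z H (ep z H I) Y τ =
      ∑ n ∈ ((Ioc z (ep z H I) ×ˢ Icc 1 (ep z H I)).image (fun p : ℕ × ℕ => p.1 * p.2)).filter (fun n : ℕ => |Real.log n - Y| ≤ 2),
        ((er2 z H (ep z H I) Y n / n : ℝ) : ℂ) * er τ (Real.log n) := by
  obtain ⟨N, hN⟩ : ∃ N, N = ep z H I := ⟨_, rfl⟩
  rw [← hN]
  have h1 : Er2 z H N Y τ = ∑ p ∈ Ioc z N ×ˢ Icc 1 N, ((vonMangoldt p.1 * aII z p.2 *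
      (tw (Real.log p.2 - (Y - Real.log p.1)) - tw (Real.log p.2 - (Y - mk z H p.1))) : ℝ) : ℂ) * e1 τ (p.1 * p.2) := by
    unfold Er2 WS
    rw [sum_product]
    apply sum_congr rfl
    intro k hk
    rw [mem_Ioc] at hk
    rw [← sum_sub_distrib, mul_sum, mul_sum]
    apply sum_congr rfl
    intro m hm
    rw [mem_Icc] at hm
    rw [e1_mul τ (by omega) hm.1]
    push_cast
    ring
  rw [h1, ← sum_fiberwise_of_maps_to (g := fun p : ℕ × ℕ => p.1 * p.2) (t := (Ioc z N ×ˢ Icc 1 N).image (fun p : ℕ × ℕ => p.1 * p.2))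
    (fun p hp => mem_image_of_mem _ hp)]
  rw [sum_filter]
  apply sum_congr rfl
  intro n hn
  split_ifs with h
  · unfold er2
    rw [sum_div]
    push_cast
    rw [sum_mul]
    apply sum_congr rfl
    intro p hp
    rw [mem_filter] at hp
    rw [hp.2]
    unfold e1
    push_cast
    ring
  · push Not at h
    apply sum_eq_zero
    intro p hp
    rw [mem_filter, mem_product] at hp
    obtain ⟨⟨hp1, hp2⟩, hp3⟩ := hp
    have hk := hp1
    rw [mem_Ioc] at hp1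
    rw [mem_Icc] at hp2
    have hk0 : (0 : ℝ) < p.1 := by exact_mod_cast (by omega : 0 < p.1)
    have hm0 : (0 : ℝ) < p.2 := by exact_mod_cast hp2.1
    have hl : Real.log n = Real.log p.2 + Real.log p.1 := by
      rw [← hp3]; push_cast
      rw [Real.log_mul hk0.ne' hm0.ne', add_comm]
    rw [hl] at h
    rw [hN] at hk
    rw [(del_bd z H I hz hH Y p.1 hk (Real.log p.2)).2 h]
    simp

lemma er2_bd (z H I : ℕ) (hz : 1 ≤ z) (hH : 1 ≤ H) (Y : ℝ) (n : ℕ) (hn : 1 ≤ n) :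
    |er2 z H (ep z H I) Y n| ≤ 1 / H * ((n.divisors.card : ℝ) * Real.log n) := by
  obtain ⟨N, hN⟩ : ∃ N, N = ep z H I := ⟨_, rfl⟩
  rw [← hN]
  unfold er2
  refine (abs_sum_le_sum_abs _ _).trans ?_
  have h1 : ∀ p ∈ (Ioc z N ×ˢ Icc 1 N).filter (fun p : ℕ × ℕ => p.1 * p.2 = n),
      |vonMangoldt p.1 * aII z p.2 * (tw (Real.log p.2 - (Y - Real.log p.1)) - tw (Real.log p.2 - (Y - mk z H p.1)))| ≤
      1 / H * (vonMangoldt p.1 * (p.2.divisors.card : ℝ)) := by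
    intro p hp
    rw [mem_filter, mem_product] at hp
    obtain ⟨⟨hp1, hp2⟩, hp3⟩ := hp
    rw [hN] at hp1
    have h2 := (del_bd z H I hz hH Y p.1 hp1 (Real.log p.2)).1
    have h3 := aII_le z p.2
    have h4 : 0 ≤ vonMangoldt p.1 := ArithmeticFunction.vonMangoldt_nonneg
    rw [abs_mul, abs_mul, abs_of_nonneg h4]
    calc _ ≤ vonMangoldt p.1 * (p.2.divisors.card : ℝ) * (1 / H) := by gcongr
      _ = _ := by ring
  refine (sum_le_sum h1).trans ?_
  rw [← mul_sum]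
  apply mul_le_mul_of_nonneg_left _ (by positivity)
  refine le_trans ?_ (conv_le n hn)
  apply sum_le_sum_of_subset_of_nonneg
  · intro p hp
    rw [mem_filter] at hp
    rw [Nat.mem_divisorsAntidiagonal]
    exact ⟨hp.2, by omega⟩
  · intro p _ _
    exact mul_nonneg ArithmeticFunction.vonMangoldt_nonneg (Nat.cast_nonneg _)

/-- the error in mean square -/
theorem Er2_bd (M : ℕ) : ∃ η C : ℝ, 0 < η ∧ η ≤ 1 / 2 ∧ 1 ≤ C ∧ ∀ (z H I : ℕ) (Y s T : ℝ) (J : Finset ℤ), 1 ≤ z → 1 ≤ H → 6 ≤ Y →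
    1 ≤ T → (∀ j ∈ J, |(j : ℝ)| ≤ T) → 2 * T ≤ Real.exp (M * (Y - 2)) →
    ∑ j ∈ J, ‖Er2 z H (ep z H I) Y (j + s)‖ ^ 2 ≤
      1 / (H : ℝ) ^ 2 * (Y + 3) ^ 6 * (C * (1 + Real.log (2 * T + 1) + J.card * Real.exp (-(η * Y)))) := by
  obtain ⟨η, C, hη, hη1, hC, hd⟩ := dual_win M
  refine ⟨η, C, hη, hη1, hC, fun z H I Y s T J hz hH hY hT hJ hTe => ?_⟩
  have hlogT : 0 ≤ Real.log (2 * T + 1) := Real.log_nonneg (by linarith)
  obtain ⟨S, hS⟩ : ∃ S, S = ((Ioc z (ep z H I) ×ˢ Icc 1 (ep z H I)).image (fun p : ℕ × ℕ => p.1 * p.2)).filter (fun n : ℕ => |Real.log n - Y| ≤ 2) :=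
    ⟨_, rfl⟩
  have hSm : ∀ n ∈ S, 1 ≤ n ∧ |Real.log n - Y| ≤ 2 := by
    intro n hn
    rw [hS, mem_filter, mem_image] at hn
    obtain ⟨⟨p, hp, hpn⟩, h2⟩ := hn
    rw [mem_product, mem_Ioc, mem_Icc] at hp
    refine ⟨?_, h2⟩
    rw [← hpn]
    exact Nat.mul_pos (by omega) hp.2.1
  simp_rw [Er2_eq z H I hz hH Y, ← hS]
  refine (hd Y s T J S _ hY hT hJ hTe hSm).trans ?_
  apply mul_le_mul_of_nonneg_right _ (by positivity)
  have h3 : ∑ n ∈ S, (n : ℝ) * ‖((er2 z H (ep z H I) Y n / n : ℝ) : ℂ)‖ ^ 2 ≤ ∑ n ∈ S, 1 / (H : ℝ) ^ 2 * (Y + 3) ^ 2 * ((n.divisors.card : ℝ) ^ 2 / n) := by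
    apply sum_le_sum
    intro n hn
    obtain ⟨h1, h2⟩ := hSm n hn
    have hn0 : (0 : ℝ) < n := by exact_mod_cast h1
    have hl0 : 0 ≤ Real.log n := Real.log_natCast_nonneg n
    have hl : Real.log n ≤ Y + 3 := by linarith [(abs_le.1 h2).2]
    rw [Complex.norm_real, Real.norm_eq_abs, abs_div, abs_of_pos hn0]
    have h4 := er2_bd z H I hz hH Y n h1
    calc (n : ℝ) * (|er2 z H (ep z H I) Y n| / n) ^ 2 = |er2 z H (ep z H I) Y n| ^ 2 / n := by
          field_simp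
      _ ≤ (1 / H * ((n.divisors.card : ℝ) * Real.log n)) ^ 2 / n := by gcongr
      _ ≤ (1 / H * ((n.divisors.card : ℝ) * (Y + 3))) ^ 2 / n := by gcongr
      _ = _ := by ring
  refine h3.trans ?_
  rw [← mul_sum]
  have h5 := div_win S (Y + 2) (by linarith) (fun n hn => ⟨(hSm n hn).1, by linarith [(abs_le.1 (hSm n hn).2).2]⟩)
  calc _ ≤ 1 / (H : ℝ) ^ 2 * (Y + 3) ^ 2 * (1 + (Y + 2)) ^ 4 := by gcongr
    _ = _ := by ring

end Pool.Agent.H15.QP
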