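import Pool.Agent.H15.QP.T2b

/-! The sums of type two. -/

set_option autoImplicit false

namespace Pool.Agent.H15.QP
open Finset
open Pool.Agent.H376R2.MR (er kern_er_norm kern_er_add kern_er_cont)
open Pool.Agent.H376R2.MR renaming w → tw
open Pool.Agent.Y851.HZ
open ArithmeticFunction (vonMangoldt moebius)

lemma ep_three (z H i : ℕ) (hz : 2 ≤ z) (hH : 2 ≤ H) : ep z H (i + 1) ≤ 3 * ep z H i := by
  have hH0 : (2 : ℝ) ≤ H := by exact_mod_cast hH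
  have h2 : 2 ≤ ep z H i := by
    have := ep_mono z H (Nat.zero_le i)
    rw [ep_zero] at this
    omega
  have h1 : ((ep z H (i + 1) : ℕ) : ℝ) ≤ (z : ℝ) * Real.exp ((i : ℝ) / H) * Real.exp (1 / H) := by
    unfold ep
    refine (Nat.floor_le (by positivity)).trans (le_of_eq ?_)
    rw [mul_assoc, ← Real.exp_add]
    congr 2
    push_cast
    rw [add_div]
  have h3 : (z : ℝ) * Real.exp ((i : ℝ) / H) < (ep z H i : ℝ) + 1 := by
    unfold ep
    exact Nat.lt_floor_add_one _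
  have h4 : Real.exp (1 / (H : ℝ)) ≤ 2 := by
    have h5 : Real.exp (1 / (H : ℝ)) ≤ Real.exp (1 / 2) := by
      apply Real.exp_le_exp.2
      apply one_div_le_one_div_of_le (by norm_num) hH0
    have h6 : Real.exp (1 / 2) ^ 2 = Real.exp 1 := by rw [← Real.exp_nat_mul]; norm_num
    have h7 := Real.exp_one_lt_d9
    have h8 : Real.exp (1 / 2) ≤ 2 := by
      by_contra h
      push Not at h
      nlinarith
    exact h5.trans h8
  have h5 : ((ep z H (i + 1) : ℕ) : ℝ) ≤ 3 * ep z H i := by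
    have h6 : (2 : ℝ) ≤ ep z H i := by exact_mod_cast h2
    have h7 : (z : ℝ) * Real.exp ((i : ℝ) / H) * Real.exp (1 / H) ≤ ((ep z H i : ℝ) + 1) * 2 := by
      apply mul_le_mul h3.le h4 (Real.exp_pos _).le (by positivity)
    linarith
  exact_mod_cast h5

/-- **Type two sums** on sparse sets of frequencies -/
theorem type2 (M A : ℕ) : ∃ η : ℝ, 0 < η ∧ η ≤ 1 / 2 ∧ ∀ K : ℕ, ∃ C : ℝ, 1 ≤ C ∧ ∀ (z H I : ℕ) (Y s T T₀ : ℝ) (J : Finset ℤ),
    8 ≤ Real.log z → Real.log z ≤ Y → 2 ≤ H → Real.exp (Y + 1) ≤ ep z H I → 1 ≤ T → 1 ≤ T₀ →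
    (∀ j ∈ J, |(j : ℝ)| ≤ T ∧ T₀ ≤ |(j : ℝ) + s| ∧ |(j : ℝ) + s| ≤ (z : ℝ) ^ A) → 2 * T ≤ Real.exp (M * (Real.log z - 3)) →
    ∑ j ∈ J, ‖WS (ep z H I) Y (j + s) (bII z * aII z)‖ ^ 2 ≤
      2 * ((I : ℝ) ^ 2 * (C / Real.log z ^ K + 2 / T₀) ^ 2 + 1 / (H : ℝ) ^ 2) * (Y + 3) ^ 6 *
        (C * (1 + Real.log (2 * T + 1) + J.card * Real.exp (-(η * (Real.log z - 1))))) := by
  obtain ⟨η₁, C₁, hη₁, hη₁1, hC₁, h1⟩ := M_bd M
  obtain ⟨η₂, C₂, hη₂, hη₂1, hC₂, h2⟩ := Er2_bd M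
  refine ⟨min η₁ η₂, lt_min hη₁ hη₂, (min_le_left _ _).trans hη₁1, fun K => ?_⟩
  obtain ⟨C₃, hC₃, h3⟩ := cell_bd A K
  refine ⟨C₁ + C₂ + C₃, by linarith, fun z H I Y s T T₀ J hz hzY hH hN hT hT₀ hJ hTe => ?_⟩
  have hz1 : 2 ≤ z := by
    by_contra h
    have : z = 0 ∨ z = 1 := by omega
    rcases this with h | h <;> rw [h] at hz <;> simp at hz <;> linarith
  have hz2 : (2 : ℝ) ≤ z := by exact_mod_cast hz1
  have hH1 : 1 ≤ H := by omega
  have hH0 : (0 : ℝ) < H := by exact_mod_cast hH1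
  have hlogT : 0 ≤ Real.log (2 * T + 1) := Real.log_nonneg (by linarith)
  obtain ⟨Q, hQ⟩ : ∃ Q, Q = (C₁ + C₂ + C₃) * (1 + Real.log (2 * T + 1) + J.card * Real.exp (-(min η₁ η₂ * (Real.log z - 1)))) := ⟨_, rfl⟩
  rw [← hQ]
  have hQ0 : 0 ≤ Q := by rw [hQ]; positivity
  obtain ⟨κ, hκ⟩ : ∃ κ, κ = (C₁ + C₂ + C₃) / Real.log z ^ K + 2 / T₀ := ⟨_, rfl⟩
  rw [← hκ]
  have hκ0 : 0 ≤ κ := by rw [hκ]; positivity
  have hY3 : 1 ≤ Y + 3 := by linarith
  -- the factors with the divisor function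
  have q1 : ∀ i ∈ range I, ∑ j ∈ J, ‖WS (ep z H I) (Y - (Real.log z + (i : ℝ) / H)) (j + s) (aII z)‖ ^ 2 ≤ (Y + 3) ^ 6 * Q := by
    intro i _
    have h4 : 0 ≤ (i : ℝ) / H := by positivity
    refine (h1 z (ep z H I) Y (Y - (Real.log z + (i : ℝ) / H)) s T J hz (by linarith) (by linarith) hT (fun j hj => (hJ j hj).1) hTe).trans ?_
    have h5 : (Y + 3) ^ 4 ≤ (Y + 3) ^ 6 := pow_le_pow_right₀ hY3 (by norm_num)
    have h6 : Real.exp (-(η₁ * (Real.log z - 1))) ≤ Real.exp (-(min η₁ η₂ * (Real.log z - 1))) := by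
      apply Real.exp_le_exp.2
      have : min η₁ η₂ ≤ η₁ := min_le_left _ _
      nlinarith
    rw [hQ]
    gcongr
    linarith
  -- the factors with primes
  have q2 : ∀ i ∈ range I, ∀ j ∈ J, ‖∑ k ∈ Ioc (ep z H i) (ep z H (i + 1)), (vonMangoldt k : ℂ) * e1 (j + s) k‖ ≤ κ := by
    intro i _ j hj
    obtain ⟨h4, h5, h6⟩ := hJ j hj
    have h7 : z ≤ ep z H i := by
      have := ep_mono z H (Nat.zero_le i)
      rwa [ep_zero] at this
    have h7' : (z : ℝ) ≤ ep z H i := by exact_mod_cast h7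
    have hne : (j : ℝ) + s ≠ 0 := by
      intro h; rw [h, abs_zero] at h5; linarith
    have h8 := h3 (ep z H i) (ep z H (i + 1)) (j + s) (by omega) (ep_mono z H (by omega)) (ep_three z H i hz1 hH) hne
      (h6.trans (by gcongr))
    refine h8.trans ?_
    rw [hκ]
    have h9 : Real.log z ≤ Real.log (ep z H i) := Real.log_le_log (by linarith) h7'
    have h10 : 0 < Real.log z := by linarith
    have h11 : 2 / |(j : ℝ) + s| ≤ 2 / T₀ := by
      apply div_le_div_of_nonneg_left (by norm_num) (by linarith) h5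
    have h12 : C₃ / Real.log (ep z H i) ^ K ≤ (C₁ + C₂ + C₃) / Real.log z ^ K := by
      apply div_le_div₀ (by positivity) (by linarith) (by positivity)
      apply pow_le_pow_left₀ h10.le h9
    linarith
  -- the main part
  have q3 : ∑ j ∈ J, ‖∑ i ∈ range I, (∑ k ∈ Ioc (ep z H i) (ep z H (i + 1)), (vonMangoldt k : ℂ) * e1 (j + s) k) *
        WS (ep z H I) (Y - (Real.log z + (i : ℝ) / H)) (j + s) (aII z)‖ ^ 2 ≤ (I : ℝ) ^ 2 * κ ^ 2 * ((Y + 3) ^ 6 * Q) := by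
    have h4 : ∀ j ∈ J, ‖∑ i ∈ range I, (∑ k ∈ Ioc (ep z H i) (ep z H (i + 1)), (vonMangoldt k : ℂ) * e1 (j + s) k) *
        WS (ep z H I) (Y - (Real.log z + (i : ℝ) / H)) (j + s) (aII z)‖ ^ 2 ≤
        I * κ ^ 2 * ∑ i ∈ range I, ‖WS (ep z H I) (Y - (Real.log z + (i : ℝ) / H)) (j + s) (aII z)‖ ^ 2 := by
      intro j hj
      have h5 : ‖∑ i ∈ range I, (∑ k ∈ Ioc (ep z H i) (ep z H (i + 1)), (vonMangoldt k : ℂ) * e1 (j + s) k) *
        WS (ep z H I) (Y - (Real.log z + (i : ℝ) / H)) (j + s) (aII z)‖ ≤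
          ∑ i ∈ range I, κ * ‖WS (ep z H I) (Y - (Real.log z + (i : ℝ) / H)) (j + s) (aII z)‖ := by
        refine (norm_sum_le _ _).trans (sum_le_sum fun i hi => ?_)
        rw [norm_mul]
        exact mul_le_mul_of_nonneg_right (q2 i hi j hj) (norm_nonneg _)
      have h6 := pow_le_pow_left₀ (norm_nonneg _) h5 2
      refine h6.trans ?_
      rw [← mul_sum, mul_pow]
      have h7 := sq_sum_le_card_mul_sum_sq (s := range I) (f := fun i => ‖WS (ep z H I) (Y - (Real.log z + (i : ℝ) / H)) (j + s) (aII z)‖)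
      rw [card_range] at h7
      have h8 := mul_le_mul_of_nonneg_left h7 (sq_nonneg κ)
      refine h8.trans (le_of_eq ?_)
      ring
    refine (sum_le_sum h4).trans ?_
    rw [← mul_sum, sum_comm]
    have h5 := sum_le_sum q1
    rw [sum_const, card_range, nsmul_eq_mul] at h5
    have h6 := mul_le_mul_of_nonneg_left h5 (show 0 ≤ (I : ℝ) * κ ^ 2 by positivity)
    refine h6.trans (le_of_eq ?_)
    ring
  -- the error
  have q4 : ∑ j ∈ J, ‖Er2 z H (ep z H I) Y (j + s)‖ ^ 2 ≤ 1 / (H : ℝ) ^ 2 * ((Y + 3) ^ 6 * Q) := by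
    refine (h2 z H I Y s T J (by omega) hH1 (by linarith) hT (fun j hj => (hJ j hj).1) (hTe.trans (Real.exp_le_exp.2
      (mul_le_mul_of_nonneg_left (by linarith) (Nat.cast_nonneg _))))).trans ?_
    rw [mul_assoc]
    apply mul_le_mul_of_nonneg_left _ (by positivity)
    apply mul_le_mul_of_nonneg_left _ (by positivity)
    rw [hQ]
    have h6 : Real.exp (-(η₂ * Y)) ≤ Real.exp (-(min η₁ η₂ * (Real.log z - 1))) := by
      apply Real.exp_le_exp.2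
      have h7 : min η₁ η₂ ≤ η₂ := min_le_right _ _
      have h8 : 0 < min η₁ η₂ := lt_min hη₁ hη₂
      nlinarith
    gcongr
    linarith
  have q5 : ∀ j ∈ J, ‖WS (ep z H I) Y (j + s) (bII z * aII z)‖ ^ 2 ≤ 2 * ‖Er2 z H (ep z H I) Y (j + s)‖ ^ 2 +
      2 * ‖∑ i ∈ range I, (∑ k ∈ Ioc (ep z H i) (ep z H (i + 1)), (vonMangoldt k : ℂ) * e1 (j + s) k) *
        WS (ep z H I) (Y - (Real.log z + (i : ℝ) / H)) (j + s) (aII z)‖ ^ 2 := by
    intro j _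
    rw [split2 z H I (by omega) hH1 Y (j + s) hN]
    have h4 := norm_add_le (Er2 z H (ep z H I) Y (j + s)) (∑ i ∈ range I, (∑ k ∈ Ioc (ep z H i) (ep z H (i + 1)), (vonMangoldt k : ℂ) * e1 (j + s) k) *
        WS (ep z H I) (Y - (Real.log z + (i : ℝ) / H)) (j + s) (aII z))
    have h5 := norm_nonneg (Er2 z H (ep z H I) Y (j + s) + ∑ i ∈ range I, (∑ k ∈ Ioc (ep z H i) (ep z H (i + 1)), (vonMangoldt k : ℂ) * e1 (j + s) k) *
        WS (ep z H I) (Y - (Real.log z + (i : ℝ) / H)) (j + s) (aII z))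
    generalize ‖Er2 z H (ep z H I) Y (j + s)‖ = x at *
    generalize ‖∑ i ∈ range I, (∑ k ∈ Ioc (ep z H i) (ep z H (i + 1)), (vonMangoldt k : ℂ) * e1 (j + s) k) *
        WS (ep z H I) (Y - (Real.log z + (i : ℝ) / H)) (j + s) (aII z)‖ = y at *
    nlinarith [sq_nonneg (x - y)]
  refine (sum_le_sum q5).trans ?_
  rw [sum_add_distrib, ← mul_sum, ← mul_sum]
  have e : 2 * ((I : ℝ) ^ 2 * κ ^ 2 + 1 / (H : ℝ) ^ 2) * (Y + 3) ^ 6 * Q =
      2 * (1 / (H : ℝ) ^ 2 * ((Y + 3) ^ 6 * Q)) + 2 * ((I : ℝ) ^ 2 * κ ^ 2 * ((Y + 3) ^ 6 * Q)) := by ring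
  rw [e]
  linarith

end Pool.Agent.H15.QP
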