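import Pool.Agent.H15.QP.Mid

/-! The number of large values of the polynomial over a set of primes. -/

set_option autoImplicit false

namespace Pool.Agent.H15.QP
open Finset MeasureTheory
open Pool.Agent.H376R2.MR (er ch DP FK ge mv smoo_ge_le kern_er_norm kern_er_add kern_er_cont)

lemma poly_le_exp (m : ℕ) (C c : ℝ) (hC : 0 < C) (hc : 0 < c) : ∃ Y₀ : ℝ, ∀ Y : ℝ, Y₀ ≤ Y → C * Y ^ m ≤ Real.exp (c * Y) := by
  obtain ⟨C', hC', h1⟩ := poly_exp m (c / 2) (by positivity)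
  refine ⟨max 0 (Real.log (C * C') / (c / 2)), fun Y hY => ?_⟩
  have hY0 : 0 ≤ Y := (le_max_left _ _).trans hY
  have hY1 : Real.log (C * C') / (c / 2) ≤ Y := (le_max_right _ _).trans hY
  rw [div_le_iff₀ (by positivity)] at hY1
  have h2 : C * C' ≤ Real.exp (c / 2 * Y) := by
    rw [← Real.log_le_iff_le_exp (by positivity)]
    linarith
  have h3 := h1 Y hY0
  have h4 : Y ^ m ≤ C' * Real.exp (c / 2 * Y) := by
    have h5 := mul_le_mul_of_nonneg_right h3 (Real.exp_pos (c / 2 * Y)).le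
    rw [mul_assoc, ← Real.exp_add, neg_add_cancel, Real.exp_zero, mul_one] at h5
    exact h5
  calc C * Y ^ m ≤ C * (C' * Real.exp (c / 2 * Y)) := by gcongr
    _ = C * C' * Real.exp (c / 2 * Y) := by ring
    _ ≤ Real.exp (c / 2 * Y) * Real.exp (c / 2 * Y) := by gcongr
    _ = Real.exp (c * Y) := by rw [← Real.exp_add]; congr 1; ring

/-- **Few large values** -/
theorem Ucount (B b : ℕ) (c : ℝ) (hc : 0 < c) : ∃ (Ce : ℕ) (Y₀ : ℝ), ∀ (Y P s : ℝ) (A : Finset ℕ) (w : ℕ → ℝ), Y₀ ≤ Y → Y ^ Ce ≤ P → P ≤ Real.exp Y →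
    (∀ a ∈ A, a.Prime ∧ (a : ℝ) ≤ P) → (∀ a ∈ A, |w a| ≤ 1) → P / Y ^ B ≤ A.card →
    (((FK (⌊Real.exp (3 * Y)⌋₊ + 1)).filter (fun k : ℤ => (A.card : ℝ) / Y ^ b ≤ ‖AP A w (k + s)‖)).card : ℝ) ≤ Real.exp (c * Y) := by
  obtain ⟨C, hC, hlv⟩ := large_values
  obtain ⟨m, hm⟩ : ∃ m : ℕ, m = 2 * b + B + 1 := ⟨_, rfl⟩
  obtain ⟨Y₁, hY₁⟩ := poly_le_exp (m + 2) (4 * C) (c / 2) (by positivity) (by positivity)
  obtain ⟨Ce, hCe⟩ : ∃ Ce : ℕ, Ce = ⌈8 * m / c⌉₊ + 4 := ⟨_, rfl⟩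
  have hCe1 : 8 * (m : ℝ) / c ≤ Ce := by
    rw [hCe]; push_cast
    linarith [Nat.le_ceil (8 * (m : ℝ) / c)]
  have hCe4 : (4 : ℝ) ≤ Ce := by exact_mod_cast (by omega : 4 ≤ Ce)
  have hm1 : (1 : ℝ) ≤ m := by exact_mod_cast (by omega : 1 ≤ m)
  refine ⟨Ce, max Y₁ 8, fun Y P s A w hY hPY hPe hA hw hAc => ?_⟩
  have hY8 : 8 ≤ Y := (le_max_right _ _).trans hY
  have hYY₁ : Y₁ ≤ Y := (le_max_left _ _).trans hY
  have hY0 : 0 < Y := by linarith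
  have hY1 : 1 ≤ Y := by linarith
  have hlY : 2 ≤ Real.log Y := by
    rw [Real.le_log_iff_exp_le hY0]
    have := Pool.Agent.Y851.HZ.exp_two_lt
    linarith
  have hP1 : 1 ≤ P := (one_le_pow₀ hY1).trans hPY
  have hP0 : 0 < P := by linarith
  have hlP : Ce * Real.log Y ≤ Real.log P := by
    have := Real.log_le_log (by positivity) hPY
    rwa [Real.log_pow] at this
  have hlP8 : 8 ≤ Real.log P := by nlinarith
  have hlPY : Real.log P ≤ Y := by rw [Real.log_le_iff_le_exp hP0]; exact hPe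
  obtain ⟨K, hK⟩ : ∃ K : ℕ, K = ⌊Real.exp (3 * Y)⌋₊ + 1 := ⟨_, rfl⟩
  rw [← hK]
  have hKle : (K : ℝ) ≤ Real.exp (3 * Y + 1) := by
    have h1 : (K : ℝ) ≤ Real.exp (3 * Y) + 1 := by
      rw [hK]; push_cast
      linarith [Nat.floor_le (Real.exp_pos (3 * Y)).le]
    have h2 : Real.exp (3 * Y + 1) = Real.exp (3 * Y) * Real.exp 1 := Real.exp_add _ _
    have h3 := Real.exp_one_gt_d9
    have h4 : 1 ≤ Real.exp (3 * Y) := Real.one_le_exp (by linarith)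
    nlinarith
  obtain ⟨ℓ, hℓ⟩ : ∃ ℓ : ℕ, ℓ = ⌈(3 * Y + 1) / Real.log P⌉₊ := ⟨_, rfl⟩
  have hℓ1 : (3 * Y + 1) / Real.log P ≤ ℓ := by rw [hℓ]; exact Nat.le_ceil _
  have hℓ2 : (ℓ : ℝ) ≤ (3 * Y + 1) / Real.log P + 1 := by rw [hℓ]; exact (Nat.ceil_lt_add_one (by positivity)).le
  have hℓY : (ℓ : ℝ) ≤ Y := by
    have : (3 * Y + 1) / Real.log P ≤ (3 * Y + 1) / 8 := by gcongr
    linarith
  have hℓlY : (ℓ : ℝ) * Real.log Y ≤ 4 * Y / Ce + Real.log Y := by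
    have h1 : (3 * Y + 1) / Real.log P ≤ 4 * Y / (Ce * Real.log Y) := by
      apply div_le_div₀ (by positivity) (by linarith) (by positivity) hlP
    have h2 : (ℓ : ℝ) ≤ 4 * Y / (Ce * Real.log Y) + 1 := by linarith
    calc (ℓ : ℝ) * Real.log Y ≤ (4 * Y / (Ce * Real.log Y) + 1) * Real.log Y := by gcongr
      _ = _ := by field_simp
  have hKP : (K : ℝ) ≤ P ^ ℓ := by
    refine hKle.trans ?_
    have h1 : P ^ ℓ = Real.exp (ℓ * Real.log P) := by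
      rw [Real.exp_nat_mul, Real.exp_log hP0]
    rw [h1]
    apply Real.exp_le_exp.2
    rwa [div_le_iff₀ (by linarith)] at hℓ1
  have hAc0 : (0 : ℝ) < A.card := lt_of_lt_of_le (by positivity) hAc
  have key := hlv A w P s ((A.card : ℝ) / Y ^ b) ℓ K hP1 (by omega) (by positivity) hA hw
  obtain ⟨U, hU⟩ : ∃ U : ℝ, U = (((FK K).filter (fun k : ℤ => (A.card : ℝ) / Y ^ b ≤ ‖AP A w (k + s)‖)).card : ℝ) := ⟨_, rfl⟩
  rw [← hU] at key ⊢
  have hU0 : 0 ≤ U := by rw [hU]; exact Nat.cast_nonneg _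
  -- solve for `U`
  have h1 : U ≤ 2 * C * (1 + ℓ * Real.log P) * ℓ.factorial * Y ^ ((2 * b + B) * ℓ) := by
    have h2 : ((A.card : ℝ) / Y ^ b) ^ (2 * ℓ) = (A.card : ℝ) ^ ℓ * ((A.card : ℝ) ^ ℓ / Y ^ (2 * b * ℓ)) := by
      rw [div_pow, ← pow_mul, two_mul ℓ, pow_add]
      rw [show b * (ℓ + ℓ) = 2 * b * ℓ by ring]
      ring
    have h3 : (P / Y ^ B) ^ ℓ ≤ (A.card : ℝ) ^ ℓ := by gcongr
    have h4 : U * ((A.card : ℝ) ^ ℓ / Y ^ (2 * b * ℓ)) ≤ C * (1 + ℓ * Real.log P) * (P ^ ℓ + K) * ℓ.factorial := by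
      have h5 : 0 < (A.card : ℝ) ^ ℓ := by positivity
      rw [h2] at key
      have h6 : (A.card : ℝ) ^ ℓ * (U * ((A.card : ℝ) ^ ℓ / Y ^ (2 * b * ℓ))) ≤ (A.card : ℝ) ^ ℓ * (C * (1 + ℓ * Real.log P) * (P ^ ℓ + K) * ℓ.factorial) := by
        calc _ = U * ((A.card : ℝ) ^ ℓ * ((A.card : ℝ) ^ ℓ / Y ^ (2 * b * ℓ))) := by ring
          _ ≤ _ := key
          _ = _ := by ring
      exact le_of_mul_le_mul_left h6 h5
    have h5 : U * (P ^ ℓ / Y ^ ((2 * b + B) * ℓ)) ≤ C * (1 + ℓ * Real.log P) * (2 * P ^ ℓ) * ℓ.factorial := by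
      calc U * (P ^ ℓ / Y ^ ((2 * b + B) * ℓ)) = U * ((P / Y ^ B) ^ ℓ / Y ^ (2 * b * ℓ)) := by
            rw [div_pow, ← pow_mul, div_div, ← pow_add]
            congr 3
            ring
        _ ≤ U * ((A.card : ℝ) ^ ℓ / Y ^ (2 * b * ℓ)) := by gcongr
        _ ≤ C * (1 + ℓ * Real.log P) * (P ^ ℓ + K) * ℓ.factorial := h4
        _ ≤ C * (1 + ℓ * Real.log P) * (2 * P ^ ℓ) * ℓ.factorial := by
            gcongr
            linarith
    have hPℓ : 0 < P ^ ℓ := by positivity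
    have h6 : P ^ ℓ * (U * (1 / Y ^ ((2 * b + B) * ℓ))) ≤ P ^ ℓ * (2 * C * (1 + ℓ * Real.log P) * ℓ.factorial) := by
      calc _ = U * (P ^ ℓ / Y ^ ((2 * b + B) * ℓ)) := by ring
        _ ≤ _ := h5
        _ = _ := by ring
    have h7 := le_of_mul_le_mul_left h6 hPℓ
    rw [mul_one_div, div_le_iff₀ (by positivity)] at h7
    exact h7
  have h2 : (ℓ.factorial : ℝ) ≤ Y ^ ℓ := by
    calc (ℓ.factorial : ℝ) ≤ (ℓ : ℝ) ^ ℓ := by exact_mod_cast Nat.factorial_le_pow ℓ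
      _ ≤ Y ^ ℓ := by gcongr
  have h3 : 1 + ℓ * Real.log P ≤ 2 * Y ^ 2 := by
    have : ℓ * Real.log P ≤ Y * Y := by gcongr
    nlinarith
  have h4 : Y ^ (m * ℓ) = Real.exp (m * (ℓ * Real.log Y)) := by
    rw [← Real.rpow_natCast, Real.rpow_def_of_pos hY0]
    congr 1
    push_cast
    ring
  have h5 : (m : ℝ) * (ℓ * Real.log Y) ≤ c / 2 * Y + m * Real.log Y := by
    have h6 : (m : ℝ) * (4 * Y / Ce) ≤ c / 2 * Y := by
      rw [div_le_iff₀ hc] at hCe1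
      have hCe0 : (0 : ℝ) < Ce := by linarith
      rw [mul_div_assoc', div_le_iff₀ hCe0]
      nlinarith
    have h7 := mul_le_mul_of_nonneg_left hℓlY (show (0 : ℝ) ≤ m by linarith)
    rw [mul_add] at h7
    linarith
  calc U ≤ 2 * C * (1 + ℓ * Real.log P) * ℓ.factorial * Y ^ ((2 * b + B) * ℓ) := h1
    _ ≤ 2 * C * (2 * Y ^ 2) * Y ^ ℓ * Y ^ ((2 * b + B) * ℓ) := by gcongr
    _ = 4 * C * Y ^ 2 * Y ^ (m * ℓ) := by
        rw [hm, show (2 * b + B + 1) * ℓ = ℓ + (2 * b + B) * ℓ by ring, pow_add]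
        ring
    _ ≤ 4 * C * Y ^ 2 * Real.exp (c / 2 * Y + m * Real.log Y) := by
        rw [h4]
        gcongr
    _ = (4 * C * Y ^ (m + 2)) * Real.exp (c / 2 * Y) := by
        rw [Real.exp_add, mul_comm (m : ℝ), ← Real.rpow_def_of_pos hY0, Real.rpow_natCast]
        ring
    _ ≤ Real.exp (c / 2 * Y) * Real.exp (c / 2 * Y) := by
        gcongr
        exact hY₁ Y hYY₁
    _ = Real.exp (c * Y) := by rw [← Real.exp_add]; congr 1; ring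

end Pool.Agent.H15.QP
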