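import Pool.Agent.H15.QP.Uc

/-! The variance. -/

set_option autoImplicit false

namespace Pool.Agent.H15.QP
open Finset MeasureTheory
open Pool.Agent.H376R2.MR (er ch DP FK ge mv smoo_ge_le kern_er_norm kern_er_add kern_er_cont)
open Pool.Agent.H376R2.MR renaming w → tw
open Pool.Agent.Y851.HZ

lemma AP_le (A : Finset ℕ) (w : ℕ → ℝ) (hw : ∀ a ∈ A, |w a| ≤ 1) (τ : ℝ) : ‖AP A w τ‖ ≤ A.card := by
  unfold AP
  refine (norm_sum_le _ _).trans ?_
  have h : ∀ a ∈ A, ‖(w a : ℂ) * er τ (-Real.log a)‖ ≤ 1 := by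
    intro a ha
    rw [norm_mul, kern_er_norm, mul_one, Complex.norm_real, Real.norm_eq_abs]
    exact hw a ha
  refine (sum_le_sum h).trans (le_of_eq ?_)
  rw [sum_const, nsmul_eq_mul, mul_one]

lemma DD_triv (Y : ℝ) (M : ℕ) (τ : ℝ) (hY : 0 ≤ Y) : ‖DD Y M τ‖ ≤ 54 * (Y + 3) := by
  obtain ⟨he4, he3⟩ := exp_small
  have hlM : 0 ≤ Real.log M := Real.log_natCast_nonneg M
  have h1 : ‖PQ Y τ‖ ≤ 27 * (Y + 3) := by
    unfold PQ
    refine (norm_sum_le _ _).trans ?_
    have h2 : ∀ n ∈ (Icc 1 (NY Y)).filter Nat.Prime, ‖((Real.log n * g5 (Real.log n - Y) / n : ℝ) : ℂ) * er τ (Real.log n)‖ ≤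
        if |Real.log n - Y| ≤ 3 then (Y + 3) * (1 / (n : ℝ)) else 0 := by
      intro n hn
      rw [mem_filter, mem_Icc] at hn
      have hn0 : (0 : ℝ) < n := by exact_mod_cast hn.1.1
      have h2 := g5_nonneg (Real.log n - Y)
      have h3 := g5_le (Real.log n - Y)
      have h4 := Real.log_natCast_nonneg n
      rw [norm_mul, kern_er_norm, mul_one, Complex.norm_real, Real.norm_eq_abs, abs_of_nonneg (by positivity)]
      split_ifs with h
      · have h5 : Real.log n ≤ Y + 3 := by linarith [(abs_le.1 h).2]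
        calc Real.log n * g5 (Real.log n - Y) / n ≤ (Y + 3) * 1 / n := by gcongr
          _ = _ := by ring
      · push Not at h
        rw [g5_supp _ h.le]
        simp
    refine (sum_le_sum h2).trans ?_
    rw [← sum_filter, ← mul_sum, mul_comm (27 : ℝ)]
    apply mul_le_mul_of_nonneg_left _ (by linarith)
    refine (recip_log Y 3 (by norm_num) _ (by
      intro n hn
      rw [mem_filter, mem_filter, mem_Icc] at hn
      exact ⟨hn.1.1.1, hn.2⟩)).trans ?_
    have : Real.exp (3 - Y) ≤ Real.exp 3 := Real.exp_le_exp.2 (by linarith)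
    linarith
  have h1' : ‖MD Y M τ‖ ≤ 27 := by
    unfold MD
    refine (norm_sum_le _ _).trans ?_
    have h2 : ∀ n ∈ Icc 1 (NY (Y + Real.log M)), ‖((g5 (Real.log n - Real.log M - Y) / n : ℝ) : ℂ) * er τ (Real.log n - Real.log M)‖ ≤
        if |Real.log n - (Y + Real.log M)| ≤ 3 then (1 / (n : ℝ)) else 0 := by
      intro n hn
      rw [mem_Icc] at hn
      have hn0 : (0 : ℝ) < n := by exact_mod_cast hn.1
      have h2 := g5_nonneg (Real.log n - Real.log M - Y)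
      have h3 := g5_le (Real.log n - Real.log M - Y)
      rw [norm_mul, kern_er_norm, mul_one, Complex.norm_real, Real.norm_eq_abs, abs_of_nonneg (by positivity)]
      split_ifs with h
      · gcongr
      · push Not at h
        rw [g5_supp _ (by rw [show Real.log n - Real.log M - Y = Real.log n - (Y + Real.log M) by ring]; exact h.le)]
        simp
    refine (sum_le_sum h2).trans ?_
    rw [← sum_filter]
    refine (recip_log (Y + Real.log M) 3 (by norm_num) _ (by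
      intro n hn
      rw [mem_filter, mem_Icc] at hn
      exact ⟨hn.1.1, hn.2⟩)).trans ?_
    have : Real.exp (3 - (Y + Real.log M)) ≤ Real.exp 3 := Real.exp_le_exp.2 (by linarith)
    linarith
  unfold DD
  refine (norm_sub_le _ _).trans ?_
  linarith

/-- the indicator of large values -/
noncomputable def GU (A : Finset ℕ) (w : ℕ → ℝ) (t Y : ℝ) (M : ℕ) : ℝ → ℝ :=
  Set.indicator {τ | t ≤ ‖AP A w τ‖} (fun τ => ‖DD Y M τ‖ ^ 2)

lemma GU_meas (A : Finset ℕ) (w : ℕ → ℝ) (t : ℝ) : MeasurableSet {τ | t ≤ ‖AP A w τ‖} :=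
  (isClosed_le continuous_const (AP_cont A w).norm).measurableSet

lemma GU_int (A : Finset ℕ) (w : ℕ → ℝ) (t Y : ℝ) (M : ℕ) (a b : ℝ) : IntervalIntegrable (GU A w t Y M) volume a b := by
  have h1 : Continuous (fun τ => ‖DD Y M τ‖ ^ 2) := (DD_cont Y M).norm.pow 2
  rw [intervalIntegrable_iff]
  exact (intervalIntegrable_iff.1 (h1.intervalIntegrable a b)).indicator (GU_meas A w t)

lemma GU_nonneg (A : Finset ℕ) (w : ℕ → ℝ) (t Y : ℝ) (M : ℕ) (τ : ℝ) : 0 ≤ GU A w t Y M τ :=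
  Set.indicator_nonneg (fun _ _ => sq_nonneg _) _

lemma GU_sum (A : Finset ℕ) (w : ℕ → ℝ) (t Y : ℝ) (M K : ℕ) (s : ℝ) :
    ∑ i ∈ range (2 * K), GU A w t Y M (s + ((i : ℝ) - K)) ≤
      ∑ k ∈ (FK (K + 1)).filter (fun k : ℤ => t ≤ ‖AP A w (k + s)‖), ‖DD Y M (k + s)‖ ^ 2 := by
  rw [sum_filter]
  have h1 : ∑ i ∈ range (2 * K), GU A w t Y M (s + ((i : ℝ) - K)) =
      ∑ k ∈ (range (2 * K)).image (fun i : ℕ => (i : ℤ) - K), GU A w t Y M (s + (k : ℝ)) := by
    rw [sum_image]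
    · apply sum_congr rfl
      intro i _
      push_cast
      rfl
    · intro a _ b _ hab
      simp only at hab
      omega
  rw [h1]
  refine (sum_le_sum_of_subset_of_nonneg (t := FK (K + 1)) ?_ fun k _ _ => GU_nonneg _ _ _ _ _ _).trans (le_of_eq ?_)
  · intro k hk
    rw [mem_image] at hk
    obtain ⟨i, hi, rfl⟩ := hk
    rw [mem_range] at hi
    unfold Pool.Agent.H376R2.MR.FK
    rw [mem_Ioo]
    push_cast
    omega
  · apply sum_congr rfl
    intro k _
    unfold GU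
    rw [Set.indicator_apply, add_comm s]
    simp only [Set.mem_ofPred_eq]

/-- **The variance** -/
theorem variance (B : ℕ) : ∃ (Ce : ℕ) (Y₀ : ℝ), ∀ (Y P h : ℝ) (M : ℕ) (A : Finset ℕ) (w : ℕ → ℝ), Y₀ ≤ Y → Y ^ Ce ≤ P → P ≤ Real.exp Y →
    (∀ a ∈ A, a.Prime ∧ (a : ℝ) ≤ P) → (∀ a ∈ A, |w a| ≤ 1) → P / Y ^ B ≤ A.card → 1 ≤ M → Real.exp (-Y) / Y ^ B ≤ h → h ≤ 1 →
    ∫ ξ, kap ξ * ‖AP A w (2 * Real.pi * ξ / h) * DD Y M (2 * Real.pi * ξ / h)‖ ^ 2 ≤ (A.card : ℝ) ^ 2 * (h / Y ^ B) := by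
  obtain ⟨c, hc, hsp⟩ := DD_sparse
  obtain ⟨Y₁, hsp⟩ := hsp (B + 1)
  obtain ⟨Ce, Y₂, hU⟩ := Ucount B (B + 3) c hc
  obtain ⟨Y₃, hY₃⟩ := poly_le_exp (3 * B + 2) 560000 1 (by norm_num) one_pos
  refine ⟨Ce, max (max Y₁ Y₂) (max Y₃ 20), fun Y P h M A w hY hPY hPe hA hw hAc hM hh hh1 => ?_⟩
  have hYY₁ : Y₁ ≤ Y := ((le_max_left _ _).trans (le_max_left _ _)).trans hY
  have hYY₂ : Y₂ ≤ Y := ((le_max_right _ _).trans (le_max_left _ _)).trans hY
  have hYY₃ : Y₃ ≤ Y := ((le_max_left _ _).trans (le_max_right _ _)).trans hY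
  have hY20 : 20 ≤ Y := ((le_max_right _ _).trans (le_max_right _ _)).trans hY
  have hY0 : 0 < Y := by linarith
  have hY1 : 1 ≤ Y := by linarith
  have hh0 : 0 < h := lt_of_lt_of_le (by positivity) hh
  have hpi := Real.pi_gt_three
  have hpi2 := Real.pi_lt_four
  obtain ⟨K, hK⟩ : ∃ K : ℕ, K = ⌊Real.exp (3 * Y)⌋₊ := ⟨_, rfl⟩
  have hK1 : (K : ℝ) ≤ Real.exp (3 * Y) := by rw [hK]; exact Nat.floor_le (Real.exp_pos _).le
  have hK2 : Real.exp (3 * Y) / 2 ≤ K := by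
    have h1 : Real.exp (3 * Y) < K + 1 := by rw [hK]; exact Nat.lt_floor_add_one _
    have h2 : 2 ≤ Real.exp (3 * Y) := by
      have := Real.add_one_le_exp (3 * Y)
      linarith
    linarith
  have hK0 : (0 : ℝ) < K := lt_of_lt_of_le (by positivity) hK2
  obtain ⟨a, ha⟩ : ∃ a : ℝ, a = A.card := ⟨_, rfl⟩
  have ha0 : 0 ≤ a := by rw [ha]; exact Nat.cast_nonneg _
  obtain ⟨t, ht⟩ : ∃ t : ℝ, t = (A.card : ℝ) / Y ^ (B + 3) := ⟨_, rfl⟩
  have ht0 : 0 ≤ t := by rw [ht]; positivity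
  obtain ⟨R, hR⟩ : ∃ R : ℝ, R = h * K / (2 * Real.pi) := ⟨_, rfl⟩
  have hR0 : 0 < R := by rw [hR]; positivity
  obtain ⟨f, hf⟩ : ∃ f : ℝ → ℝ, ∀ ξ, f ξ = kap ξ * ‖AP A w (2 * Real.pi * ξ / h) * DD Y M (2 * Real.pi * ξ / h)‖ ^ 2 := ⟨_, fun _ => rfl⟩
  simp_rw [← hf]
  rw [← ha]
  have hcomp : Continuous (fun ξ : ℝ => 2 * Real.pi * ξ / h) := by fun_prop
  have hcontf : Continuous (fun ξ => ‖AP A w (2 * Real.pi * ξ / h) * DD Y M (2 * Real.pi * ξ / h)‖ ^ 2) :=
    (((AP_cont A w).comp hcomp).mul ((DD_cont Y M).comp hcomp)).norm.pow 2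
  have hbd : ∀ τ : ℝ, ‖AP A w τ * DD Y M τ‖ ^ 2 ≤ (a * (54 * (Y + 3))) ^ 2 := by
    intro τ
    apply pow_le_pow_left₀ (norm_nonneg _)
    rw [norm_mul, ha]
    exact mul_le_mul (AP_le A w hw τ) (DD_triv Y M τ hY0.le) (norm_nonneg _) (Nat.cast_nonneg _)
  have hfint : Integrable f := by
    have := kap_bdd_int _ hcontf ((a * (54 * (Y + 3))) ^ 2) (fun ξ => by
      rw [abs_of_nonneg (sq_nonneg _)]
      exact hbd _)
    refine this.congr (Filter.Eventually.of_forall fun ξ => ?_)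
    exact (hf ξ).symm
  obtain ⟨hen1, hen2⟩ := DD_en Y h M hY0.le hh0 hh1
  -- the tail
  have hSm : MeasurableSet {ξ : ℝ | R < |ξ|} := measurableSet_lt measurable_const measurable_id.abs
  have q1 : ∫ ξ in {ξ : ℝ | R < |ξ|}, f ξ ≤ (a * (54 * (Y + 3))) ^ 2 * (1 / R) := by
    have h1 : ∫ ξ in {ξ : ℝ | R < |ξ|}, f ξ ≤ ∫ ξ in {ξ : ℝ | R < |ξ|}, (a * (54 * (Y + 3))) ^ 2 * kap ξ := by
      apply setIntegral_mono_on hfint.integrableOn (kap_int.const_mul _).integrableOn hSm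
      intro ξ _
      rw [hf, mul_comm]
      exact mul_le_mul_of_nonneg_right (hbd _) (kap_nonneg _)
    refine h1.trans ?_
    rw [integral_const_mul]
    exact mul_le_mul_of_nonneg_left (kap_tail R hR0) (sq_nonneg _)
  -- the middle part
  have hcompl : {ξ : ℝ | R < |ξ|}ᶜ = Set.Icc (-R) R := by
    ext ξ
    simp only [Set.mem_compl_iff, Set.mem_ofPred_eq, not_lt, Set.mem_Icc, abs_le]
  have hGint : IntegrableOn (fun ξ => GU A w t Y M (2 * Real.pi * ξ / h)) (Set.Icc (-R) R) := by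
    have h1 : Measurable (GU A w t Y M) := ((DD_cont Y M).norm.pow 2).measurable.indicator (GU_meas A w t)
    have h2 : AEStronglyMeasurable (fun ξ => GU A w t Y M (2 * Real.pi * ξ / h)) (volume.restrict (Set.Icc (-R) R)) :=
      (h1.comp hcomp.measurable).aestronglyMeasurable
    apply Integrable.mono' (g := fun _ => (54 * (Y + 3)) ^ 2) _ h2
    · filter_upwards with ξ
      rw [Real.norm_eq_abs, abs_of_nonneg (GU_nonneg _ _ _ _ _ _)]
      unfold GU
      apply Set.indicator_le' (fun τ _ => ?_) (fun τ _ => sq_nonneg _) _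
      exact pow_le_pow_left₀ (norm_nonneg _) (DD_triv Y M τ hY0.le) 2
    · exact integrableOn_const (by simp) 
  have q2 : ∫ ξ in Set.Icc (-R) R, f ξ ≤ t ^ 2 * (6400 * (Y + 3) ^ 2 * (h + Real.exp (-Y))) + a ^ 2 * (h / (2 * Real.pi) * (1 / Y ^ (B + 1))) := by
    have h1 : ∫ ξ in Set.Icc (-R) R, f ξ ≤ ∫ ξ in Set.Icc (-R) R, (t ^ 2 * (kap ξ * ‖DD Y M (2 * Real.pi * ξ / h)‖ ^ 2) +
        a ^ 2 * GU A w t Y M (2 * Real.pi * ξ / h)) := by
      apply setIntegral_mono_on hfint.integrableOn _ measurableSet_Icc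
      · intro ξ _
        rw [hf]
        obtain ⟨τ, hτ⟩ : ∃ τ, τ = 2 * Real.pi * ξ / h := ⟨_, rfl⟩
        rw [← hτ]
        have k0 := kap_nonneg ξ
        have k1 := kap_le_one ξ
        rw [norm_mul, mul_pow]
        by_cases hc : t ≤ ‖AP A w τ‖
        · have h2 : GU A w t Y M τ = ‖DD Y M τ‖ ^ 2 := by
            unfold GU
            rw [Set.indicator_of_mem (by exact hc)]
          rw [h2]
          have h3 : ‖AP A w τ‖ ^ 2 ≤ a ^ 2 := by
            apply pow_le_pow_left₀ (norm_nonneg _)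
            rw [ha]; exact AP_le A w hw τ
          have h4 : 0 ≤ t ^ 2 * (kap ξ * ‖DD Y M τ‖ ^ 2) := by positivity
          have h5 : kap ξ * (‖AP A w τ‖ ^ 2 * ‖DD Y M τ‖ ^ 2) ≤ 1 * (a ^ 2 * ‖DD Y M τ‖ ^ 2) := by gcongr
          linarith
        · push Not at hc
          have h3 : ‖AP A w τ‖ ^ 2 ≤ t ^ 2 := pow_le_pow_left₀ (norm_nonneg _) hc.le 2
          have h4 : 0 ≤ a ^ 2 * GU A w t Y M τ := mul_nonneg (sq_nonneg _) (GU_nonneg _ _ _ _ _ _)
          have h5 : kap ξ * (‖AP A w τ‖ ^ 2 * ‖DD Y M τ‖ ^ 2) ≤ t ^ 2 * (kap ξ * ‖DD Y M τ‖ ^ 2) := by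
            calc kap ξ * (‖AP A w τ‖ ^ 2 * ‖DD Y M τ‖ ^ 2) ≤ kap ξ * (t ^ 2 * ‖DD Y M τ‖ ^ 2) := by gcongr
              _ = _ := by ring
          linarith
      · exact ((hen1.const_mul _).integrableOn).add (hGint.const_mul _)
    refine h1.trans ?_
    rw [integral_add (hen1.const_mul _).integrableOn (hGint.const_mul _), integral_const_mul, integral_const_mul]
    apply add_le_add
    · apply mul_le_mul_of_nonneg_left _ (sq_nonneg _)
      refine le_trans ?_ hen2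
      apply setIntegral_le_integral hen1
      filter_upwards with ξ
      exact mul_nonneg (kap_nonneg _) (sq_nonneg _)
    · apply mul_le_mul_of_nonneg_left _ (sq_nonneg _)
      rw [integral_Icc_eq_integral_Ioc, ← intervalIntegral.integral_of_le (by linarith), hR]
      apply mid _ (GU_int A w t Y M) K h _ hh0
      intro s hs
      refine (GU_sum A w t Y M K s).trans ?_
      apply hsp Y s M _ hYY₁ hM
      · rw [abs_of_nonneg hs.1]; exact hs.2
      · intro k hk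
        rw [mem_filter] at hk
        unfold Pool.Agent.H376R2.MR.FK at hk
        rw [mem_Ioo] at hk
        refine le_trans ?_ hK1
        rw [abs_le]
        constructor
        · have : -(K : ℤ) ≤ k := by have := hk.1.1; push_cast at this; omega
          exact_mod_cast this
        · have : k ≤ (K : ℤ) := by have := hk.1.2; push_cast at this; omega
          exact_mod_cast this
      · rw [hK, ht]
        exact hU Y P s A w hYY₂ hPY hPe hA hw hAc
  have q3 : ∫ ξ, f ξ = (∫ ξ in {ξ : ℝ | R < |ξ|}, f ξ) + ∫ ξ in Set.Icc (-R) R, f ξ := by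
    rw [← hcompl, integral_add_compl hSm hfint]
  rw [q3]
  -- the comparison
  have hYB : 0 < Y ^ B := by positivity
  have r1 : t ^ 2 * (6400 * (Y + 3) ^ 2 * (h + Real.exp (-Y))) ≤ 1 / 3 * (a ^ 2 * (h / Y ^ B)) := by
    have h1 : h + Real.exp (-Y) ≤ 2 * (h * Y ^ B) := by
      rw [div_le_iff₀ hYB] at hh
      have : 1 ≤ Y ^ B := one_le_pow₀ hY1
      nlinarith only [hh, this, hh0]
    have h2 : (Y + 3) ^ 2 ≤ 4 * Y ^ 2 := by nlinarith only [hY20]
    calc t ^ 2 * (6400 * (Y + 3) ^ 2 * (h + Real.exp (-Y))) ≤ t ^ 2 * (6400 * (4 * Y ^ 2) * (2 * (h * Y ^ B))) := by gcongr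
      _ = 51200 / Y ^ 4 * (a ^ 2 * (h / Y ^ B)) := by
          rw [ht, ← ha, div_pow, ← pow_mul, show (B + 3) * 2 = B + B + 6 by ring, pow_add, pow_add]
          field_simp
          ring
      _ ≤ 1 / 3 * (a ^ 2 * (h / Y ^ B)) := by
          apply mul_le_mul_of_nonneg_right _ (by positivity)
          rw [div_le_iff₀ (by positivity)]
          have : (20 : ℝ) ^ 4 ≤ Y ^ 4 := by gcongr
          linarith
  have r2 : a ^ 2 * (h / (2 * Real.pi) * (1 / Y ^ (B + 1))) ≤ 1 / 3 * (a ^ 2 * (h / Y ^ B)) := by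
    have h1 : h / (2 * Real.pi) ≤ h / 3 := by
      apply div_le_div_of_nonneg_left hh0.le (by norm_num)
      linarith
    have h2 : 1 / Y ^ (B + 1) ≤ 1 / Y ^ B := by
      apply one_div_le_one_div_of_le hYB
      exact pow_le_pow_right₀ hY1 (by omega)
    calc a ^ 2 * (h / (2 * Real.pi) * (1 / Y ^ (B + 1))) ≤ a ^ 2 * (h / 3 * (1 / Y ^ B)) := by gcongr
      _ = _ := by ring
  have r3 : (a * (54 * (Y + 3))) ^ 2 * (1 / R) ≤ 1 / 3 * (a ^ 2 * (h / Y ^ B)) := by
    have h1 : 1 / R ≤ 16 / (h * Real.exp (3 * Y)) := by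
      rw [hR, one_div_div, div_le_div_iff₀ (by positivity) (by positivity)]
      have h2 : 2 * Real.pi * (h * Real.exp (3 * Y)) ≤ 8 * (h * Real.exp (3 * Y)) := by
        apply mul_le_mul_of_nonneg_right (by linarith) (by positivity)
      nlinarith only [h2, hK2, hh0, mul_le_mul_of_nonneg_left hK2 hh0.le]
    have h2 : (54 * (Y + 3)) ^ 2 ≤ 54 ^ 2 * (4 * Y ^ 2) := by
      rw [mul_pow]
      apply mul_le_mul_of_nonneg_left _ (by norm_num)
      nlinarith only [hY20]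
    have h3 : 560000 * Y ^ (3 * B + 2) ≤ Real.exp Y := by
      have := hY₃ Y hYY₃
      rwa [one_mul] at this
    have h4 : Real.exp (-Y) ≤ h * Y ^ B := by rwa [div_le_iff₀ hYB] at hh
    have h5 : 1 ≤ h * Y ^ B * Real.exp Y := by
      have := mul_le_mul_of_nonneg_right h4 (Real.exp_pos Y).le
      rwa [← Real.exp_add, neg_add_cancel, Real.exp_zero] at this
    have h6 : Real.exp (3 * Y) = Real.exp Y * Real.exp Y * Real.exp Y := by
      rw [← Real.exp_add, ← Real.exp_add]; congr 1; ring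
    have h7 : 54 ^ 2 * (4 * Y ^ 2) * (16 / (h * Real.exp (3 * Y))) ≤ 1 / 3 * (h / Y ^ B) := by
      rw [mul_div_assoc', div_le_iff₀ (by positivity)]
      have h8 : 1 ≤ (h * Y ^ B * Real.exp Y) * (h * Y ^ B * Real.exp Y) := by nlinarith only [h5]
      calc 54 ^ 2 * (4 * Y ^ 2) * 16 = (1 / 3 * 559872) * Y ^ 2 * 1 := by ring
        _ ≤ (1 / 3 * 559872) * Y ^ 2 * ((h * Y ^ B * Real.exp Y) * (h * Y ^ B * Real.exp Y)) := by gcongr
        _ = 1 / 3 * (h / Y ^ B) * (h * (559872 * Y ^ (3 * B + 2) * Real.exp Y * Real.exp Y)) := by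
            rw [show 3 * B + 2 = B + B + B + 2 by ring, pow_add, pow_add, pow_add]
            field_simp
        _ ≤ 1 / 3 * (h / Y ^ B) * (h * (Real.exp Y * Real.exp Y * Real.exp Y)) := by
            have h9 : 559872 * Y ^ (3 * B + 2) ≤ Real.exp Y := by
              have : 0 ≤ Y ^ (3 * B + 2) := by positivity
              linarith
            gcongr
        _ = _ := by rw [h6]
    calc (a * (54 * (Y + 3))) ^ 2 * (1 / R) = a ^ 2 * ((54 * (Y + 3)) ^ 2 * (1 / R)) := by ring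
      _ ≤ a ^ 2 * (54 ^ 2 * (4 * Y ^ 2) * (16 / (h * Real.exp (3 * Y)))) := by gcongr
      _ ≤ a ^ 2 * (1 / 3 * (h / Y ^ B)) := by gcongr
      _ = _ := by ring
  linarith

end Pool.Agent.H15.QP
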