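import Pool.Agent.H15.QP.Dual

/-! Vaughan's identity for windows, and the sums of type one. -/

set_option autoImplicit false

namespace Pool.Agent.H15.QP
open Finset
open Pool.Agent.H376R2.MR (er kern_er_norm kern_er_add kern_er_cont)
open Pool.Agent.H376R2.MR renaming w → tw
open Pool.Agent.Y851.HZ
open ArithmeticFunction (vonMangoldt moebius)

/-- `n^{-1+iτ}` -/
noncomputable def e1 (τ : ℝ) (n : ℕ) : ℂ := ((1 / n : ℝ) : ℂ) * er τ (Real.log n)

lemma e1_mul (τ : ℝ) {d m : ℕ} (hd : 1 ≤ d) (hm : 1 ≤ m) : e1 τ (d * m) = e1 τ d * e1 τ m := by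
  unfold e1
  have hd0 : (0 : ℝ) < d := by exact_mod_cast hd
  have hm0 : (0 : ℝ) < m := by exact_mod_cast hm
  have hl : Real.log ((d * m : ℕ) : ℝ) = Real.log d + Real.log m := by
    push_cast
    rw [Real.log_mul hd0.ne' hm0.ne']
  rw [hl, kern_er_add]
  push_cast
  have h1 : (d : ℂ) ≠ 0 := by exact_mod_cast hd0.ne'
  have h2 : (m : ℂ) ≠ 0 := by exact_mod_cast hm0.ne'
  field_simp

lemma e1_norm (τ : ℝ) (n : ℕ) : ‖e1 τ n‖ = 1 / n := by
  unfold e1
  rw [norm_mul, kern_er_norm, mul_one, Complex.norm_real, Real.norm_eq_abs, abs_of_nonneg (by positivity)]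

/-- window sums of arithmetic functions -/
noncomputable def WS (N : ℕ) (V τ : ℝ) (f : ArithmeticFunction ℝ) : ℂ :=
  ∑ n ∈ Icc 1 N, (f n : ℂ) * (e1 τ n * (tw (Real.log n - V) : ℂ))

lemma WS_add (N : ℕ) (V τ : ℝ) (f g : ArithmeticFunction ℝ) : WS N V τ (f + g) = WS N V τ f + WS N V τ g := by
  unfold WS
  rw [← sum_add_distrib]
  apply sum_congr rfl
  intro n _
  rw [ArithmeticFunction.add_apply]
  push_cast
  ring

lemma WS_neg (N : ℕ) (V τ : ℝ) (f : ArithmeticFunction ℝ) : WS N V τ (-f) = -WS N V τ f := by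
  unfold WS
  rw [← sum_neg_distrib]
  apply sum_congr rfl
  intro n _
  rw [ArithmeticFunction.neg_apply]
  push_cast
  ring

/-- windows of convolutions -/
lemma WS_mul (N : ℕ) (τ V : ℝ) (hN : Real.exp (V + 1) ≤ N) (f g : ArithmeticFunction ℝ) :
    WS N V τ (f * g) = ∑ d ∈ Icc 1 N, (f d : ℂ) * (e1 τ d * WS N (V - Real.log d) τ g) := by
  unfold WS
  have h1 : ∀ n ∈ Icc 1 N, ((f * g) n : ℂ) * (e1 τ n * (tw (Real.log n - V) : ℂ)) =
      ∑ p ∈ n.divisorsAntidiagonal, (f p.1 : ℂ) * (g p.2 : ℂ) * (e1 τ (p.1 * p.2) * (tw (Real.log ((p.1 * p.2 : ℕ) : ℝ) - V) : ℂ)) := by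
    intro n _
    rw [ArithmeticFunction.mul_apply, Complex.ofReal_sum, sum_mul]
    apply sum_congr rfl
    intro p hp
    rw [Nat.mem_divisorsAntidiagonal] at hp
    rw [hp.1]
    push_cast
    ring
  rw [sum_congr rfl h1]
  have h2 : ∀ d ∈ Icc 1 N, (f d : ℂ) * (e1 τ d * ∑ n ∈ Icc 1 N, (g n : ℂ) * (e1 τ n * (tw (Real.log n - (V - Real.log d)) : ℂ))) =
      ∑ m ∈ Icc 1 N, (f d : ℂ) * (g m : ℂ) * (e1 τ (d * m) * (tw (Real.log ((d * m : ℕ) : ℝ) - V) : ℂ)) := by
    intro d hd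
    rw [mul_sum, mul_sum]
    apply sum_congr rfl
    intro m hm
    rw [mem_Icc] at hd hm
    have hd0 : (0 : ℝ) < d := by exact_mod_cast hd.1
    have hm0 : (0 : ℝ) < m := by exact_mod_cast hm.1
    have hl : Real.log ((d * m : ℕ) : ℝ) = Real.log d + Real.log m := by
      push_cast
      rw [Real.log_mul hd0.ne' hm0.ne']
    rw [e1_mul τ hd.1 hm.1, hl, show Real.log m - (V - Real.log d) = Real.log d + Real.log m - V by ring]
    ring
  rw [sum_congr rfl h2, ← sum_product', sum_sigma']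
  -- the pairs
  symm
  rw [← sum_subset (s₁ := (Icc 1 N ×ˢ Icc 1 N).filter (fun p : ℕ × ℕ => p.1 * p.2 ≤ N)) (filter_subset _ _)]
  · refine sum_bij' (fun p _ => (⟨p.1 * p.2, p⟩ : (_ : ℕ) × (ℕ × ℕ))) (fun q _ => q.2) ?_ ?_ ?_ ?_ ?_
    · intro p hp
      rw [mem_filter, mem_product, mem_Icc, mem_Icc] at hp
      rw [mem_sigma, mem_Icc, Nat.mem_divisorsAntidiagonal]
      have : 0 < p.1 * p.2 := Nat.mul_pos hp.1.1.1 hp.1.2.1
      exact ⟨⟨this, hp.2⟩, rfl, this.ne'⟩
    · rintro ⟨n, p⟩ hq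
      rw [mem_sigma, mem_Icc, Nat.mem_divisorsAntidiagonal] at hq
      simp only at hq
      obtain ⟨⟨h3, h4⟩, h5, h6⟩ := hq
      have h7 : p.1 ≠ 0 := by rintro h; rw [h, zero_mul] at h5; omega
      have h8 : p.2 ≠ 0 := by rintro h; rw [h, mul_zero] at h5; omega
      rw [mem_filter, mem_product, mem_Icc, mem_Icc]
      have h9 : p.1 ≤ p.1 * p.2 := Nat.le_mul_of_pos_right _ (Nat.pos_of_ne_zero h8)
      have h10 : p.2 ≤ p.1 * p.2 := Nat.le_mul_of_pos_left _ (Nat.pos_of_ne_zero h7)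
      simp only
      omega
    · intro p _; rfl
    · rintro ⟨n, p⟩ hq
      rw [mem_sigma, Nat.mem_divisorsAntidiagonal] at hq
      simp only at hq ⊢
      rw [hq.2.1]
    · intro p _; rfl
  · intro p hp hp2
    rw [mem_product, mem_Icc, mem_Icc] at hp
    rw [mem_filter, mem_product, mem_Icc, mem_Icc, not_and, not_le] at hp2
    have h3 := hp2 hp
    have h4 : (N : ℝ) < ((p.1 * p.2 : ℕ) : ℝ) := by exact_mod_cast h3
    have h5 : Real.exp (V + 1) < ((p.1 * p.2 : ℕ) : ℝ) := lt_of_le_of_lt hN h4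
    have h6 : V + 1 < Real.log ((p.1 * p.2 : ℕ) : ℝ) := by
      rwa [Real.lt_log_iff_exp_lt ((Real.exp_pos _).trans h5)]
    rw [tw_supp _ (by rw [abs_of_nonneg (by linarith)]; linarith)]
    simp

/-- the truncation -/
noncomputable def tru (z : ℕ) (f : ArithmeticFunction ℝ) : ArithmeticFunction ℝ := ⟨fun n => if n ≤ z then f n else 0, by simp⟩

lemma tru_apply (z : ℕ) (f : ArithmeticFunction ℝ) (n : ℕ) : tru z f n = if n ≤ z then f n else 0 := rfl

/-- the Moebius function, real valued -/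
noncomputable def muR : ArithmeticFunction ℝ := ((moebius : ArithmeticFunction ℤ) : ArithmeticFunction ℝ)

noncomputable def zeR : ArithmeticFunction ℝ := ((ArithmeticFunction.zeta : ArithmeticFunction ℕ) : ArithmeticFunction ℝ)

lemma muR_zeR : muR * zeR = 1 := ArithmeticFunction.coe_moebius_mul_coe_zeta

lemma lam_zeR : vonMangoldt * zeR = ArithmeticFunction.log := ArithmeticFunction.vonMangoldt_mul_zeta

lemma muR_le (n : ℕ) : |muR n| ≤ 1 := by
  unfold muR
  rw [ArithmeticFunction.intCoe_apply]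
  have h := ArithmeticFunction.abs_moebius_le_one (n := n)
  exact_mod_cast h

lemma zeR_apply {n : ℕ} (hn : 1 ≤ n) : zeR n = 1 := by
  unfold zeR
  rw [ArithmeticFunction.natCoe_apply, ArithmeticFunction.zeta_apply, if_neg (by omega)]
  simp

/-- the coefficients of the type two sums -/
noncomputable def aII (z : ℕ) : ArithmeticFunction ℝ := (muR - tru z muR) * zeR

noncomputable def bII (z : ℕ) : ArithmeticFunction ℝ := vonMangoldt - tru z vonMangoldt

/-- Vaughan's identity -/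
lemma vaughan (z : ℕ) : (vonMangoldt : ArithmeticFunction ℝ) = tru z vonMangoldt +
    (tru z muR * ArithmeticFunction.log + (-(tru z muR * tru z vonMangoldt * zeR) + bII z * aII z)) := by
  have h1 := muR_zeR
  have h2 := lam_zeR
  unfold bII aII
  have h3 : (vonMangoldt : ArithmeticFunction ℝ) - tru z vonMangoldt = (vonMangoldt - tru z vonMangoldt) * (muR * zeR) := by
    rw [h1, mul_one]
  rw [← h2]
  linear_combination h3

end Pool.Agent.H15.QP
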